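import Pool.Agent.H67.NP.Dis

/-! # NoPass : Ab

The two window rules.  Window 1 is `mv (A.cfg 0) A.D` (H67.Flat.E0b), and `A.win` (H78.Tie.Win):
`Fq (mv (A.cfg 0) A.D) Y u v = Fq (A.cfg 1) Y u v`, bounded by 1 at visible u: `h.fl.zero 1` / `Fl.all`.
By `dg_form`, `df_form`, `const_eq` (E0b) and a direct computation of R (the two configurations
differ only in the row 0 mod p, moved by (D, D)):
F0 = F1 + R_0(u,v) - R_p(u,v) - [u in [0,D)] * lv p 0 h Y + [u in [W,W+D)] * lv p (-w) h Y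
 + [v in [0,D)] * lv p 0 w Y - [v in [-H,-H+D)] * lv p (-h) w Y.
For -w < Y <= 0 and w <= h: lv p 0 h Y = 1, lv p (-w) h Y = 0, lv p 0 w Y = 1, lv p (-h) w Y = 0.
So F0 = F1 + R_0 - R_p - [u in [0,D)] + [v in [0,D)].  alpha: u in [0,D), v not in [0,D), (u,v) not in R_0
(columns u in [0,qw), rows v in [-qh,0)): F0 = F1 - R_p - 1 <= 0.  beta: u not in [0,D), v in [0,D),
(u,v) not in R_p: F0 = F1 + R_0 + 1 >= 0.
-/

namespace Pool.Agent.H78.Tie

open Finset
open Pool.Agent.H98.Flat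
open Pool.Agent.H67.Flat

set_option linter.dupNamespace false
set_option linter.unusedVariables false

namespace TAp

variable {A : TAp}

namespace NPH

variable {T : A.Tie}

theorem k0c (A : TAp) : (A.sg = 1 ∧ A.k0 = 2) ∨ (A.sg = -1 ∧ A.k0 = 1) := by
  unfold k0
  rcases A.hsg with h | h
  · left; exact ⟨h, by rw [if_pos h]⟩
  · right; exact ⟨h, by rw [if_neg (by omega)]⟩

/-- the difference of the heights of the two windows -/
theorem win_diff (A : TAp) (y u v : ℤ) :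
    Fq (A.cfg 0) y u v - Fq (A.cfg 1) y u v
      = (A.cfg 0).hor 0 u * (A.cfg 0).ver 0 v
        - (mv (A.cfg 0) A.D).hor 0 u * (mv (A.cfg 0) A.D).ver 0 v
        + PHI (A.cfg 0) A.D u v y := by
  rw [← A.win]
  set C := A.cfg 0 with hC
  have hd := A.D_nonneg
  have c1 := const_eq C A.U00 hd A.D_W A.D_H y
  have g1 := dg_form C A.U00 hd A.D_W y u
  have f1 := df_form C A.U00 hd A.D_H y v
  have hR : C.R u v - (mv C A.D).R u v
      = C.hor 0 u * C.ver 0 v - (mv C A.D).hor 0 u * (mv C A.D).ver 0 v := by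
    unfold Cfg.R
    change ∑ k ∈ range C.p, C.hor k u * C.ver k v
      - ∑ k ∈ range C.p, (mv C A.D).hor k u * (mv C A.D).ver k v = _
    rw [← Finset.sum_sub_distrib, Finset.sum_eq_single 0]
    · rfl
    · intro k hk hk0
      have hk := Finset.mem_range.1 hk
      have nd : ¬ (C.p : ℤ) ∣ (k : ℤ) := by
        intro h
        have := Int.le_of_dvd (by omega) h
        omega
      have a1 : (mv C A.D).hor k u = C.hor k u := by
        unfold Cfg.hor; rw [mv_U C A.D k nd]; rfl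
      have a2 : (mv C A.D).ver k v = C.ver k v := by
        unfold Cfg.ver; rw [mv_V C A.D k nd]; rfl
      rw [a1, a2, sub_self]
    · intro h
      exact absurd (Finset.mem_range.2 C.p_pos) h
  unfold Fq PHI
  linear_combination hR - g1 + f1 - c1

theorem PHI_win (A : TAp) {y : ℤ} (hwh : (A.w : ℤ) ≤ A.h) (y1 : -(A.w : ℤ) < y) (y2 : y ≤ 0)
    (u v : ℤ) : PHI (A.cfg 0) A.D u v y = ph A.NN 0 A.D v - ph A.NN 0 A.D u := by
  have h2 := A.h2
  have w2 := A.w2
  have hw := A.hw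
  have l1 : lv A.p 0 A.h y = 1 := by
    unfold lv
    rw [Int.emod_eq_of_lt (by omega) (by omega), if_pos (by omega)]
  have l2 : lv A.p (-A.w) A.h y = 0 := by
    unfold lv
    have : (-(A.w : ℤ) - y) % (A.p : ℤ) = -(A.w : ℤ) - y + A.p := by
      rw [← Int.add_emod_right, Int.emod_eq_of_lt (by omega) (by omega)]
    rw [this, if_neg (by omega)]
  have l3 : lv A.p 0 A.w y = 1 := by
    unfold lv
    rw [Int.emod_eq_of_lt (by omega) (by omega), if_pos (by omega)]
  have l4 : lv A.p (-A.h) A.w y = 0 := by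
    unfold lv
    have : (-(A.h : ℤ) - y) % (A.p : ℤ) = -(A.h : ℤ) - y + A.p := by
      rw [← Int.add_emod_right, Int.emod_eq_of_lt (by omega) (by omega)]
    rw [this, if_neg (by omega)]
  unfold PHI
  change -(ph A.NN 0 A.D u * lv A.p 0 A.h y) + ph A.NN (A.cfg 0).W A.D u * lv A.p (-A.w) A.h y
    + ph A.NN 0 A.D v * lv A.p 0 A.w y
    - ph A.NN (-(A.cfg 0).H) A.D v * lv A.p (-A.h) A.w y = _
  rw [l1, l2, l3, l4]
  ring

theorem bound1 (h : NPH A T) {x : ℤ} (hx : (A.p : ℤ) ∣ x) (y v : ℤ) :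
    -1 ≤ Fq (A.cfg 1) y (x - A.k0) v ∧ Fq (A.cfg 1) y (x - A.k0) v ≤ 1 := by
  have := h.fl.all 1 (x - A.k0) v y (by rwa [sub_add_cancel])
  exact abs_le.1 this

/-- the height in terms of the second window -/
theorem F_win (h : NPH A T) {y x v : ℤ} (y1 : -(A.w : ℤ) < y) (y2 : y ≤ 0) :
    A.Rv x v - A.gv y x + A.fv y v = Fq (A.cfg 1) y (x - A.k0) v
      + (A.cfg 0).hor 0 (x - A.k0) * (A.cfg 0).ver 0 v
      - (mv (A.cfg 0) A.D).hor 0 (x - A.k0) * (mv (A.cfg 0) A.D).ver 0 v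
      + ph A.NN 0 A.D v - ph A.NN 0 A.D (x - A.k0) := by
  have s := h.sz
  have a := win_diff A y (x - A.k0) v
  rw [PHI_win A (by omega) y1 y2] at a
  have e : A.Rv x v - A.gv y x + A.fv y v = Fq (A.cfg 0) y (x - A.k0) v := rfl
  rw [e]
  linear_combination a

theorem W_p (A : TAp) {x z : ℤ} (hx : (A.p : ℤ) ∣ x) (hz : (A.p : ℤ) ∣ z) (h : z + A.W1 < x) :
    A.q * (A.w : ℤ) ≤ x - z - A.k0 := by
  have h1 : (A.p : ℤ) ∣ x - (z + A.W1) := dvd_sub hx (dvd_add hz A.p_W1)
  have := Int.le_of_dvd (by omega) h1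
  have p5 := A.p5
  unfold W1 at this
  rcases k0c A with h | h <;> omega

/-- **two window rule (alpha)** -/
theorem alpha (h : NPH A T) {y x v : ℤ} (y1 : -(A.w : ℤ) < y) (y2 : y ≤ 0)
    (hx : (A.p : ℤ) ∣ x) (x1 : 0 < x) (x2 : x ≤ A.D) (v1 : A.D ≤ v) (v2 : v < A.NN)
    (hn : A.W1 < x ∨ v < A.NN - A.q * A.h) : A.Rv x v - A.gv y x + A.fv y v ≤ 0 := by
  have hp5 := A.p5
  have hxp := Int.le_of_dvd x1 hx
  have hD := A.D_pos
  have hq := A.q_pos'
  have DH : A.D + A.q * A.h < A.NN := A.D_H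
  have DW : A.D + A.q * A.w < A.NN := A.D_W
  have hh : (0 : ℤ) ≤ A.q * A.h := by positivity
  have hw : (0 : ℤ) ≤ A.q * A.w := by positivity
  have kc := k0c A
  have b := (h.bound1 hx y v).2
  rw [h.F_win y1 y2]
  have p1 : ph A.NN 0 A.D (x - A.k0) = 1 := by
    apply ph_of_lt
    rw [sub_zero, Int.emod_eq_of_lt (by rcases kc with h | h <;> omega)
      (by rcases kc with h | h <;> omega)]
    rcases kc with h | h <;> omega
  have p2 : ph A.NN 0 A.D v = 0 := by
    apply ph_of_le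
    rw [sub_zero, Int.emod_eq_of_lt (by omega) (by omega)]
    omega
  have r0 : (A.cfg 0).hor 0 (x - A.k0) * (A.cfg 0).ver 0 v = 0 := by
    rcases hn with hn | hn
    · have e : (A.cfg 0).hor 0 (x - A.k0) = 0 := by
        unfold Cfg.hor
        rw [A.U00]
        apply ph_of_le
        change A.q * (A.w : ℤ) ≤ (x - A.k0 - 0) % A.NN
        have := W_p A hx (dvd_zero _) (by omega : 0 + A.W1 < x)
        rw [sub_zero, Int.emod_eq_of_lt (by omega) (by rcases kc with h | h <;> omega)]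
        omega
      rw [e, zero_mul]
    · have e : (A.cfg 0).ver 0 v = 0 := by
        unfold Cfg.ver Cfg.V
        rw [A.U00]
        apply ph_of_le
        change A.q * (A.h : ℤ) ≤ (v - (0 + A.q * 0 - A.q * A.h)) % A.NN
        rw [show v - (0 + A.q * 0 - A.q * (A.h : ℤ)) = v + A.q * A.h by ring,
          Int.emod_eq_of_lt (by omega) (by omega)]
        omega
      rw [e, mul_zero]
  have r1 : 0 ≤ (mv (A.cfg 0) A.D).hor 0 (x - A.k0) * (mv (A.cfg 0) A.D).ver 0 v :=
    mul_nonneg (ph_nonneg _ _ _ _) (ph_nonneg _ _ _ _)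
  omega

/-- **two window rule (beta)** -/
theorem beta (h : NPH A T) {y x v : ℤ} (y1 : -(A.w : ℤ) < y) (y2 : y ≤ 0)
    (hx : (A.p : ℤ) ∣ x) (x1 : A.D < x) (x2 : x ≤ A.NN) (v1 : 0 ≤ v) (v2 : v < A.D)
    (hn : A.D + A.W1 < x ∨ v < A.D - A.q * A.h) : 0 ≤ A.Rv x v - A.gv y x + A.fv y v := by
  have hp5 := A.p5
  have hxp : A.D + A.p ≤ x := by
    have := Int.le_of_dvd (by omega) (dvd_sub hx A.p_D)
    omega
  have hD := A.D_pos
  have hq := A.q_pos'
  have DH : A.D + A.q * A.h < A.NN := A.D_H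
  have DW : A.D + A.q * A.w < A.NN := A.D_W
  have hh : (0 : ℤ) ≤ A.q * A.h := by positivity
  have hw : (0 : ℤ) ≤ A.q * A.w := by positivity
  have kc := k0c A
  have b := (h.bound1 hx y v).1
  rw [h.F_win y1 y2]
  have p1 : ph A.NN 0 A.D (x - A.k0) = 0 := by
    apply ph_of_le
    rw [sub_zero, Int.emod_eq_of_lt (by rcases kc with h | h <;> omega)
      (by rcases kc with h | h <;> omega)]
    rcases kc with h | h <;> omega
  have p2 : ph A.NN 0 A.D v = 1 := by
    apply ph_of_lt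
    rw [sub_zero, Int.emod_eq_of_lt (by omega) (by omega)]
    omega
  have r0 : (mv (A.cfg 0) A.D).hor 0 (x - A.k0) * (mv (A.cfg 0) A.D).ver 0 v = 0 := by
    rcases hn with hn | hn
    · have e : (mv (A.cfg 0) A.D).hor 0 (x - A.k0) = 0 := by
        unfold Cfg.hor
        rw [mv_U0 (A.cfg 0) A.D 0 (dvd_zero _), A.U00]
        apply ph_of_le
        change A.q * (A.w : ℤ) ≤ (x - A.k0 - (0 + A.D)) % A.NN
        have := W_p A hx A.p_D hn
        rw [Int.emod_eq_of_lt (by omega) (by rcases kc with h | h <;> omega)]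
        omega
      rw [e, zero_mul]
    · have e : (mv (A.cfg 0) A.D).ver 0 v = 0 := by
        unfold Cfg.ver
        rw [mv_V0 (A.cfg 0) A.D 0 (dvd_zero _)]
        unfold Cfg.V
        rw [A.U00]
        apply ph_of_le
        change A.q * (A.h : ℤ) ≤ (v - (0 + A.q * 0 + A.D - A.q * A.h)) % A.NN
        rw [show v - (0 + A.q * 0 + A.D - A.q * (A.h : ℤ)) = v - A.D + A.q * A.h by ring,
          ← Int.add_emod_right, Int.emod_eq_of_lt (by omega) (by omega)]
        omega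
      rw [e, mul_zero]
  have r1 : 0 ≤ (A.cfg 0).hor 0 (x - A.k0) * (A.cfg 0).ver 0 v :=
    mul_nonneg (ph_nonneg _ _ _ _) (ph_nonneg _ _ _ _)
  omega

end NPH

end TAp

end Pool.Agent.H78.Tie
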