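import Pool.Agent.H67.NP.Fun

/-! # NoPass : Count

Sum over all visible columns x = p j (0 < j <= q) of Rv x (vx x), vx x := x - k0 + q y.  By gid' (th = 0) it is
sum gv y x - sum fv y (x - k0 + q y).  g = sum over i < w of arcs [U(y+i), +ell) plus sum over i < h of arcs [U(y+w+i), +qw);
f = sum over i < w of arcs [V(y+i), +ell).  ell is a multiple of p (ell = U(k+h) - U k mod N).
(1) for p | L, 0 <= L <= N: #{x = p j - k0 + e in the arc [a, a+L) mod N} = L / p for every a, e: exactly: sum over j < q of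
 ph N a L (p j + e) = L/p.  [(p j + e - a) % (p q) < p l iff (j + (e-a)/p) % q < l.]
(2) for the arcs [U k, U k + q w): U k = 0 mod p, x = U k + p i, visible column in the arc iff 0 < p i <= W1: W1/p of them.
So sum Rv = h * (W1/p).  On the other hand Rv <= 1 and Rv = 0 unless vx x is in the arc [z0, z0 + L), contained in the arc of length
L' = p * ceil(L/p) <= L + p - 1 (<= N): at most L'/p columns.  So h W1 <= L + p - 1 <= 2 q h - W1 + p - 1, i.e. (h+1) W1 <= 2 q h + p - 1;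
W1 >= 2q - 1 (W1_bd): (h+1)(2q-1) <= 2qh + p - 1 iff 2q <= h + p: false since p < q and h < p.
-/

namespace Pool.Agent.H78.Tie

open Finset
open Pool.Agent.H98.Flat
open Pool.Agent.H67.Flat

set_option linter.dupNamespace false
set_option linter.unusedVariables false

namespace TAp

variable {A : TAp}

namespace NPH

variable {T : A.Tie}

end NPH

/-- residues of an arithmetic progression in an arc -/
theorem Count_ph (p q : ℕ) (hp : 0 < p) (hq : 0 < q) (a e l j : ℤ) :
    ph ((p : ℤ) * q) a (p * l) (p * j + e) = ph (q : ℤ) (-((e - a) / (p : ℤ))) l j := by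
  have hp' : (0 : ℤ) < p := by exact_mod_cast hp
  have hq' : (0 : ℤ) < q := by exact_mod_cast hq
  have e1 : (p * j + e - a) / (p : ℤ) = j - -((e - a) / (p : ℤ)) := by
    rw [show (p : ℤ) * j + e - a = (e - a) + p * j by ring, Int.add_mul_ediv_left _ _ hp'.ne']
    ring
  have key : (p * j + e - a) % ((p : ℤ) * q) < p * l ↔
      (j - -((e - a) / (p : ℤ))) % (q : ℤ) < l := by
    rw [← e1]
    set z := (p : ℤ) * j + e - a with hz
    have d1 := Int.emod_add_mul_ediv z (p : ℤ)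
    have d2 := Int.emod_add_mul_ediv (z / (p : ℤ)) (q : ℤ)
    have r0 := Int.emod_nonneg z hp'.ne'
    have r1 := Int.emod_lt_of_pos z hp'
    have s0 := Int.emod_nonneg (z / (p : ℤ)) hq'.ne'
    have s1 := Int.emod_lt_of_pos (z / (p : ℤ)) hq'
    have hm : z % ((p : ℤ) * q) = z % p + p * (z / (p : ℤ) % q) := by
      refine ((Int.ediv_emod_unique (q := z / (p : ℤ) / (q : ℤ))
        (by positivity)).2 ⟨?_, ?_, ?_⟩).2
      · calc z % (p : ℤ) + p * (z / (p : ℤ) % q) + (p : ℤ) * q * (z / (p : ℤ) / q)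
            = z % (p : ℤ) + p * (z / (p : ℤ) % q + q * (z / (p : ℤ) / q)) := by ring
          _ = z := by rw [d2, d1]
      · have : 0 ≤ (p : ℤ) * (z / (p : ℤ) % q) := mul_nonneg hp'.le s0
        omega
      · have : (p : ℤ) * (z / (p : ℤ) % q + 1) ≤ p * q :=
          mul_le_mul_of_nonneg_left (by omega) hp'.le
        rw [mul_add, mul_one] at this
        omega
    rw [hm]
    constructor
    · intro hlt
      by_contra hc
      have : (p : ℤ) * l ≤ p * (z / (p : ℤ) % q) := mul_le_mul_of_nonneg_left (by omega) hp'.le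
      omega
    · intro hlt
      have : (p : ℤ) * (z / (p : ℤ) % q + 1) ≤ p * l :=
        mul_le_mul_of_nonneg_left (by omega) hp'.le
      rw [mul_add, mul_one] at this
      omega
  unfold ph
  by_cases hc : (p * j + e - a) % ((p : ℤ) * q) < p * l
  · rw [if_pos hc, if_pos (key.1 hc)]
  · rw [if_neg hc, if_neg (fun h => hc (key.2 h))]

theorem Count_sum (p q : ℕ) (hp : 0 < p) (hq : 0 < q) (a e l : ℤ) (l0 : 0 ≤ l) (l1 : l ≤ q) :
    ∑ j ∈ range q, ph ((p : ℤ) * q) a (p * l) (p * (j : ℤ) + e) = l := by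
  rw [Finset.sum_congr rfl fun (j : ℕ) _ => Count_ph p q hp hq a e l (j : ℤ)]
  exact sum_ph q hq _ l l0 l1

/-- the same with a length which is a multiple of `p` -/
theorem Count_sum' (A : TAp) (a e L : ℤ) (hL : (A.p : ℤ) ∣ L) (L0 : 0 ≤ L) (L1 : L ≤ A.NN) :
    A.p * ∑ j ∈ range A.q, ph A.NN a L (A.p * (j : ℤ) + e) = L := by
  obtain ⟨l, rfl⟩ := hL
  have hp : (0 : ℤ) < A.p := by exact_mod_cast A.hp
  have l0 : 0 ≤ l := by
    by_contra hc
    have : (A.p : ℤ) * l < 0 := mul_neg_of_pos_of_neg hp (by omega)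
    omega
  have l1 : l ≤ A.q := by
    unfold NN at L1
    exact le_of_mul_le_mul_left L1 hp
  have := Count_sum A.p A.q A.hp A.hq a e l l0 l1
  unfold NN
  rw [this]

theorem Count_pU (A : TAp) (k : ℤ) : (A.p : ℤ) ∣ (A.cfg 0).U k := A.pU k

theorem Count_dmod {p N z : ℤ} (h : p ∣ N) (hz : p ∣ z) : p ∣ z % N := by
  rw [Int.emod_def]
  exact dvd_sub hz (h.mul_right _)

theorem Count_ell (A : TAp) (k : ℤ) : (A.p : ℤ) ∣ (A.cfg 0).ell k := by
  have hN : (A.cfg 0).N = A.NN := rfl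
  unfold Cfg.ell
  rw [hN]
  exact Count_dmod A.p_NN (dvd_sub (A.pU _) (A.pU _))

/-- the visible columns of a rectangle -/
theorem Count_hor (A : TAp) (k x : ℤ) (hx : (A.p : ℤ) ∣ x) :
    (A.cfg 0).hor k (x - A.k0) = ph A.NN ((A.cfg 0).U k) A.W1 (x - A.p) := by
  have hN := A.NN_pos
  have p5 := A.p5
  have hp : (0 : ℤ) < A.p := by omega
  have pU := A.pU k
  unfold U at pU
  have hk : (A.sg = 1 ∧ A.k0 = 2) ∨ (A.sg = -1 ∧ A.k0 = 1) := by
    unfold k0
    rcases A.hsg with h | h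
    · left; exact ⟨h, by rw [if_pos h]⟩
    · right; exact ⟨h, by rw [if_neg (by rw [h]; norm_num)]⟩
  set z := x - A.p - (A.cfg 0).U k with hz
  have pz : (A.p : ℤ) ∣ z % A.NN :=
    Count_dmod A.p_NN (dvd_sub (dvd_sub hx (dvd_refl _)) pU)
  have e0 := Int.emod_nonneg z hN.ne'
  have e1 := Int.emod_lt_of_pos z hN
  have ed := Int.emod_add_mul_ediv z A.NN
  -- z % N ≤ N - p
  have e2 : z % A.NN + A.p ≤ A.NN :=
    dvd_gap (dvd_add pz (dvd_refl _)) A.p_NN (by omega)
  have em : (x - A.k0 - (A.cfg 0).U k) % A.NN = z % A.NN + A.p - A.k0 := by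
    refine ((Int.ediv_emod_unique (q := z / A.NN) hN).2 ⟨?_, ?_, ?_⟩).2
    · rw [← sub_eq_zero] at ed ⊢
      linear_combination ed
    · rcases hk with h | h <;> omega
    · rcases hk with h | h <;> omega
  have hW : (A.cfg 0).W = A.W1 - A.sg := by
    show (A.q : ℤ) * A.w = A.q * A.w + A.sg - A.sg
    ring
  have hNN : (A.cfg 0).N = A.NN := rfl
  unfold Cfg.hor ph
  rw [hNN, em, hW, ← hz]
  have key : z % A.NN + A.p - A.k0 < A.W1 - A.sg ↔ z % A.NN < A.W1 := by
    constructor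
    · intro hlt
      by_contra hc
      rcases hk with h | h <;> omega
    · intro hlt
      have : z % A.NN + A.p ≤ A.W1 := dvd_gap (dvd_add pz (dvd_refl _)) A.p_W1 (by omega)
      rcases hk with h | h <;> omega
  by_cases hc : z % A.NN < A.W1
  · rw [if_pos hc, if_pos (key.2 hc)]
  · rw [if_neg hc, if_neg (fun h => hc (key.1 h))]

/-- the number of crossings of a level -/
theorem Count_total (A : TAp) (y : ℤ) :
    A.p * ∑ j ∈ range A.q, A.Rv (A.p * ((j : ℤ) + 1)) (A.p * ((j : ℤ) + 1) - A.k0 + A.q * y)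
      = A.h * A.W1 := by
  have hN := A.NN_pos
  have hNN : (A.cfg 0).N = A.NN := rfl
  have hW1 := A.W1_bd
  have q6 := A.q6
  have h1 : ∀ j ∈ range A.q,
      A.Rv (A.p * ((j : ℤ) + 1)) (A.p * ((j : ℤ) + 1) - A.k0 + A.q * y)
      = ((∑ i ∈ range A.w, ph A.NN ((A.cfg 0).U (y + i)) ((A.cfg 0).ell (y + i))
          (A.p * (j : ℤ) + (A.p - A.k0)))
        + ∑ i ∈ range A.h, ph A.NN ((A.cfg 0).U (y + A.w + i)) A.W1 (A.p * (j : ℤ) + 0))
        - ∑ i ∈ range A.w, ph A.NN ((A.cfg 0).V (y + i)) ((A.cfg 0).ell (y + i))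
          (A.p * (j : ℤ) + (A.p - A.k0 + A.q * y)) := by
    intro j _
    have g := (A.cfg 0).gid y (A.p * ((j : ℤ) + 1) - A.k0) (A.q * y)
      (by show (A.q : ℤ) * (y - 1) ≤ A.q * y; rw [mul_sub]; omega)
      (by show (A.q : ℤ) * y ≤ A.q * y; exact le_refl _)
    have hR : A.Rv (A.p * ((j : ℤ) + 1)) (A.p * ((j : ℤ) + 1) - A.k0 + A.q * y)
        = (A.cfg 0).g y (A.p * ((j : ℤ) + 1) - A.k0)
          - (A.cfg 0).f y (A.p * ((j : ℤ) + 1) - A.k0 + A.q * y) := by
      unfold Rv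
      omega
    rw [hR]
    unfold Cfg.g Cfg.f
    congr 1
    · congr 1
      · refine Finset.sum_congr rfl fun i _ => ?_
        rw [hNN]
        apply ph_congr
        exact ⟨0, by ring⟩
      · refine Finset.sum_congr rfl fun i _ => ?_
        have := Count_hor A (y + A.w + i) (A.p * ((j : ℤ) + 1)) (dvd_mul_right _ _)
        unfold Cfg.hor at this
        refine this.trans ?_
        apply ph_congr
        exact ⟨0, by ring⟩
    · refine Finset.sum_congr rfl fun i _ => ?_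
      rw [hNN]
      apply ph_congr
      exact ⟨0, by ring⟩
  rw [Finset.sum_congr rfl h1, Finset.sum_sub_distrib, Finset.sum_add_distrib,
    Finset.sum_comm, Finset.sum_comm (s := range A.q) (t := range A.h),
    Finset.sum_comm (s := range A.q) (t := range A.w)]
  have lN : ∀ k, (A.cfg 0).ell k ≤ A.NN := fun k => ((A.cfg 0).ell_lt k).le
  have c1 : ∀ (k a e : ℤ), A.p * ∑ j ∈ range A.q, ph A.NN a ((A.cfg 0).ell k)
      (A.p * (j : ℤ) + e) = (A.cfg 0).ell k := fun k a e =>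
    Count_sum' A a e _ (Count_ell A k) ((A.cfg 0).ell_nonneg k) (lN k)
  have c2 : ∀ (a e : ℤ), A.p * ∑ j ∈ range A.q, ph A.NN a A.W1
      (A.p * (j : ℤ) + e) = A.W1 := fun a e =>
    Count_sum' A a e _ A.p_W1 (by omega) (by omega)
  rw [mul_sub, mul_add, Finset.mul_sum, Finset.mul_sum, Finset.mul_sum]
  simp only [c1, c2]
  simp

/-- the crossings of a level do not fit into an arc of length `2 q h - W1` -/
theorem cross_count (A : TAp) (y z0 L : ℤ) (L0 : 0 ≤ L) (hL : L + A.W1 ≤ 2 * (A.q * A.h))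
    (h1 : ∀ x v, (A.p : ℤ) ∣ x → A.Rv x v ≤ 1)
    (hz : ∀ x, (A.p : ℤ) ∣ x → 0 < x → x ≤ A.NN → 1 ≤ A.Rv x (x - A.k0 + A.q * y) →
      ∃ δ, 0 ≤ δ ∧ δ < L ∧ A.NN ∣ x - A.k0 + A.q * y - (z0 + δ)) : False := by
  have hN := A.NN_pos
  have hW1 := A.W1_bd
  have q6 := A.q6
  have p5 := A.p5
  have pq := A.pq'
  have hp : (0 : ℤ) < A.p := by omega
  have h2 : 2 * (A.h : ℤ) + 1 ≤ A.p := by have := A.h2; omega
  have hh : (2 : ℤ) ≤ A.h := by have := A.hh; omega
  have hqh : (A.q : ℤ) * (2 * A.h + 1) ≤ A.q * A.p := mul_le_mul_of_nonneg_left h2 (by omega)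
  have e1 : (A.q : ℤ) * (2 * A.h + 1) = 2 * (A.q * A.h) + A.q := by ring
  have e2 : A.NN = A.q * A.p := mul_comm _ _
  have tot := Count_total A y
  -- upper bound
  set l' := (L + A.p - 1) / (A.p : ℤ) with hl'
  have d1 := Int.emod_add_mul_ediv (L + A.p - 1) (A.p : ℤ)
  have d2 := Int.emod_nonneg (L + A.p - 1) hp.ne'
  have d3 := Int.emod_lt_of_pos (L + A.p - 1) hp
  rw [← hl'] at d1
  have L1 : L ≤ A.p * l' := by omega
  have L2 : A.p * l' ≤ L + A.p - 1 := by omega
  have up : ∑ j ∈ range A.q, A.Rv (A.p * ((j : ℤ) + 1)) (A.p * ((j : ℤ) + 1) - A.k0 + A.q * y)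
      ≤ ∑ j ∈ range A.q, ph A.NN z0 (A.p * l') (A.p * (j : ℤ) + (A.p - A.k0 + A.q * y)) := by
    refine Finset.sum_le_sum fun j hj => ?_
    have hjq := Finset.mem_range.1 hj
    have px : (A.p : ℤ) ∣ A.p * ((j : ℤ) + 1) := dvd_mul_right _ _
    by_cases hc : 1 ≤ A.Rv (A.p * ((j : ℤ) + 1)) (A.p * ((j : ℤ) + 1) - A.k0 + A.q * y)
    · obtain ⟨δ, δ0, δ1, hδ⟩ := hz _ px (by positivity) (by
        unfold NN
        exact mul_le_mul_of_nonneg_left (by exact_mod_cast hjq) hp.le) hc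
      have := h1 _ (A.p * ((j : ℤ) + 1) - A.k0 + A.q * y) px
      have e3 : ph A.NN z0 (A.p * l') (A.p * (j : ℤ) + (A.p - A.k0 + A.q * y)) = 1 := by
        apply ph_of_lt
        have e4 : (A.p * (j : ℤ) + (A.p - A.k0 + A.q * y) - z0) % A.NN = δ % A.NN := by
          apply emod_congr
          rwa [show A.p * (j : ℤ) + (A.p - A.k0 + A.q * y) - z0 - δ
            = A.p * ((j : ℤ) + 1) - A.k0 + A.q * y - (z0 + δ) by ring]
        rw [e4]
        have e5 : δ < A.NN := by omega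
        rw [Int.emod_eq_of_lt δ0 e5]
        omega
      rw [e3]
      exact this
    · have := ph_nonneg A.NN z0 (A.p * l') (A.p * (j : ℤ) + (A.p - A.k0 + A.q * y))
      omega
  have c := Count_sum' A z0 (A.p - A.k0 + A.q * y) (A.p * l') (dvd_mul_right _ _)
    (by omega) (by omega)
  have up2 := mul_le_mul_of_nonneg_left up hp.le
  rw [tot, c] at up2
  -- h * W1 ≤ L + p - 1
  have f1 : (A.h : ℤ) * (2 * A.q - 1) ≤ A.h * A.W1 :=
    mul_le_mul_of_nonneg_left hW1.1 (by omega)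
  have f2 : (A.h : ℤ) * (2 * A.q - 1) = 2 * (A.q * A.h) - A.h := by ring
  omega

namespace NPH

end NPH

end TAp

end Pool.Agent.H78.Tie
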