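import Pool.Agent.H67.NP.WallI
import Pool.Agent.H67.NP.Count

/-! # NoPass : CaseI

z0 := min (D - q h) a, z1 := max al a + q h, L := z1 - z0; L + W1 <= 2 q h (four combinations, from R2, R3, al <= D - W1, W1 <= q h).
cross_count at y = y0.  x in (0,D]: vx x in [p - k0 - q(w-1), D): z0 <= D - qh <= q xi - sg - qh <= -qw - sg (Dxi, h.hs), D <= qh <= z1.
x in (D,N], vx x < D: then x <= D + W1 and R_D gives Rv = 0.  vx x >= D (vx x < N): gid' th = 0: f (vx x) = g x - 1.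
 x <= D + W1: g = ph' = kp (g_inD): f = kp - 1 <> kp: Rw k (vx x): in [a, a + qh).
 x > D + W1: rI3: g = kp: same. g = kp+1: lemH + uniq: the crossing rectangle m contains the rows [al,D) and vx x: with t = V m lifted so that
 t - qh <= al, D <= t (t - qh <= al < t and D - 1 in the rows): D - qh <= t - qh, t <= al + qh: vx x in [D - qh, al + qh) mod N.
-/

namespace Pool.Agent.H78.Tie

open Finset
open Pool.Agent.H98.Flat
open Pool.Agent.H67.Flat

set_option linter.dupNamespace false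
set_option linter.unusedVariables false

namespace TAp

variable {A : TAp}

namespace NPH

variable {T : A.Tie}

/-- **Case I** -/
theorem caseI (h : NPH A T) (hD : A.W1 < A.D) (hp : A.ph' = A.kp) : False := by
  obtain ⟨al, I, al0, al1, hal1, hal, I0, I1, hI⟩ := h.al_ex hD hp
  obtain ⟨k, a, hk, ha, a0, a1⟩ := h.wallI hD hp al0 al1 hal I0 I1 hI
  have w1 := A.W1_bd
  have q6 := A.q6
  have p5 := A.p5
  have al2 : al < A.D := by linarith [w1.1]
  have dx := h.Dxi hD hp al0 al2 hal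
  obtain ⟨s1, s2, s3, s4, s5, s6, s7, s8, s9⟩ := h.sz
  have hs := h.hs
  have x0 := h.x0
  have dw := A.D_W'
  have dh := A.D_H'
  have N0 := A.NN_pos
  have D0 := A.D_pos
  have hW1 : A.W1 = A.q * A.w + A.sg := rfl
  -- products
  have m1 : (A.q : ℤ) * ((A.w : ℤ) - T.x) ≤ A.q * A.h := mul_le_mul_of_nonneg_left hs (by linarith)
  have m2 : (A.q : ℤ) * ((A.w : ℤ) + 1) ≤ A.q * A.h := mul_le_mul_of_nonneg_left s2 (by linarith)
  have m3 : (A.q : ℤ) * ((A.w : ℤ) - T.x) = A.q * A.w + A.q * -T.x := by ring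
  have m4 : (A.q : ℤ) * ((A.w : ℤ) + 1) = A.q * A.w + A.q := by ring
  have m5 : (A.q : ℤ) * A.y0 = A.q - A.q * A.w := by unfold y0; ring
  have m6 : 0 ≤ (A.q : ℤ) * A.w := by positivity
  have kc := A.k0_cases
  have hvx : ∀ x : ℤ, x - A.k0 + A.q * A.y0 = A.vx x := fun x => rfl
  have hv2 : ∀ x : ℤ, A.vx x = x - A.k0 + (A.q - A.q * A.w) := by
    intro x; unfold vx; rw [m5]
  set QH : ℤ := (A.q : ℤ) * (A.h : ℤ) with hQH
  set QW : ℤ := (A.q : ℤ) * (A.w : ℤ) with hQW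
  -- arc
  set z0 : ℤ := min (A.D - QH) a with hz0
  set z1 : ℤ := max al a + QH with hz1
  have e1 : z0 ≤ A.D - QH := min_le_left _ _
  have e2 : z0 ≤ a := min_le_right _ _
  have e3 : al + QH ≤ z1 := by linarith [le_max_left al a]
  have e4 : a + QH ≤ z1 := by linarith [le_max_right al a]
  have e5 : z0 = A.D - QH ∨ z0 = a := min_choice _ _
  have e6 : z1 = al + QH ∨ z1 = a + QH := by
    rcases max_choice al a with e | e
    · left; rw [hz1, e]
    · right; rw [hz1, e]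
  clear_value z0 z1
  have hL : (z1 - z0) + A.W1 ≤ 2 * QH := by
    rcases e5 with e5 | e5 <;> rcases e6 with e6 | e6 <;> rcases kc with ⟨c, -⟩ | ⟨c, -⟩ <;>
      linarith
  have hL0 : 0 ≤ z1 - z0 := by linarith
  -- the crossing lies in the rows of `k`
  have inK : ∀ v : ℤ, A.Rw k v → ∃ δ, 0 ≤ δ ∧ δ < z1 - z0 ∧ A.NN ∣ v - (z0 + δ) := by
    intro v hv
    obtain ⟨δ, d0, d1, d2⟩ := hv.off
    have f1 : (δ : ℤ) ≤ QH := by rw [hQH]; exact_mod_cast d1
    have f0 : 0 < (δ : ℤ) := by exact_mod_cast d0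
    refine ⟨a - z0 + (QH - δ), by linarith, by linarith, ?_⟩
    have e : v - (z0 + (a - z0 + (QH - δ))) = (v - (A.V k - δ)) - (a - (A.V k - QH)) := by ring
    rw [e]
    exact dvd_sub d2 ha
  refine cross_count A A.y0 z0 (z1 - z0) hL0 hL ?_ ?_
  · intro x v hx
    rcases h.Rv01 hx v with e | e <;> omega
  intro x hx x0' x1' hR
  rw [hvx] at hR ⊢
  have hv := hv2 x
  have xp : (A.p : ℤ) ≤ x := Int.le_of_dvd x0' hx
  by_cases xD : x ≤ A.D
  · refine ⟨A.vx x - z0, ?_, ?_, by simp⟩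
    · rcases kc with ⟨c, c'⟩ | ⟨c, c'⟩ <;> linarith
    · rcases kc with ⟨c, c'⟩ | ⟨c, c'⟩ <;> linarith
  push Not at xD
  by_cases vD : A.vx x < A.D
  · exfalso
    have : A.Rv x (A.vx x) = 0 := by
      apply h.R_D hD hx xD
      · rcases kc with ⟨c, c'⟩ | ⟨c, c'⟩ <;> linarith
      · rcases kc with ⟨c, c'⟩ | ⟨c, c'⟩ <;> linarith
      · exact vD
    omega
  push Not at vD
  have vN : A.vx x < A.NN := by
    rcases kc with ⟨c, c'⟩ | ⟨c, c'⟩ <;> linarith
  have hR1 : A.Rv x (A.vx x) = 1 := by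
    rcases h.Rv01 hx (A.vx x) with e | e <;> omega
  have hg : A.gv A.y0 x = A.Rv x (A.vx x) + A.fv A.y0 (A.vx x) := by
    have := gid' A (y := A.y0) (x := x) (θ := 0) le_rfl (by linarith)
    rw [sub_zero, hvx] at this
    exact this
  have key : A.gv A.y0 x = A.kp → ∃ δ, 0 ≤ δ ∧ δ < z1 - z0 ∧ A.NN ∣ A.vx x - (z0 + δ) := by
    intro e
    rcases hk (A.vx x) vD vN with e' | e'
    · exact inK _ e'
    · exfalso; rw [e, hR1, e'] at hg; omega
  by_cases xW : x ≤ A.D + A.W1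
  · exact key (by rw [h.g_inD hD hx xD.le xW, hp])
  push Not at xW
  obtain ⟨g0, g1⟩ := h.rI3 hD hp hx xW x1'
  rcases (by omega : A.gv A.y0 x = A.kp ∨ A.gv A.y0 x = A.kp + 1) with e | e
  · exact key e
  obtain ⟨m, mx, mv, mr⟩ := h.lemH hD hp al0 al2 hal hx xW x1' e
  obtain ⟨δ1, d10, d11, d12⟩ := (mr al le_rfl al2).off
  obtain ⟨δ2, d20, d21, d22⟩ := (mr (A.D - 1) (by omega) (by omega)).off
  obtain ⟨δ3, d30, d31, d32⟩ := mv.off
  have f11 : (δ1 : ℤ) ≤ QH := by rw [hQH]; exact_mod_cast d11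
  have f21 : (δ2 : ℤ) ≤ QH := by rw [hQH]; exact_mod_cast d21
  have f31 : (δ3 : ℤ) ≤ QH := by rw [hQH]; exact_mod_cast d31
  have f10 : 0 < (δ1 : ℤ) := by exact_mod_cast d10
  have f20 : 0 < (δ2 : ℤ) := by exact_mod_cast d20
  have f30 : 0 < (δ3 : ℤ) := by exact_mod_cast d30
  clear d11 d21 d31 d10 d20 d30
  have dd : A.NN ∣ (A.D - 1 - al) - (δ1 - δ2) := by
    have e : (A.D - 1 - al) - (δ1 - δ2) = (A.D - 1 - (A.V m - δ2)) - (al - (A.V m - δ1)) := by ring
    rw [e]; exact dvd_sub d22 d12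
  have hDN : A.D < A.NN := by linarith
  have dd1 : A.D - 1 - al = δ1 - δ2 := by
    obtain ⟨j, hj⟩ := dd
    have j0 : 0 ≤ j := by
      by_contra hc
      have : j ≤ -1 := by omega
      have : A.NN * j ≤ A.NN * (-1) := mul_le_mul_of_nonneg_left this N0.le
      linarith
    have j1 : j < 1 := by
      by_contra hc
      have : 1 ≤ j := by omega
      have hh : A.NN * 1 ≤ A.NN * j := mul_le_mul_of_nonneg_left this N0.le
      have r1 : al + δ1 < A.D := by linarith
      have r2 := mr (al + δ1) (by linarith) r1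
      refine not_Rw (k := m) (v := al + δ1) (δ := A.NN) ?_ (by linarith) le_rfl r2
      have e : al + δ1 - (A.V m - A.NN) = (al - (A.V m - δ1)) + A.NN := by ring
      rw [e]; exact dvd_add d12 dvd_rfl
    have : j = 0 := by omega
    rw [this, mul_zero] at hj
    linarith
  refine ⟨al + δ1 - δ3 - z0, by linarith, by linarith, ?_⟩
  have e' : A.vx x - (z0 + (al + δ1 - δ3 - z0))
      = (A.vx x - (A.V m - δ3)) - (al - (A.V m - δ1)) := by ring
  rw [e']
  exact dvd_sub d32 d12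

end NPH

end TAp

end Pool.Agent.H78.Tie
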