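import Pool.Agent.H67.NP.Line

/-! # NoPass : LineO

gamma := gv y0 c, gv (c+p) = gamma + 1.  c > D + W1 by act_D.  beta is available at x = c and x = c + p <= N.
For v in [0,D) with not Rw k v: (1) Rv c v = Rv (c+p) v (if Rv c v = 1, Rv (c+p) v = 0 then F(c+p) = F(c) - 2 = -1: beta; if Rv (c+p) v = 1,
Rv c v = 0: the rectangle at c+p has U = c so it is k (UU): Rw k v).  (2) beta at c+p: rho - gamma - 1 + f >= 0; Fb at c: rho - gamma + f <= 1:
f + rho = gamma + 1.
If rho = 0 for all such v: first alternative.  Otherwise there is v* in [0,D), not Rw k v*, rho = 1, E covers (c+p,v*) and c (as in inD).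
b := bottom of E, b <= v* < b + q h. If 1 <= b: rows b-1, b in [0,D), not in rows(k) (k covers c+p, uniq/abut): f(b) = gamma, f(b-1) = gamma+1:
B event, row = E mod p, evt_in: contradiction. So b <= 0. Top t = b + q h: if t < D: rows t-1, t in [0,D): T event at t > 0: evt_in.
So D <= t. Hence D <= q h and all v in [0,D) are rows of E, so not Rw k v (uniq at c+p) and rho = 1 : f = gamma: second alternative.
-/

namespace Pool.Agent.H78.Tie

open Finset
open Pool.Agent.H98.Flat
open Pool.Agent.H67.Flat

set_option linter.dupNamespace false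
set_option linter.unusedVariables false

namespace TAp

variable {A : TAp}

namespace NPH

variable {T : A.Tie}

/-- **up line `c` outside** -/
theorem outU (h : NPH A T) (hD : A.W1 < A.D) {c k : ℤ} (hc : (A.p : ℤ) ∣ c) (c0 : A.D < c)
    (c1 : c < A.NN) (hg : A.gv A.y0 (c + A.p) = A.gv A.y0 c + 1) (hk : A.LA A.y0 c k) :
    (∀ v, 0 ≤ v → v < A.D → A.Rw k v ∨ A.fv A.y0 v = A.gv A.y0 (c + A.p)) ∨
    (A.D ≤ A.q * A.h ∧ ∀ v, 0 ≤ v → v < A.D → A.fv A.y0 v = A.gv A.y0 c) := by
  have hsz := h.sz
  have hW := A.W1_bd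
  have hDH := A.D_H'
  have hDp := A.D_pos
  have hq := A.q_pos'
  have pc : (A.p : ℤ) ∣ c + A.p := dvd_add hc (dvd_refl _)
  have hqh : 0 < A.q * (A.h : ℤ) := by
    have : 0 < (A.h : ℤ) := by omega
    positivity
  -- c > D + W1
  have hcW : A.D + A.W1 < c := by
    by_contra hcon
    have := h.act_D hD hc c0.le (by omega)
    omega
  have hcN : c + A.p ≤ A.NN := by
    have h1 : (A.p : ℤ) ∣ A.NN := A.p_NN
    have h2 := dvd_sub h1 hc
    have := Int.le_of_dvd (by omega) h2
    omega
  obtain ⟨k0, k1, kU⟩ := hk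
  have hkC : A.Cx k (c + A.p) := by
    refine Cx_of pc (δ := A.p) ?_ (by omega) (by omega)
    have : c + (A.p : ℤ) - (A.U k + A.p) = c - A.U k := by ring
    rwa [this]
  -- a rectangle at c + p which is not k covers c
  have back : ∀ j v, A.Cx j (c + A.p) → A.Rw j v → ¬ A.Rw k v → A.Cx j c := by
    intro j v hj hv hn
    obtain ⟨δ, d0, d1, d2, d3⟩ := hj.off pc
    by_cases hdp : δ = A.p
    · exfalso
      apply hn
      subst hdp
      have e : c + (A.p : ℤ) - (A.U j + A.p) = c - A.U j := by ring
      rw [e] at d3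
      have h1 : A.NN ∣ A.U j - A.U k := by
        have := dvd_sub kU d3
        have e2 : c - A.U k - (c - A.U j) = A.U j - A.U k := by ring
        rwa [e2] at this
      exact Rw_congr (UU h1) (by simp) hv
    · have hp2 : (A.p : ℤ) ≤ δ := Int.le_of_dvd d0 d2
      refine Cx_of hc (δ := δ - A.p) ?_ (by omega) (by omega)
      have e : c - (A.U j + (δ - (A.p : ℤ))) = c + A.p - (A.U j + δ) := by ring
      rwa [e]
  -- step A
  have stepA : ∀ v, 0 ≤ v → v < A.D → ¬ A.Rw k v →
      A.Rv c v = A.Rv (c + A.p) v ∧ A.fv A.y0 v + A.Rv (c + A.p) v = A.gv A.y0 c + 1 := by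
    intro v v0 v1 hn
    have hb := h.beta (y := A.y0) (x := c + A.p) (v := v) (by unfold y0; omega)
      (by unfold y0; omega) pc (by omega) (by omega) v0 v1 (Or.inl (by omega))
    have hF := (h.Fb hc A.y0 v).2
    have r1 : A.Rv c v = A.Rv (c + A.p) v := by
      rcases h.Rv01 hc v with a | a <;> rcases h.Rv01 pc v with b | b
      · omega
      · exfalso
        obtain ⟨j, j1, j2⟩ := Rv_ex (A := A) (x := c + A.p) (v := v) (by omega)
        have := Rv_of (back j v j1 j2 hn) j2
        omega
      · exfalso; omega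
      · omega
    exact ⟨r1, by omega⟩
  by_cases hall : ∀ v, 0 ≤ v → v < A.D → ¬ A.Rw k v → A.Rv (c + A.p) v = 0
  · left
    intro v v0 v1
    by_cases hn : A.Rw k v
    · exact Or.inl hn
    · right
      have := (stepA v v0 v1 hn).2
      have := hall v v0 v1 hn
      omega
  · right
    push Not at hall
    obtain ⟨v', v0, v1, hn, hr⟩ := hall
    have hr1 : A.Rv (c + A.p) v' = 1 := by
      rcases h.Rv01 pc v' with a | a
      · exact absurd a hr
      · exact a
    obtain ⟨E, E1, E2⟩ := Rv_ex (A := A) (x := c + A.p) (v := v') (by omega)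
    have E3 : A.Cx E c := back E v' E1 E2 hn
    obtain ⟨δ, d0, d1, d2⟩ := E2.off
    have hEk : ¬ (A.p : ℤ) ∣ E - k := fun hd => hn (Rw_congr hd (by simp) E2)
    have hkE : ¬ (A.p : ℤ) ∣ k - E := fun hd => hEk (by
      have := (dvd_neg).2 hd
      rwa [neg_sub] at this)
    -- the top
    obtain ⟨t, ht⟩ : ∃ t, t = v' + δ := ⟨_, rfl⟩
    have htV : A.NN ∣ t - A.V E := by
      have e : t - A.V E = v' - (A.V E - δ) := by rw [ht]; ring
      rwa [e]
    have rows : ∀ v, t - A.q * A.h ≤ v → v < t → A.Rw E v := by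
      intro v a b
      refine Rw_of (δ := t - v) ?_ (by omega) (by omega)
      have e : v - (A.V E - (t - v)) = t - A.V E := by ring
      rwa [e]
    have nrow : ∀ v, t - A.q * A.h ≤ v → v < t → ¬ A.Rw k v := by
      intro v a b hc2
      exact hEk (h.uniq pc E1 (rows v a b) hkC hc2)
    have hb0 : t - A.q * A.h ≤ 0 := by
      by_contra hcon
      obtain ⟨b, hb⟩ : ∃ b, b = t - A.q * A.h := ⟨_, rfl⟩
      have rb : A.Rw E b := rows b (by omega) (by omega)
      have nb : ¬ A.Rw k b := nrow b (by omega) (by omega)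
      have nb1 : ¬ A.Rw k (b - 1) := fun hc2 => hkE (h.abut pc hkC hc2 E1 rb)
      have s1 := (stepA b (by omega) (by omega) nb).2
      have s2 := (stepA (b - 1) (by omega) (by omega) nb1).2
      have r1 := Rv_of E1 rb
      have r1' : A.Rv (c + A.p) b = 1 := by rcases h.Rv01 pc b with a | a <;> omega
      have r2 : A.Rv (c + A.p) (b - 1) = 0 := by
        rcases h.Rv01 pc (b - 1) with a | a
        · exact a
        · exfalso
          obtain ⟨j, j1, j2⟩ := Rv_ex (A := A) (x := c + A.p) (v := b - 1) (by omega)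
          have hjE := h.abut pc j1 j2 E1 rb
          have hEb : A.Rw E (b - 1) := Rw_congr hjE (by simp) j2
          refine not_Rw (A := A) (k := E) (v := b - 1) (δ := A.q * A.h + 1) ?_ (by omega)
            (by omega) hEb
          have e : b - 1 - (A.V E - (A.q * A.h + 1)) = t - A.V E := by rw [hb]; ring
          rwa [e]
      rcases A.f_cases A.y0 b with ⟨hf, _⟩ | ⟨hf, _⟩ | ⟨hf, j, j0, j1, j2⟩
      · omega
      · omega
      · have hjE : (A.p : ℤ) ∣ E - j := by
          apply VV
          have := dvd_sub j2 htV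
          have e : b - (A.V j - A.q * A.h) - (t - A.V E) = A.V E - A.V j := by rw [hb]; ring
          rwa [e] at this
        exact h.evt_in hD hc c0 c1 (by omega) (b := b) (by omega) (by omega)
          (Or.inr ⟨j0, j1, j2⟩) (Cx_congr hjE (by simp) E3) (Cx_congr hjE (by simp) E1)
    have ht0 : A.D ≤ t := by
      by_contra hcon
      have rb : A.Rw E (t - 1) := rows (t - 1) (by omega) (by omega)
      have nb : ¬ A.Rw k (t - 1) := nrow (t - 1) (by omega) (by omega)
      have nb1 : ¬ A.Rw k t := fun hc2 => hEk (h.abut pc E1 rb hkC hc2)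
      have s1 := (stepA (t - 1) (by omega) (by omega) nb).2
      have s2 := (stepA t (by omega) (by omega) nb1).2
      have r1 := Rv_of E1 rb
      have r1' : A.Rv (c + A.p) (t - 1) = 1 := by
        rcases h.Rv01 pc (t - 1) with a | a <;> omega
      have r2 : A.Rv (c + A.p) t = 0 := by
        rcases h.Rv01 pc t with a | a
        · exact a
        · exfalso
          obtain ⟨j, j1, j2⟩ := Rv_ex (A := A) (x := c + A.p) (v := t) (by omega)
          have hjE := h.abut pc E1 rb j1 j2
          have hjE' : (A.p : ℤ) ∣ j - E := by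
            have := (dvd_neg).2 hjE
            rwa [neg_sub] at this
          have hEb : A.Rw E t := Rw_congr hjE' (by simp) j2
          refine not_Rw (A := A) (k := E) (v := t) (δ := A.NN) ?_ (by omega) le_rfl hEb
          have e : t - (A.V E - A.NN) = (t - A.V E) + A.NN := by ring
          rw [e]
          exact dvd_add htV (dvd_refl _)
      rcases A.f_cases A.y0 t with ⟨hf, _⟩ | ⟨hf, j, j0, j1, j2⟩ | ⟨hf, _⟩
      · omega
      · have hjE : (A.p : ℤ) ∣ E - j := by
          apply VV
          have := dvd_sub j2 htV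
          have e : t - A.V j - (t - A.V E) = A.V E - A.V j := by ring
          rwa [e] at this
        exact h.evt_in hD hc c0 c1 (by omega) (b := t) (by omega) (by omega)
          (Or.inl ⟨j0, j1, j2⟩) (Cx_congr hjE (by simp) E3) (Cx_congr hjE (by simp) E1)
      · omega
    refine ⟨by omega, ?_⟩
    intro v a b
    have rv : A.Rw E v := rows v (by omega) (by omega)
    have nv : ¬ A.Rw k v := nrow v (by omega) (by omega)
    have s1 := (stepA v a b nv).2
    have r1 := Rv_of E1 rv
    have r1' : A.Rv (c + A.p) v = 1 := by rcases h.Rv01 pc v with x | x <;> omega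
    omega

end NPH

end TAp

end Pool.Agent.H78.Tie
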