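import Pool.Agent.H67.NP.DownL
import Pool.Agent.H67.NP.LineO
import Pool.Agent.H67.NP.Count

/-! # NoPass : CaseIIb

D > q h, k with top Vk in (q(w+1), qh), f = kp+1 on [D,N) off rows(k) = [Vk - qh, Vk).  a := Vk - q h < 0.
j0 := h - w: LA at c' := U j0 lifted into [0,N): label h - 1. No RA at c': by LR it would be row j0 + sig = h - w + sig > h = max RA row. So g_cases: up line
 g(c'+p) = g(c') + 1.  rows(j0) = [c'-qw, c'-qw+qh) (V j0 = c' + q(h-w)).
 c' = 0: U j0 = 0 = U 0: UU, 0 < j0 < p no. 0 < c' < D: c' > W1 (act_in); inU at v = N-1: f = kp (f_in0), and g(c') >= kp+1 (rII): so Rw j0 (-1):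
 but 0 < c' - qw + .. and c'-qw+qh < N: no.  c' in [D, D+W1]: act_D contradiction.  So D + W1 < c' < N.
outU: second alternative: D <= qh no. So (*) for v in [0,D): Rw j0 v or f v = g(c'+p).  Rw j0 v with v in [0,D): v < c' - N + q(h-w) <= q(h-w) - p.
 v = D - 1 >= q(h-w): f = kp+1 (f_inD) so g(c'+p) = kp+1, g(c') = kp.  So f = kp+1 on [q(h-w), D).
 f <= kp+1 on [0,D): if Rw j0 v: Fb at x = c'+p (R = 1): 1 - (kp+1) + f <= 1.
 v' := vx (c'+p): Rw j0 v' (label h-1 >= 1: V j0 - v' = q(h-1) - p + k0), gid' th=0 (R=1): f v' = kp; v' in (D,N) so Rw k v' : v' - N >= a, i.e.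
 a <= v' - N <= -k0 - q(w-1).
Out: x in (D + W1, N]: g x <= kp+1: otherwise (g >= kp+2) beta: R >= 1 for all v in [0,D): single: D <= q h: no.  x in (D,D+W1]: g = kp+1 (g_inD).
In: x in (0,D], Rv x (vx x) = 1 => vx x < q h: otherwise vx x in [qh, D): f = kp+1, gid': g x = kp+2 > g D = kp+1: first_drop from x to D: c'' in [x,D), RA k'':
 downL: V'' := c''-W1+q k'' < q h; but k'' covers (c'', vx c'') (label >= w): vx c'' in [V''-qh, V'') (integers: vx c'' = c'' - k0 + q y0 = V'' - (q l - W1 + k0) < V'' < qh)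
 and vx c'' >= vx x >= qh: contradiction.
cross_count with z0 = a, L = 2 q h - Vk (<= 2qh - q(w+1) <= 2qh - W1): x in (0,D]: a <= -k0 - q(w-1) < vx x < qh. x in (D,N], vx x < D: R_D. vx x >= D: f(vx x) = g x - 1 <= kp:
 Rw k (vx x): vx x - N in [a, 0) (Vk < qh < D).
-/

namespace Pool.Agent.H78.Tie

open Finset
open Pool.Agent.H98.Flat
open Pool.Agent.H67.Flat

set_option linter.dupNamespace false
set_option linter.unusedVariables false

namespace TAp

variable {A : TAp}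

namespace NPH

variable {T : A.Tie}

theorem caseIIb (h : NPH A T) (hD : A.W1 < A.D) (hp : A.ph' = A.kp + 1) (hq : A.q * A.h < A.D)
    {k Vk : ℤ} (V0 : A.q * (A.w + 1) < Vk) (V1 : Vk < A.q * A.h) (hV : A.NN ∣ Vk - A.V k)
    (hf : ∀ v, A.D ≤ v → v < A.NN → A.Rw k v ∨ A.fv A.y0 v = A.kp + 1) : False := by
  obtain ⟨z1, z2, z3, z4, z5, z6, z7, z8, z9⟩ := h.sz
  have hq0 : (0 : ℤ) < A.q := by omega
  have hDH := A.D_H'
  have hDW := A.D_W'
  have hD0 := A.D_pos
  have hqwh : (A.q : ℤ) * A.w ≤ A.q * A.h := mul_le_mul_of_nonneg_left (by omega) hq0.le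
  have hqw0 : (A.q : ℤ) * 2 ≤ A.q * A.w := mul_le_mul_of_nonneg_left (by omega) hq0.le
  have hsmall : ∀ z : ℤ, z ≠ 0 → -(A.p : ℤ) < z → z < A.p → ¬ (A.p : ℤ) ∣ z := by
    intro z hz hz1 hz2 hd
    exact hz (Int.eq_zero_of_abs_lt_dvd hd (by rw [abs_lt]; constructor <;> omega))
  have hW6 : (A.sg = 1 ∧ A.k0 = 2 ∧ A.W1 = A.q * A.w + 1) ∨
      (A.sg = -1 ∧ A.k0 = 1 ∧ A.W1 = A.q * A.w - 1) := by
    unfold W1
    rcases A.k0_cases with ⟨a, b⟩ | ⟨a, b⟩
    · left; exact ⟨a, b, by rw [a]⟩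
    · right; exact ⟨a, b, by rw [a]; ring⟩
  have hW7 := A.W1_bd
  have eV0 : (A.q : ℤ) * (A.w + 1) = A.q * A.w + A.q := by ring
  have ey : (A.q : ℤ) * A.y0 = A.q - A.q * A.w := by unfold y0; ring
  have hqh3 : (A.q : ℤ) * 3 ≤ A.q * A.h := mul_le_mul_of_nonneg_left (by omega) hq0.le
  have hNN := A.NN_pos
  -- the row j0
  obtain ⟨j0, hj0⟩ : ∃ j0 : ℤ, j0 = A.h - A.w := ⟨_, rfl⟩
  have ej : (A.q : ℤ) * j0 = A.q * A.h - A.q * A.w := by rw [hj0]; ring
  obtain ⟨c, hcdef⟩ : ∃ c : ℤ, c = A.U j0 % A.NN := ⟨_, rfl⟩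
  have hc0 : 0 ≤ c := by rw [hcdef]; exact Int.emod_nonneg _ hNN.ne'
  have hc1 : c < A.NN := by rw [hcdef]; exact Int.emod_lt_of_pos _ hNN
  have hcU : A.NN ∣ c - A.U j0 := by
    have := Int.emod_add_mul_ediv (A.U j0) A.NN
    exact ⟨-(A.U j0 / A.NN), by rw [hcdef]; linear_combination this⟩
  have hcp : (A.p : ℤ) ∣ c := by
    have := dvd_add (A.p_NN.trans hcU) (pU A j0)
    rwa [sub_add_cancel] at this
  have hLA : A.LA A.y0 c j0 := ⟨by unfold y0; omega, by unfold y0; omega, hcU⟩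
  have hRA : ∀ j, ¬ A.RA A.y0 c j := by
    intro j hj
    have := h.LR hLA hj
    obtain ⟨a1, a2, a3⟩ := hj
    unfold y0 at a2
    omega
  have hg : A.gv A.y0 (c + A.p) = A.gv A.y0 c + 1 := by
    rcases A.g_cases A.y0 hcp with h1 | h1 | h1
    · obtain ⟨j, hj⟩ := h1.2.1 ⟨j0, hLA⟩
      exact absurd hj (hRA j)
    · exact h1.1
    · exact absurd hLA (h1.2.2 j0)
  -- c is outside
  have hcne : c ≠ 0 := by
    rintro rfl
    have h1 : A.NN ∣ A.U j0 - A.U 0 := by
      rw [A.U_zero', sub_zero]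
      rw [zero_sub, dvd_neg] at hcU
      exact hcU
    have h2 := UU h1
    rw [sub_zero] at h2
    exact hsmall j0 (by omega) (by omega) (by omega) h2
  have hcW : A.W1 < c := by
    by_contra hcon
    have := h.act_in hD hcp hc0 (not_lt.1 hcon)
    omega
  have hcD : A.D ≤ c := by
    by_contra hcon
    have hcon' : c < A.D := not_le.1 hcon
    have hrII := h.rII hD hp hcp (by omega) hcon'.le
    rcases h.inU hD hcp (by omega) hcon' hg hLA (v := A.NN - 1) (by omega) (by omega) with h1 | h1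
    · obtain ⟨δ, d0, d1, d2⟩ := h1.off
      rw [V_eq] at d2
      have h3 : A.NN ∣ δ - 1 - c - A.q * j0 := by
        have := dvd_sub (dvd_sub d2 hcU) (dvd_refl A.NN)
        rwa [show A.NN - 1 - (A.U j0 + A.q * j0 - δ) - (c - A.U j0) - A.NN
          = δ - 1 - c - A.q * j0 by ring] at this
      have h4 := Int.eq_zero_of_abs_lt_dvd h3 (by rw [abs_lt]; constructor <;> omega)
      omega
    · have h2 : A.fv A.y0 (A.NN - 1) = A.kp := fv_cong (by
        rw [show A.NN - 1 - -1 = A.NN by ring])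
      omega
  have hcDW : A.D + A.W1 < c := by
    by_contra hcon
    have := h.act_D hD hcp hcD (not_lt.1 hcon)
    omega
  have hcNN : c + A.p ≤ A.NN := by
    have h1 := dvd_sub A.p_NN hcp
    have := Int.le_of_dvd (by omega) h1
    omega
  have hcxp : (A.p : ℤ) ∣ c + A.p := dvd_add hcp (dvd_refl _)
  -- (*)
  have hst : ∀ v, 0 ≤ v → v < A.D → A.Rw j0 v ∨ A.fv A.y0 v = A.gv A.y0 (c + A.p) := by
    rcases h.outU hD hcp (by omega) hc1 hg hLA with h1 | h1
    · exact h1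
    · omega
  have hrw : ∀ v, 0 ≤ v → v < A.D → A.Rw j0 v → v < A.q * j0 := by
    intro v v0 v1 h1
    obtain ⟨δ, d0, d1, d2⟩ := h1.off
    rw [V_eq] at d2
    have h3 : A.NN ∣ (v + δ - c - A.q * j0) - (-A.NN) := by
      have := dvd_add (dvd_sub d2 hcU) (dvd_refl A.NN)
      rwa [show v - (A.U j0 + A.q * j0 - δ) - (c - A.U j0) + A.NN
        = (v + δ - c - A.q * j0) - (-A.NN) by ring] at this
    have h4 := eq_of_dvd h3 (by omega) (by omega)
    omega
  have hgc : A.gv A.y0 (c + A.p) = A.kp + 1 := by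
    rcases hst (A.D - 1) (by omega) (by omega) with h1 | h1
    · have := hrw _ (by omega) (by omega) h1
      omega
    · rw [← h1, h.f_inD hD (by omega) (by omega), hp]
  have hf1 : ∀ v, A.q * j0 ≤ v → v < A.D → A.fv A.y0 v = A.kp + 1 := by
    intro v v0 v1
    rcases hst v (by omega) v1 with h1 | h1
    · have := hrw v (by omega) v1 h1
      omega
    · rw [h1, hgc]
  have hCx : A.Cx j0 (c + A.p) := Cx_of (δ := A.p) hcxp (by
    rw [show c + (A.p : ℤ) - (A.U j0 + A.p) = c - A.U j0 by ring]; exact hcU) (by omega) (by omega)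
  have hf2 : ∀ v, 0 ≤ v → v < A.D → A.fv A.y0 v ≤ A.kp + 1 := by
    intro v v0 v1
    rcases hst v v0 v1 with h1 | h1
    · have h2 := Rv_of hCx h1
      have h3 := (h.Fb hcxp A.y0 v).2
      omega
    · omega
  -- the point v'
  have hgid : ∀ x : ℤ, A.gv A.y0 x = A.Rv x (x - A.k0 + A.q * A.y0) +
      A.fv A.y0 (x - A.k0 + A.q * A.y0) := by
    intro x
    have := A.gid' (y := A.y0) (x := x) (θ := 0) le_rfl hq0.le
    rwa [sub_zero] at this
  have hkey : ∀ v, A.D ≤ v → v < A.NN → A.fv A.y0 v ≤ A.kp →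
      ∃ δ, 0 < δ ∧ δ ≤ A.q * A.h ∧ v = A.NN + Vk - δ := by
    intro v v0 v1 h0
    rcases hf v v0 v1 with h1 | h1
    · obtain ⟨δ, d0, d1, d2⟩ := h1.off
      refine ⟨δ, d0, d1, ?_⟩
      have h3 : A.NN ∣ v - (A.NN + Vk - δ) := by
        have := dvd_sub (dvd_sub d2 hV) (dvd_refl A.NN)
        rwa [show v - (A.V k - δ) - (Vk - A.V k) - A.NN = v - (A.NN + Vk - δ) by ring] at this
      exact eq_of_dvd h3 (by omega) (by omega)
    · omega
  have ha : Vk - A.q * A.h ≤ -A.k0 + A.q * A.y0 := by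
    have hrwv : A.Rw j0 (c + A.p - A.k0 + A.q * A.y0) :=
      Rw_of (δ := A.q * j0 - A.q * A.y0 - A.p + A.k0) (by
        rw [V_eq, show c + (A.p : ℤ) - A.k0 + A.q * A.y0 - (A.U j0 + A.q * j0 -
          (A.q * j0 - A.q * A.y0 - A.p + A.k0)) = c - A.U j0 by ring]
        exact hcU) (by omega) (by omega)
    have h1 := Rv_of hCx hrwv
    have h2 := hgid (c + A.p)
    have h3 : A.fv A.y0 (c + A.p - A.k0 + A.q * A.y0) ≤ A.kp := by omega
    obtain ⟨δ, d0, d1, d2⟩ := hkey _ (by omega) (by omega) h3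
    omega
  -- outside columns
  have hout : ∀ x, (A.p : ℤ) ∣ x → A.D < x → x ≤ A.NN → A.gv A.y0 x ≤ A.kp + 1 := by
    intro x hx x0 x1
    rcases le_or_gt x (A.D + A.W1) with h1 | h1
    · rw [h.g_inD hD hx x0.le h1, hp]
    · by_contra hcon
      have h2 : ∀ v, 0 ≤ v → v < A.D → 1 ≤ A.Rv x v := by
        intro v v0 v1
        have h3 := h.beta (y := A.y0) (x := x) (v := v) (by unfold y0; omega)
          (by unfold y0; omega) hx x0 x1 v0 v1 (Or.inl h1)
        have h4 := hf2 v v0 v1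
        omega
      obtain ⟨m, m1, m2, m3⟩ := h.single hx hD0 h2
      omega
  -- inside columns
  have hin : ∀ x, (A.p : ℤ) ∣ x → 0 < x → x ≤ A.D → 1 ≤ A.Rv x (x - A.k0 + A.q * A.y0) →
      x - A.k0 + A.q * A.y0 < A.q * A.h := by
    intro x hx x0 x1 h1
    by_contra hcon
    have h2 := hf1 (x - A.k0 + A.q * A.y0) (by omega) (by omega)
    have h3 := hgid x
    have h4 := h.g_inD hD A.p_D le_rfl (by omega)
    obtain ⟨c2, e1, e2, e3, e4, e5, ⟨k2, e6⟩, e7⟩ := first_drop (y := A.y0) hx A.p_D x1 (by omega)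
    obtain ⟨g1, g2, g3, g4, g5⟩ := h.downL hD hp e1 (by omega) e3 e5 e6
    obtain ⟨a1, a2, a3⟩ := e6
    unfold y0 at a1
    have h5 : (A.q : ℤ) * 1 ≤ A.q * k2 := mul_le_mul_of_nonneg_left (by omega) hq0.le
    omega
  -- count
  refine cross_count A A.y0 (Vk - A.q * A.h) (2 * (A.q * A.h) - Vk) (by omega) (by omega)
    ?_ ?_
  · intro x v hx
    rcases h.Rv01 hx v with h1 | h1 <;> omega
  · intro x hx x0 x1 h1
    rcases le_or_gt x A.D with h2 | h2
    · have h3 := hin x hx x0 h2 h1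
      refine ⟨x - A.k0 + A.q * A.y0 - (Vk - A.q * A.h), by omega, by omega, ?_⟩
      rw [show x - A.k0 + A.q * A.y0 - (Vk - A.q * A.h + (x - A.k0 + A.q * A.y0 -
        (Vk - A.q * A.h))) = 0 by ring]
      exact dvd_zero _
    · have h3 := hout x hx h2 x1
      rcases lt_or_ge (x - A.k0 + A.q * A.y0) A.D with h4 | h4
      · exfalso
        have := h.R_D hD (x := x) (v := x - A.k0 + A.q * A.y0) hx h2 (by omega) (by omega) h4
        omega
      · have h5 := hgid x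
        obtain ⟨δ, d0, d1, d2⟩ := hkey _ h4 (by omega) (by omega)
        refine ⟨A.q * A.h - δ, by omega, by omega, ?_⟩
        rw [d2, show A.NN + Vk - δ - (Vk - A.q * A.h + (A.q * A.h - δ)) = A.NN by ring]

end NPH

end TAp

end Pool.Agent.H78.Tie
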