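import Pool.Agent.H67.NP.CaseIIa
import Pool.Agent.H67.NP.CaseIIb

/-! # NoPass : CaseII

Given an active line c inside, ph' = kp+1.  If it is a down line take it (RA k from g_cases).  If it is an up line: g(c+p) = g(c)+1 >= kp+2 (rII), c + p <= D,
g(D) = kp+1 (g_inD): first_drop from c + p to D gives a down line c2 with RA k.  downL; D <> q h (p | D, p does not divide q h: p | q h would give
p | h (IsCoprime from A.hqe..., or: D = q h and U/V genericity: use A.hfd: D = q md + fd with 0 < fd < q so q does not divide D).  caseIIa / caseIIb.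
-/

namespace Pool.Agent.H78.Tie

open Finset
open Pool.Agent.H98.Flat
open Pool.Agent.H67.Flat

set_option linter.dupNamespace false
set_option linter.unusedVariables false

namespace TAp

variable {A : TAp}

namespace NPH

variable {T : A.Tie}

/-- **Case II** -/
theorem caseII (h : NPH A T) (hD : A.W1 < A.D) (hp : A.ph' = A.kp + 1) {c : ℤ}
    (hc : (A.p : ℤ) ∣ c) (c0 : 0 < c) (c1 : c < A.D)
    (hg : A.gv A.y0 (c + A.p) ≠ A.gv A.y0 c) : False := by
  have hpp := A.p_pos'
  have hq := A.q_pos'
  -- a down line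
  have main : ∀ c k, (A.p : ℤ) ∣ c → 0 < c → c < A.D →
      A.gv A.y0 (c + A.p) = A.gv A.y0 c - 1 → A.RA A.y0 c k → False := by
    intro c k hc c0 c1 hg hk
    obtain ⟨d1, d2, d3, d4, d5⟩ := h.downL hD hp hc c0 c1 hg hk
    have hw : (0 : ℤ) ≤ A.q * (A.w + 1) := by positivity
    rcases lt_trichotomy A.D (A.q * A.h) with hlt | heq | hgt
    · exact h.caseIIa hD hp hlt (by omega) d4 d2 d5
    · -- `q ∤ D`
      have e : A.D = A.q * A.md + A.fd := rfl
      have f0 := A.hfd
      have f1 := A.hfd2
      have h1 : (A.q : ℤ) ∣ A.fd := by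
        rw [e] at heq
        exact ⟨A.h - A.md, by linear_combination heq⟩
      have := Int.le_of_dvd f0 h1
      omega
    · exact h.caseIIb hD hp hgt d3 d4 d2 d5
  rcases A.g_cases A.y0 hc with ⟨e, _⟩ | ⟨e, _, _⟩ | ⟨e, ⟨k, hk⟩, _⟩
  · exact hg e
  · have r1 := h.rII hD hp hc c0 (by omega)
    have hcD : c + A.p ≤ A.D := by
      have := dvd_gap hc A.p_D (by omega)
      by_contra hcc
      have h2 := dvd_gap A.p_D hc (by omega)
      omega
    have gD := h.g_inD hD (x := A.D) A.p_D le_rfl (by have := A.W1_bd; have := A.q6; omega)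
    obtain ⟨c', h1, h2, h3, h4, h5, ⟨k, hk⟩, h6⟩ := first_drop (A := A) (y := A.y0)
      (x0 := c + A.p) (x1 := A.D) (dvd_add hc (dvd_refl _)) A.p_D hcD (by rw [gD, hp]; omega)
    exact main c' k h1 (by omega) h3 h5 hk
  · exact main c k hc c0 c1 e hk

end NPH

end TAp

end Pool.Agent.H78.Tie
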