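import Pool.Agent.H67.NP.DownL

/-! # NoPass : CaseIIa

D < q h.  Vk := V' in (0, q h) the top of the down line rectangle k, Vk = V k mod N.
For x in (0,W1], v in [D,N), v < N - qh, v >= Vk: not Rw k v (rows of k are [Vk-qh,Vk), Vk - qh > -qh), so f v = kp+1, g x = kp+1 (g_in0), alpha: R <= 0.
Claim: no row j, not p | j, covers a column x in (0,W1]: its rows avoid [max(D,Vk), N-qh) and avoid [N-qh,N) (there row 0 covers (x,v): uniq), so they
lie in [0, max(D,Vk)), length < q h; but it has q h rows: take t := V j lifted into (0, N]: rows t-1 and t-qh.. : t - 1 must be in [0,max(D,Vk)) so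
t <= max(D,Vk) < qh, then the row t - q h < 0 is in [N-qh, N) (or t - qh mod N): contradiction.
Then A.pig with M = p - 1 (H98.Tie.StatWAp: needs p <= 2M, M <= p): for 0 < d <= M: if (a d - k0) % N < q w then column ... : the class d (row e d)
covers... precisely (a d - k0) mod N < qw means that class 0 shifted: U_j = a d in (0, W1] so column x := U_j + p.. or use hor directly:
hor (row e*d) covers ... choose: U_j = r + k0 with 0 <= r < qw, i.e. 0 < U_j <= W1 mod N: if U_j < W1 then the column x = U_j + p <= W1 is covered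
by j: contradiction; if U_j = W1 mod N: then ... (the column x = W1 is covered by class? no: use LR-type argument or choose the other pigeonhole:
simplest: prove directly by pigeonhole that some 0 < d < p has a d mod N in (-q, q) [p points on a circle of length p q], p | a d; then |U| <= q < W1 - p.
If U in (0,q): column U + p <= W1; if U in (-q,0): column p (or U + W1) in (0,W1] is covered: contradiction).
-/

namespace Pool.Agent.H78.Tie

open Finset
open Pool.Agent.H98.Flat
open Pool.Agent.H67.Flat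

set_option linter.dupNamespace false
set_option linter.unusedVariables false

namespace TAp

variable {A : TAp}

namespace NPH

variable {T : A.Tie}

theorem caseIIa_claim (h : NPH A T) (hD : A.W1 < A.D) (hp : A.ph' = A.kp + 1)
    (hq : A.D < A.q * A.h) {k Vk : ℤ} (V0 : 0 < Vk) (V1 : Vk < A.q * A.h)
    (hV : A.NN ∣ Vk - A.V k)
    (hf : ∀ v, A.D ≤ v → v < A.NN → A.Rw k v ∨ A.fv A.y0 v = A.kp + 1)
    {j x : ℤ} (hj : ¬ (A.p : ℤ) ∣ j) (hx : (A.p : ℤ) ∣ x) (x0 : 0 < x) (x1 : x ≤ A.W1) :
    ¬ A.Cx j x := by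
  intro hc
  obtain ⟨s1, s2, s3, s4, s5, s6, s7, s8, s9⟩ := h.sz
  obtain ⟨q1, q2, q3, q4⟩ := h.prods
  have hq0 := A.q_pos'
  have hN := A.NN_pos
  have hDp := A.D_pos
  have hy : A.y0 = 1 - A.w := rfl
  -- the columns under row 0
  have free : ∀ v, A.D ≤ v → Vk ≤ v → v < A.NN - A.q * A.h → A.Rv x v = 0 := by
    intro v v0 v1 v2
    have nr : ¬ A.Rw k v := by
      intro hr
      obtain ⟨ε, e0, e1, e2⟩ := hr.off
      have h1 := dvd_sub e2 hV
      have h2 : A.NN ∣ v + ε - Vk := by
        have := dvd_sub e2 hV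
        rwa [show v - (A.V k - ε) - (Vk - A.V k) = v + ε - Vk by ring] at this
      have := Int.le_of_dvd (by omega) h2
      omega
    have fv := (hf v v0 (by omega)).resolve_left nr
    have g0 := h.g_in0 hx x0.le x1
    have al := h.alpha (y := A.y0) (x := x) (v := v) (by omega) (by omega) hx x0 (by omega) v0
      (by omega) (Or.inr v2)
    have := A.Rv_nonneg x v
    omega
  have cx0 : A.Cx 0 x := Cx_of hx (by rw [U_zero']; simp) x0 x1
  have under : ∀ v, A.NN - A.q * A.h ≤ v → v < A.NN → ¬ A.Rw j v := by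
    intro v v0 v1 hr
    have r0 : A.Rw 0 v := Rw_of (δ := A.NN - v) (by
      rw [V_eq, U_zero', mul_zero, zero_add,
        show v - (0 - (A.NN - v)) = A.NN by ring]) (by omega) (by omega)
    have := h.uniq hx hc hr cx0 r0
    rw [sub_zero] at this
    exact hj this
  -- the lift of the top
  set t := A.V j % A.NN with ht
  have t0 := Int.emod_nonneg (A.V j) hN.ne'
  have t1 := Int.emod_lt_of_pos (A.V j) hN
  have te : A.NN ∣ t - A.V j := by
    have := Int.emod_add_mul_ediv (A.V j) A.NN
    exact ⟨-(A.V j / A.NN), by rw [ht]; linear_combination this⟩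
  have tn : t ≠ 0 := by
    intro h0
    rw [h0] at te
    have h1 : A.NN ∣ A.V j - A.V 0 := by
      have e0 : A.V 0 = 0 := by rw [V_eq, U_zero', mul_zero, zero_add]
      rw [e0, sub_zero]
      have := (dvd_neg).2 te
      rwa [zero_sub, neg_neg] at this
    have := VV h1
    rw [sub_zero] at this
    exact hj this
  have r1 : A.Rw j (t - 1) := Rw_of (δ := 1) (by
    rwa [show t - 1 - (A.V j - 1) = t - A.V j by ring]) (by omega) (by omega)
  have t2 : t - 1 < A.NN - A.q * A.h := by
    by_contra hcc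
    exact under (t - 1) (by omega) (by omega) r1
  have t3 : t < A.q * A.h := by
    by_contra hcc
    have h1 := free (t - 1) (by omega) (by omega) t2
    have h2 := Rv_of hc r1
    omega
  have r2 : A.Rw j (t - A.q * A.h + A.NN) := Rw_of (δ := A.q * A.h) (by
    have := dvd_add te (dvd_refl A.NN)
    rwa [show t - A.V j + A.NN = t - A.q * A.h + A.NN - (A.V j - A.q * A.h) by ring] at this)
    (by omega) le_rfl
  exact under _ (by omega) (by omega) r2

theorem caseIIa (h : NPH A T) (hD : A.W1 < A.D) (hp : A.ph' = A.kp + 1) (hq : A.D < A.q * A.h)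
    {k Vk : ℤ} (V0 : 0 < Vk) (V1 : Vk < A.q * A.h) (hV : A.NN ∣ Vk - A.V k)
    (hf : ∀ v, A.D ≤ v → v < A.NN → A.Rw k v ∨ A.fv A.y0 v = A.kp + 1) : False := by
  obtain ⟨s1, s2, s3, s4, s5, s6, s7, s8, s9⟩ := h.sz
  have hq0 := A.q_pos'
  have hN := A.NN_pos
  have hDp := A.D_pos
  have w1 := A.W1_bd
  have DW := A.D_W'
  have qw : (A.q : ℤ) * 2 ≤ A.q * A.w := mul_le_mul_of_nonneg_left s1 hq0.le
  -- pigeonhole
  have bin : ∀ z : ℤ, 0 ≤ (A.a * z % A.NN) / A.q ∧ (A.a * z % A.NN) / A.q < A.p := by
    intro z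
    have r0 := Int.emod_nonneg (A.a * z) hN.ne'
    have r1 := Int.emod_lt_of_pos (A.a * z) hN
    refine ⟨Int.ediv_nonneg r0 hq0.le, ?_⟩
    exact Int.ediv_lt_of_lt_mul hq0 r1
  obtain ⟨x, hx, y, hy, hxy, hff⟩ := Finset.exists_ne_map_eq_of_card_lt_of_maps_to
    (s := Finset.range (A.p + 1)) (t := Finset.range A.p)
    (f := fun i : ℕ => ((A.a * i % A.NN) / A.q).toNat)
    (by rw [Finset.card_range, Finset.card_range]; omega)
    (by
      intro i _
      have := bin i
      simp only [Finset.coe_range, Set.mem_Iio]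
      omega)
  have main : ∀ x y : ℕ, x < y → y < A.p + 1 → (A.a * x % A.NN) / A.q = (A.a * y % A.NN) / A.q →
      False := by
    intro x y hxy hy he
    have x0 := Int.emod_nonneg (A.a * x) hN.ne'
    have y0 := Int.emod_nonneg (A.a * y) hN.ne'
    have ex := Int.emod_add_mul_ediv (A.a * x) A.NN
    have ey := Int.emod_add_mul_ediv (A.a * y) A.NN
    have bx := Int.emod_add_mul_ediv (A.a * x % A.NN) A.q
    have by' := Int.emod_add_mul_ediv (A.a * y % A.NN) A.q
    have bx0 := Int.emod_nonneg (A.a * x % A.NN) hq0.ne'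
    have by0 := Int.emod_nonneg (A.a * y % A.NN) hq0.ne'
    have bx1 := Int.emod_lt_of_pos (A.a * x % A.NN) hq0
    have by1 := Int.emod_lt_of_pos (A.a * y % A.NN) hq0
    rw [he] at bx
    set rx := A.a * x % A.NN
    set ry := A.a * y % A.NN
    set d := ry - rx with hd
    have d1 : d < A.q := by omega
    have d2 : -(A.q : ℤ) < d := by omega
    have hdd : A.NN ∣ A.a * ((y : ℤ) - x) - d :=
      ⟨A.a * y / A.NN - A.a * x / A.NN, by rw [hd]; linear_combination ex - ey⟩
    have pd : (A.p : ℤ) ∣ d := by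
      have h1 := A.p_NN.trans hdd
      have h2 : (A.p : ℤ) ∣ A.a * ((y : ℤ) - x) := A.hpa.mul_right _
      have := dvd_sub h2 h1
      rwa [sub_sub_cancel] at this
    have dne : d ≠ 0 := by
      intro h0
      rw [h0, sub_zero] at hdd
      exact A.gen ((y : ℤ) - x) (by omega) (by rw [abs_le]; constructor <;> omega)
        (A.q_NN.trans hdd)
    have δp : (y : ℤ) - x < A.p := by
      by_contra hcc
      have e : (y : ℤ) - x = A.p := by omega
      rw [e] at hdd
      have h1 := dvd_sub hdd A.D_cong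
      rw [show A.a * A.p - d - (A.a * A.p - A.D) = A.D - d by ring] at h1
      have := Int.le_of_dvd (by omega) h1
      omega
    -- the row
    have hix : A.ix (A.e * ((y : ℤ) - x)) = (y : ℤ) - x :=
      ix_of (by omega) δp (by simp)
    have nj : ¬ (A.p : ℤ) ∣ A.e * ((y : ℤ) - x) := by
      intro hj
      obtain ⟨z, hz⟩ := hj
      have h1 : A.ix (A.e * ((y : ℤ) - x)) = 0 := by
        unfold ix
        rw [hz, show A.e' * (A.p * z) = A.p * (A.e' * z) by ring]
        exact Int.mul_emod_right _ _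
      omega
    have hU : A.NN ∣ A.U (A.e * ((y : ℤ) - x)) - d := by
      change A.NN ∣ (A.cfg 0).U (A.e * ((y : ℤ) - x)) - d
      rw [A.ix_U, hix]
      exact hdd
    have hU' : A.NN ∣ d - A.U (A.e * ((y : ℤ) - x)) := by
      rw [← dvd_neg, neg_sub]; exact hU
    rcases lt_or_gt_of_ne dne with h0 | h0
    · refine h.caseIIa_claim hD hp hq V0 V1 hV hf (x := A.p) nj (dvd_refl _) (by omega) (by omega)
        (Cx_of (δ := A.p - d) (dvd_refl _) ?_ (by omega) (by omega))
      rwa [show (A.p : ℤ) - (A.U (A.e * ((y : ℤ) - x)) + (A.p - d))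
        = d - A.U (A.e * ((y : ℤ) - x)) by ring]
    · refine h.caseIIa_claim hD hp hq V0 V1 hV hf (x := d + A.p) nj (dvd_add pd (dvd_refl _))
        (by omega) (by omega) (Cx_of (δ := A.p) (dvd_add pd (dvd_refl _)) ?_ (by omega) (by omega))
      rwa [show d + (A.p : ℤ) - (A.U (A.e * ((y : ℤ) - x)) + A.p)
        = d - A.U (A.e * ((y : ℤ) - x)) by ring]
  have b1 := bin x
  have b2 := bin y
  have hff' : ((A.a * x % A.NN) / A.q).toNat = ((A.a * y % A.NN) / A.q).toNat := hff
  have hx' := Finset.mem_range.1 hx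
  have hy' := Finset.mem_range.1 hy
  rcases lt_or_gt_of_ne hxy with h1 | h1
  · exact main x y h1 hy' (by omega)
  · exact main y x h1 hx' (by omega)

end NPH

end TAp

end Pool.Agent.H78.Tie
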