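import Pool.Agent.H67.NP.Nov

/-! # NoPass : `D + W1 < N` -/

namespace Pool.Agent.H78.Tie

open Finset
open Pool.Agent.H98.Flat
open Pool.Agent.H67.Flat

set_option linter.dupNamespace false
set_option linter.unusedVariables false

namespace TAp

variable {A : TAp}

namespace NPH

variable {T : A.Tie}

theorem DW1 (h : NPH A T) : A.D + A.W1 < A.NN := by
  obtain ⟨s1, s2, s3, s4, s5, s6, s7, s8, s9⟩ := h.sz
  have dw := A.D_W'
  have hW1 : A.W1 = A.q * A.w + A.sg := rfl
  have hsg := A.hsg
  have hU := h.U_nsig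
  by_contra hc
  have e : A.D + A.W1 = A.NN := by
    rcases hsg with h | h <;> rw [h] at hW1 <;> omega
  rw [e] at hU
  have h1 : A.NN ∣ A.U (-T.sig) - A.U 0 := by
    rw [A.U_zero', sub_zero]
    have := dvd_add hU (dvd_refl A.NN)
    rwa [sub_add_cancel] at this
  have h2 := UU h1
  rw [sub_zero, dvd_neg] at h2
  have := Int.le_of_dvd (by omega) h2
  omega

end NPH

end TAp

end Pool.Agent.H78.Tie
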