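import Pool.Agent.H67.NP.LineO
import Pool.Agent.H67.NP.DW

/-! # NoPass : CaseS

No active line inside, ph' = kp+1, f v <= kp for some v in [0,D).  f(D) = kp+1 > f(v): let b be an up jump in (v, D] (e.g. the last w with f(w) <= kp,
b = w+1): T event b = V tau mod N, tau in [1-w,0]; b in (0,D], b <= D - W1 by evD; tau <> 0 (V 0 = 0).  U tau = b - q tau = : c (integer), 0 < c <= D - W1 + q(w-1) < D, p | c.
LA y0 c tau (row in [1-w,-1], y0 <= tau < y0 + h).  Not active line: g_cases: RA x' at c, LR: x' = tau + sig.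
Y1 := tau + 1 in (-w, 0].  RA Y1 c x' (x' = tau + sig in [Y1+w, Y1+w+h) as w < sig <= h).  No LA at Y1: LA k has U k = c: UU k = tau mod p, k in [tau+1, tau+1+h): no.
 So g_cases at Y1: g(c+p) = g(c) - 1.  c > W1 (act_in for level y0? it is not active there! so use: c <= W1 impossible: if c < W1: nov0 with u = c, u + q tau = b in (-qh,qh)? b < c < W1 <= qh yes:
 tau = sig mod p no.  c = W1: LA y0 W1 tau and RA y0 W1 x' with U x' = 0: x' = 0 mod p, x' = tau + sig in (0,p) no.)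
 v1 := b - q h.  Rw tau v1 (delta = q h), not Rw x' v1: V x' = V tau + q xi - sg (x' = tau+sig, U x' = c - W1): v1 = V x' - (q h + q xi - sg), not_Rw.
 R(c+p, v1) = 1, R(c, v1) = 0: a rectangle E covering (c, v1): if it covers c+p then E = tau (uniq) but tau does not cover c; else U E + W1 = c, E = x': no.
 So F(c+p, v1) - F(c, v1) = 2 (level Y1): F(c+p,v1) = 1.  If b < q h: v1 + N in [D,N) (D_H'), alpha at level Y1, x = c+p: F <= 0: contradiction. So q h <= b.
j0 := h - w, c' := U j0 lifted into [0,N): up line (as in CaseIIb); not inside (no active lines), c' <> 0, not in [D,D+W1] (act_D). So D + W1 < c' < N.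
outU: second alternative: f constant on [0,D), but f(b) <> f(b-1), 0 <= b - 1: contradiction.  First: Rw j0 v with v in [0,D) forces v < q(h-w) - .. ; so
 f(b) = f(b-1) = g(c'+p) as b - 1 >= q h - 1 >= q(h-w): contradiction.
-/

namespace Pool.Agent.H78.Tie

open Finset
open Pool.Agent.H98.Flat
open Pool.Agent.H67.Flat

set_option linter.dupNamespace false
set_option linter.unusedVariables false

namespace TAp

variable {A : TAp}

namespace NPH

variable {T : A.Tie}

/-- **Case S** -/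
theorem caseS (h : NPH A T) (hD : A.W1 < A.D) (hp : A.ph' = A.kp + 1)
    (hg : ∀ c, (A.p : ℤ) ∣ c → 0 < c → c < A.D → A.gv A.y0 (c + A.p) = A.gv A.y0 c)
    {v : ℤ} (v0 : 0 ≤ v) (v1 : v < A.D) (hv : A.fv A.y0 v ≤ A.kp) : False := by
  obtain ⟨s1, s2, s3, s4, s5, s6, s7, s8, s9⟩ := h.sz
  have hW1 : A.W1 = A.q * A.w + A.sg := rfl
  have hsg := A.hsg
  have hq : (0 : ℤ) < A.q := by omega
  have hDN := h.DW1
  have hDH := A.D_H'
  have hWb := A.W1_bd
  have hD0 := A.D_pos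
  have hpW := A.p_W1
  have hpD := A.p_D
  have hpN := A.p_NN
  have hsig : T.sig = A.w - T.x := rfl
  have hx0 := h.x0
  have qw0 : (A.q : ℤ) * 2 ≤ A.q * A.w := mul_le_mul_of_nonneg_left s1 hq.le
  have qwh : (A.q : ℤ) * (A.w + 1) ≤ A.q * A.h := mul_le_mul_of_nonneg_left s2 hq.le
  rw [mul_add, mul_one] at qwh
  have hy0 : A.y0 = 1 - A.w := rfl
  have hNN : A.NN = A.q * A.p := by unfold NN; ring
  have q2h : (A.q : ℤ) * (2 * A.h + 1) ≤ A.NN := by
    rw [hNN]; exact mul_le_mul_of_nonneg_left (by omega) hq.le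
  have q2h' : (A.q : ℤ) * (2 * A.h + 1) = 2 * (A.q * A.h) + A.q := by ring
  have qp : (A.q : ℤ) * 5 ≤ A.NN := by
    rw [hNN]; exact mul_le_mul_of_nonneg_left (by omega) hq.le
  -- the up jump
  obtain ⟨m, ⟨m0, m1, m2⟩, mx⟩ := Int.exists_greatest_of_bdd
    (P := fun z => v ≤ z ∧ z ≤ A.D ∧ A.fv A.y0 z ≤ A.kp) ⟨A.D, fun z hz => hz.2.1⟩
    ⟨v, le_rfl, v1.le, hv⟩
  have hfD : A.fv A.y0 A.D = A.kp + 1 := by rw [← hp]; rfl
  have mD : m < A.D := by
    rcases lt_or_eq_of_le m1 with h1 | h1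
    · exact h1
    · rw [h1, hfD] at m2; omega
  obtain ⟨b, hb⟩ : ∃ b, b = m + 1 := ⟨_, rfl⟩
  have fb : A.kp + 1 ≤ A.fv A.y0 b := by
    by_contra hc
    have := mx b ⟨by omega, by omega, by omega⟩
    omega
  have fb' : A.fv A.y0 (b - 1) ≤ A.kp := by rwa [hb, add_sub_cancel_right]
  have b0 : 0 < b := by omega
  obtain ⟨τ, t0, t1, t2⟩ : ∃ k, A.y0 ≤ k ∧ k < A.y0 + A.w ∧ A.NN ∣ b - A.V k := by
    rcases f_cases A A.y0 b with ⟨c, _⟩ | ⟨_, c⟩ | ⟨c, _⟩
    · omega
    · exact c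
    · omega
  have bD : b ≤ A.D - A.W1 := by
    by_contra hc
    exact h.evD hD (v := b) (k := τ) (by omega) (by omega) (Or.inl ⟨t0, t1, t2⟩)
  have tne : τ ≠ 0 := by
    intro hc
    rw [hc, V_eq, U_zero', mul_zero, add_zero, sub_zero] at t2
    have := Int.le_of_dvd b0 t2
    omega
  have τ0 : 1 - (A.w : ℤ) ≤ τ := by omega
  have τ1 : τ ≤ -1 := by omega
  have hqt1 : (A.q : ℤ) * τ ≤ A.q * -1 := mul_le_mul_of_nonneg_left τ1 hq.le
  have hqt0 : (A.q : ℤ) * (1 - A.w) ≤ A.q * τ := mul_le_mul_of_nonneg_left τ0 hq.le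
  rw [mul_neg, mul_one] at hqt1
  rw [mul_sub, mul_one] at hqt0
  -- the line c
  obtain ⟨c, hc⟩ : ∃ c, c = b - A.q * τ := ⟨_, rfl⟩
  have cU : A.NN ∣ c - A.U τ := by
    rw [V_eq] at t2
    rwa [hc, show b - A.q * τ - A.U τ = b - (A.U τ + A.q * τ) by ring]
  have cp : (A.p : ℤ) ∣ c := by
    have h1 := dvd_add (hpN.trans cU) (A.pU τ)
    rwa [sub_add_cancel] at h1
  have c0 : 0 < c := by omega
  have cD : c < A.D := by omega
  have pτ : ¬ (A.p : ℤ) ∣ τ := by
    intro hh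
    have := Int.le_of_dvd (by omega : 0 < -τ) ((dvd_neg).2 hh)
    omega
  have laτ : A.LA A.y0 c τ := ⟨t0, by omega, cU⟩
  obtain ⟨x', hx'⟩ : ∃ k, A.RA A.y0 c k := by
    have h1 := hg c cp c0 cD
    rcases g_cases A A.y0 cp with ⟨_, h2⟩ | ⟨h2, _⟩ | ⟨h2, _⟩
    · exact h2.1 ⟨τ, laτ⟩
    · omega
    · omega
  have xe := h.LR laτ hx'
  have hx3 := hx'.2.2
  -- level Y1
  obtain ⟨Y, hY⟩ : ∃ Y, Y = τ + 1 := ⟨_, rfl⟩
  have raY : A.RA Y c x' := ⟨by omega, by omega, hx3⟩
  have nlY : ∀ k, ¬ A.LA Y c k := by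
    rintro k ⟨k0, k1, k2⟩
    have h1 := dvd_sub cU k2
    rw [show c - A.U τ - (c - A.U k) = A.U k - A.U τ by ring] at h1
    have h2 := UU h1
    have := Int.le_of_dvd (by omega) h2
    omega
  have gY : A.gv Y (c + A.p) = A.gv Y c - 1 := by
    rcases g_cases A Y cp with ⟨_, h2⟩ | ⟨_, ⟨k, hk⟩, _⟩ | ⟨h2, _⟩
    · obtain ⟨k, hk⟩ := h2.2 ⟨x', raY⟩
      exact absurd hk (nlY k)
    · exact absurd hk (nlY k)
    · exact h2
  -- c > W1
  have cW : A.W1 < c := by
    by_contra hcc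
    rcases lt_or_eq_of_le (not_lt.1 hcc) with h1 | h1
    · have h2 := dvd_gap cp (dvd_sub hpW (dvd_refl (A.p : ℤ))) (by omega)
      have h3 := h.nov0 pτ cU (by omega) (by rcases hsg with h | h <;> omega)
        (by rw [hc]; omega) (by rw [hc]; omega)
      have := Int.le_of_dvd (by omega : 0 < -(τ - T.sig)) ((dvd_neg).2 h3)
      omega
    · rw [h1, show A.W1 - (A.U x' + A.W1) = -(A.U x' - A.U 0) by rw [U_zero']; ring, dvd_neg]
        at hx3
      have h2 := UU hx3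
      rw [sub_zero] at h2
      have := Int.le_of_dvd (by omega) h2
      omega
  have cpD : c + A.p ≤ A.D := by
    have := dvd_gap (dvd_add cp (dvd_refl (A.p : ℤ))) hpD (by omega)
    exact this
  -- the row v1 = b - q h
  have cx1 : A.Cx τ (c + A.p) := Cx_of (δ := A.p) (dvd_add cp (dvd_refl _))
    (by rwa [show c + (A.p : ℤ) - (A.U τ + A.p) = c - A.U τ by ring]) (by omega) (by omega)
  have rw1 : A.Rw τ (b - A.q * A.h) := by
    have h1 : A.NN ∣ (b - A.q * A.h) - (A.V τ - ((A.q * A.h : ℕ) : ℤ)) := by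
      push_cast
      rwa [show b - A.q * (A.h : ℤ) - (A.V τ - A.q * A.h) = b - A.V τ by ring]
    exact Rw_of h1 (by
      have : (0 : ℤ) < ((A.q * A.h : ℕ) : ℤ) := by push_cast; omega
      omega) le_rfl
  have R1 : A.Rv (c + A.p) (b - A.q * A.h) = 1 := by
    have h1 := Rv_of cx1 rw1
    rcases h.Rv01 (dvd_add cp (dvd_refl (A.p : ℤ))) (b - A.q * A.h) with h2 | h2 <;> omega
  have hqs : (A.q : ℤ) * T.sig = A.q * A.w + A.q * (-T.x) := by rw [hsig]; ring
  have hqx : (A.q : ℤ) * 1 ≤ A.q * (-T.x) := mul_le_mul_of_nonneg_left (by omega) hq.le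
  have hqsh : (A.q : ℤ) * T.sig ≤ A.q * A.h := mul_le_mul_of_nonneg_left s9 hq.le
  have nrw : ¬ A.Rw x' (b - A.q * A.h) := by
    obtain ⟨δ, hδ⟩ : ∃ δ : ℤ, δ = A.q * A.h + A.q * (-T.x) - A.sg := ⟨_, rfl⟩
    have h1 : A.NN ∣ (b - A.q * A.h) - (A.V x' - δ) := by
      have e : (b - A.q * A.h) - (A.V x' - δ) = c - (A.U x' + A.W1) := by
        rw [V_eq, hδ, hc, xe, hW1, mul_add, hqs]; ring
      rw [e]; exact hx3
    refine not_Rw (δ := δ) h1 ?_ ?_
    · rcases hsg with h | h <;> omega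
    · rcases hsg with h | h <;> omega
  have R0 : A.Rv c (b - A.q * A.h) = 0 := by
    rcases h.Rv01 cp (b - A.q * A.h) with h2 | h2
    · exact h2
    exfalso
    obtain ⟨E, E1, E2⟩ := Rv_ex (le_of_eq h2.symm)
    by_cases hE : A.Cx E (c + A.p)
    · have h3 := h.uniq (dvd_add cp (dvd_refl (A.p : ℤ))) hE E2 cx1 rw1
      have h4 := Cx_congr h3 (x := c) (z := c) (by simp) E1
      refine not_Cx (k := τ) (x := c) (δ := A.NN) cp ?_ (by omega) le_rfl h4
      have := dvd_sub cU (dvd_refl A.NN)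
      rwa [show c - A.U τ - A.NN = c - (A.U τ + A.NN) by ring] at this
    · obtain ⟨δ, d0, d1, d2, d3⟩ := E1.off cp
      have h5 : δ = A.W1 := by
        by_contra hne
        have h6 := dvd_gap (dvd_add d2 (dvd_refl (A.p : ℤ))) hpW (by omega)
        exact hE (Cx_of (δ := δ + A.p) (dvd_add cp (dvd_refl _))
          (by rwa [show c + (A.p : ℤ) - (A.U E + (δ + A.p)) = c - (A.U E + δ) by ring])
          (by omega) h6)
      rw [h5] at d3
      have h6 := dvd_sub hx3 d3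
      rw [show c - (A.U x' + A.W1) - (c - (A.U E + A.W1)) = A.U E - A.U x' by ring] at h6
      exact nrw (Rw_congr (UU h6) (by simp) E2)
  have F1 := h.Fb (dvd_add cp (dvd_refl (A.p : ℤ))) Y (b - A.q * A.h)
  have F2 := h.Fb cp Y (b - A.q * A.h)
  rw [R1, gY] at F1
  rw [R0] at F2
  have bqh : A.q * A.h ≤ b := by
    by_contra hcc
    have h1 := h.alpha (y := Y) (by omega) (by omega) (x := c + A.p) (v := b - A.q * A.h + A.NN)
      (dvd_add cp (dvd_refl (A.p : ℤ))) (by omega) cpD (by omega) (by omega) (Or.inl (by omega))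
    rw [Rv_cong (z := c + A.p) (v' := b - A.q * A.h) (by simp) (by simp),
      fv_cong (z := b - A.q * A.h) (by simp), R1, gY] at h1
    omega
  -- the up line c'
  obtain ⟨j, hj⟩ : ∃ j : ℤ, j = A.h - A.w := ⟨_, rfl⟩
  have N0 := A.NN_pos
  obtain ⟨c', hc'⟩ : ∃ c', c' = A.U j % A.NN := ⟨_, rfl⟩
  have e0 := Int.emod_nonneg (A.U j) N0.ne'
  have e1 := Int.emod_lt_of_pos (A.U j) N0
  rw [← hc'] at e0 e1
  have e2 : A.NN ∣ c' - A.U j := by
    have := Int.emod_add_mul_ediv (A.U j) A.NN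
    rw [← hc'] at this
    exact ⟨-(A.U j / A.NN), by linear_combination this⟩
  have c'p : (A.p : ℤ) ∣ c' := by
    have h1 := dvd_add (hpN.trans e2) (A.pU j)
    rwa [sub_add_cancel] at h1
  have la' : A.LA A.y0 c' j := ⟨by omega, by omega, e2⟩
  have nra' : ∀ k, ¬ A.RA A.y0 c' k := by
    intro k hk
    have h1 := h.LR la' hk
    have h2 := hk.2.1
    omega
  have up : A.gv A.y0 (c' + A.p) = A.gv A.y0 c' + 1 := by
    rcases g_cases A A.y0 c'p with ⟨_, h2⟩ | ⟨h2, _⟩ | ⟨_, ⟨k, hk⟩, _⟩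
    · obtain ⟨k, hk⟩ := h2.1 ⟨j, la'⟩
      exact absurd hk (nra' k)
    · exact h2
    · exact absurd hk (nra' k)
  have c'0 : 0 < c' := by
    rcases lt_or_eq_of_le e0 with h1 | h1
    · exact h1
    exfalso
    rw [← h1, show (0 : ℤ) - A.U j = -(A.U j - A.U 0) by rw [U_zero']; ring, dvd_neg] at e2
    have h2 := UU e2
    rw [sub_zero] at h2
    have := Int.le_of_dvd (by omega) h2
    omega
  have c'D : A.D + A.W1 < c' := by
    by_contra hcc
    by_cases h1 : c' < A.D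
    · have := hg c' c'p c'0 h1
      omega
    · have := h.act_D hD c'p (by omega) (by omega)
      omega
  have c'D' : A.D + A.W1 + A.p ≤ c' := by
    have := dvd_gap (dvd_add (dvd_add hpD hpW) (dvd_refl (A.p : ℤ))) c'p (by omega)
    exact this
  have fbb : A.fv A.y0 b ≠ A.fv A.y0 (b - 1) := by omega
  have qwhh : (A.q : ℤ) * j = A.q * A.h - A.q * A.w := by rw [hj]; ring
  rcases h.outU hD c'p (by omega) e1 up la' with h1 | ⟨_, h1⟩
  · have key : ∀ z, A.q * (j : ℤ) ≤ z → 0 ≤ z → z < A.D →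
        A.fv A.y0 z = A.gv A.y0 (c' + A.p) := by
      intro z z0 z1 z2
      rcases h1 z z1 z2 with h2 | h2
      · exfalso
        obtain ⟨δ, d0, d1, d2⟩ := h2.off
        have d0' : (0 : ℤ) < δ := by exact_mod_cast d0
        have d1' : (δ : ℤ) ≤ A.q * A.h := by exact_mod_cast d1
        have h3 : A.NN ∣ z + δ - c' - A.q * j := by
          have := dvd_sub d2 e2
          rw [V_eq] at this
          rwa [show z - (A.U j + A.q * j - δ) - (c' - A.U j) = z + δ - c' - A.q * j by ring] at this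
        have h4 : A.NN ∣ z + δ - c' - A.q * j + A.NN := dvd_add h3 (dvd_refl _)
        have := Int.le_of_dvd (by omega) h4
        rcases hsg with h | h <;> omega
      · exact h2
    exact fbb (by rw [key b (by omega) (by omega) (by omega),
      key (b - 1) (by omega) (by omega) (by omega)])
  · exact fbb (by rw [h1 b (by omega) (by omega), h1 (b - 1) (by omega) (by omega)])

end NPH

end TAp

end Pool.Agent.H78.Tie
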