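import Pool.Agent.H67.NP.Defs

/-! # NoPass : Col

Columns, rows, genericity.  All of this is unfolding of `Cfg.hor`, `Cfg.ver`, `ph`
(`ph N a L x = if (x - a) % N < L then 1 else 0`), `U_dvd`, `cfg_gen` (fields UU UW VV VH),
`Cfg.hor_congr`, `Cfg.ver_congr`, `Cfg.U_congr`, `Cfg.V_congr`, `D_W`, `D_H`, `U00`, `k0_cases`.
Column: x = U k + d mod N, p | x, p | U k so p | d; hor at x - k0: (d - k0) mod N < q w = W1 - sg
iff 0 < d <= W1 (since p | d, p | W1, p >= 5, (sg,k0) = (1,2) or (-1,1)).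
Row: v = V k - d, ver: (v - (V k - H)) mod N = (H - d) mod N < H iff 0 < d <= H, H = q h.
`U_ne_D`: U k = a * ix k, D = a p mod N, use `A.gen` / `q_ne` with ix k - p.
-/

namespace Pool.Agent.H78.Tie

open Finset
open Pool.Agent.H98.Flat
open Pool.Agent.H67.Flat

set_option linter.dupNamespace false
set_option linter.unusedVariables false

namespace TAp

variable {A : TAp}

theorem pU (A : TAp) (k : ℤ) : (A.p : ℤ) ∣ A.U k := A.U_dvd 0 k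

theorem Col_hor (A : TAp) (k u : ℤ) :
    (A.cfg 0).hor k u = 1 ↔ (u - A.U k) % A.NN < A.q * A.w := ph_eq_one_iff

theorem Col_ver (A : TAp) (k v : ℤ) :
    (A.cfg 0).ver k v = 1 ↔ (v - (A.V k - A.q * A.h)) % A.NN < A.q * A.h := ph_eq_one_iff

theorem Col_mod {N a b : ℤ} (h : N ∣ a - b) (h0 : 0 ≤ b) (h1 : b < N) : a % N = b := by
  rw [emod_congr h, Int.emod_eq_of_lt h0 h1]

theorem Col_pd {k x δ : ℤ} (hx : (A.p : ℤ) ∣ x) (h : A.NN ∣ x - (A.U k + δ)) :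
    (A.p : ℤ) ∣ δ := by
  have h1 := A.p_NN.trans h
  have h2 := dvd_sub (dvd_sub hx (A.pU k)) h1
  have h3 : x - A.U k - (x - (A.U k + δ)) = δ := by ring
  rwa [h3] at h2

theorem Col_H (A : TAp) : 0 < A.q * (A.h : ℤ) ∧ (A.q : ℤ) * A.h < A.NN :=
  ⟨(A.cfg 0).H_pos, (A.cfg 0).H_lt⟩

theorem Col_W (A : TAp) : 0 < A.q * (A.w : ℤ) ∧ (A.q : ℤ) * A.w < A.NN :=
  ⟨(A.cfg 0).W_pos, (A.cfg 0).W_lt⟩

theorem Cx.off {k x : ℤ} (h : A.Cx k x) (hx : (A.p : ℤ) ∣ x) :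
    ∃ δ, 0 < δ ∧ δ ≤ A.W1 ∧ (A.p : ℤ) ∣ δ ∧ A.NN ∣ x - (A.U k + δ) := by
  have h1 := (A.Col_hor k (x - A.k0)).1 h
  have h2 := Int.emod_nonneg (x - A.k0 - A.U k) A.NN_pos.ne'
  have h3 := Int.emod_add_mul_ediv (x - A.k0 - A.U k) A.NN
  set e := (x - A.k0 - A.U k) % A.NN with he
  have hd : A.NN ∣ x - (A.U k + (e + A.k0)) :=
    ⟨(x - A.k0 - A.U k) / A.NN, by linear_combination -h3⟩
  have hp := A.Col_pd hx hd
  have hk := A.k0_cases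
  have h5 := A.p5
  refine ⟨e + A.k0, ?_, ?_, hp, hd⟩
  · rcases hk with ⟨-, hk⟩ | ⟨-, hk⟩ <;> omega
  · apply dvd_gap hp A.p_W1
    unfold W1
    rcases hk with ⟨hs, hk⟩ | ⟨hs, hk⟩ <;> omega

theorem Cx_of {k x δ : ℤ} (hx : (A.p : ℤ) ∣ x) (h : A.NN ∣ x - (A.U k + δ)) (h0 : 0 < δ)
    (h1 : δ ≤ A.W1) : A.Cx k x := by
  have hp := A.Col_pd hx h
  have h5 := A.p5
  have h6 := Int.le_of_dvd h0 hp
  have hk := A.k0_cases
  have hW := A.Col_W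
  unfold W1 at h1
  apply (A.Col_hor k (x - A.k0)).2
  have h7 : A.NN ∣ (x - A.k0 - A.U k) - (δ - A.k0) := by
    have e : (x - A.k0 - A.U k) - (δ - A.k0) = x - (A.U k + δ) := by ring
    rw [e]; exact h
  rw [Col_mod h7]
  · rcases hk with ⟨hs, hk⟩ | ⟨hs, hk⟩ <;> omega
  · rcases hk with ⟨hs, hk⟩ | ⟨hs, hk⟩ <;> omega
  · rcases hk with ⟨hs, hk⟩ | ⟨hs, hk⟩ <;> omega

theorem not_Cx {k x δ : ℤ} (hx : (A.p : ℤ) ∣ x) (h : A.NN ∣ x - (A.U k + δ)) (h0 : A.W1 < δ)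
    (h1 : δ ≤ A.NN) : ¬ A.Cx k x := by
  intro hc
  have hp := A.Col_pd hx h
  have h5 := A.p5
  have hk := A.k0_cases
  have hW := A.Col_W
  have h6 : A.W1 + A.p ≤ δ := by
    by_contra hlt
    have := dvd_gap hp A.p_W1 (by omega)
    omega
  unfold W1 at h6
  have h2 := (A.Col_hor k (x - A.k0)).1 hc
  have h7 : A.NN ∣ (x - A.k0 - A.U k) - (δ - A.k0) := by
    have e : (x - A.k0 - A.U k) - (δ - A.k0) = x - (A.U k + δ) := by ring
    rw [e]; exact h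
  rw [Col_mod h7] at h2
  · rcases hk with ⟨hs, hk⟩ | ⟨hs, hk⟩ <;> omega
  · rcases hk with ⟨hs, hk⟩ | ⟨hs, hk⟩ <;> omega
  · rcases hk with ⟨hs, hk⟩ | ⟨hs, hk⟩ <;> omega

theorem Rw.off {k v : ℤ} (h : A.Rw k v) :
    ∃ δ, 0 < δ ∧ δ ≤ A.q * A.h ∧ A.NN ∣ v - (A.V k - δ) := by
  have h1 := (A.Col_ver k v).1 h
  have h2 := Int.emod_nonneg (v - (A.V k - A.q * A.h)) A.NN_pos.ne'
  have h3 := Int.emod_add_mul_ediv (v - (A.V k - A.q * A.h)) A.NN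
  set e := (v - (A.V k - A.q * A.h)) % A.NN with he
  obtain ⟨n, hn⟩ := Int.eq_ofNat_of_zero_le (a := (A.q : ℤ) * A.h - e) (by omega)
  refine ⟨n, by omega, ?_, (v - (A.V k - A.q * A.h)) / A.NN, ?_⟩
  · have : (n : ℤ) ≤ ((A.q * A.h : ℕ) : ℤ) := by push_cast; omega
    exact_mod_cast this
  · linear_combination -h3 - hn

theorem Rw_of {k v δ : ℤ} (h : A.NN ∣ v - (A.V k - δ)) (h0 : 0 < δ) (h1 : δ ≤ A.q * A.h) :
    A.Rw k v := by
  apply (A.Col_ver k v).2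
  have hH := A.Col_H
  have h7 : A.NN ∣ (v - (A.V k - A.q * A.h)) - (A.q * A.h - δ) := by
    have e : (v - (A.V k - A.q * A.h)) - (A.q * A.h - δ) = v - (A.V k - δ) := by ring
    rw [e]; exact h
  rw [Col_mod h7 (by omega) (by omega)]
  omega

theorem not_Rw {k v δ : ℤ} (h : A.NN ∣ v - (A.V k - δ)) (h0 : A.q * A.h < δ) (h1 : δ ≤ A.NN) :
    ¬ A.Rw k v := by
  intro hc
  have h2 := (A.Col_ver k v).1 hc
  have hH := A.Col_H
  have h7 : A.NN ∣ (v - (A.V k - A.q * A.h)) - (A.q * A.h - δ + A.NN) := by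
    have e : (v - (A.V k - A.q * A.h)) - (A.q * A.h - δ + A.NN) =
      (v - (A.V k - δ)) - A.NN := by ring
    rw [e]; exact dvd_sub h (dvd_refl _)
  rw [Col_mod h7 (by omega) (by omega)] at h2
  omega

theorem Cx_congr {k j x z : ℤ} (hk : (A.p : ℤ) ∣ k - j) (hx : A.NN ∣ x - z) (h : A.Cx k x) :
    A.Cx j z := by
  have h1 : (A.cfg 0).hor k (x - A.k0) = (A.cfg 0).hor j (z - A.k0) :=
    (A.cfg 0).hor_congr hk (by
      have e : x - A.k0 - (z - A.k0) = x - z := by ring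
      rw [e]; exact hx)
  unfold Cx at h ⊢
  rw [← h1]; exact h

theorem Rw_congr {k j v z : ℤ} (hk : (A.p : ℤ) ∣ k - j) (hv : A.NN ∣ v - z) (h : A.Rw k v) :
    A.Rw j z := by
  have h1 : (A.cfg 0).ver k v = (A.cfg 0).ver j z := (A.cfg 0).ver_congr hk hv
  unfold Rw at h ⊢
  rw [← h1]; exact h

theorem U_cong {k j : ℤ} (hk : (A.p : ℤ) ∣ k - j) : A.NN ∣ A.U k - A.U j :=
  (A.cfg 0).U_congr hk

theorem V_cong {k j : ℤ} (hk : (A.p : ℤ) ∣ k - j) : A.NN ∣ A.V k - A.V j :=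
  (A.cfg 0).V_congr hk

/-- genericity -/
theorem UU {k j : ℤ} (h : A.NN ∣ A.U k - A.U j) : (A.p : ℤ) ∣ k - j := (A.cfg_gen 0).UU k j h

theorem VV {k j : ℤ} (h : A.NN ∣ A.V k - A.V j) : (A.p : ℤ) ∣ k - j := (A.cfg_gen 0).VV k j h

theorem VHne (k j : ℤ) : ¬ A.NN ∣ A.V k - (A.V j - A.q * A.h) := (A.cfg_gen 0).VH k j

theorem U_ne_D (k : ℤ) : ¬ A.NN ∣ A.U k - A.D := by
  intro h
  have h1 : A.U k = A.a * A.ix k := A.ix_U k
  have h2 := dvd_sub h A.D_cong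
  have hq : (A.q : ℤ) ∣ A.NN := ⟨A.p, by unfold NN; ring⟩
  have h3 := hq.trans h2
  rw [h1] at h3
  have i0 := A.ix_nonneg k
  have i1 := A.ix_lt k
  refine A.q_ne (i := A.ix k - A.p) (c := 0) (by omega) (by omega) (by omega) ?_
  have e : A.a * (A.ix k - A.p) + A.q * 0 = A.a * A.ix k - A.D - (A.a * A.p - A.D) := by ring
  rw [e]; exact h3

theorem U_zero' (A : TAp) : A.U 0 = 0 := A.U00
theorem D_W' (A : TAp) : A.D + A.q * A.w < A.NN := A.D_W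
theorem D_H' (A : TAp) : A.D + A.q * A.h < A.NN := A.D_H

end TAp

end Pool.Agent.H78.Tie
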