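import Pool.Agent.H98.Tie.VBase

/-!
# NoPass for `ep = -1`, region V : definitions

`x` always denotes a multiple of `p`; it stands for the visible column with right end `x`
(the column `x - k0` of the integer model).  `A.y0 = 1 - w` is the main level.
Available from `VBase` (namespace `TAp`): `W1`, `NN`, `D`, `k0`, `Tie.sig`, `p_NN`, `p_W1`, `p_D`,
`D_pos`, `W1_bd`, `q6`, `p5`, `pq'`, `nn_lt`, `dvd_gap`, `eq_of_dvd`, `q_ne`, `ix`, ...
-/

namespace Pool.Agent.H78.Tie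

open Finset
open Pool.Agent.H98.Flat
open Pool.Agent.H67.Flat

set_option linter.dupNamespace false
set_option linter.unusedVariables false

namespace TAp

variable {A : TAp}

def U (A : TAp) (k : ℤ) : ℤ := (A.cfg 0).U k
def V (A : TAp) (k : ℤ) : ℤ := (A.cfg 0).V k
def gv (A : TAp) (y x : ℤ) : ℤ := (A.cfg 0).g y (x - A.k0)
def fv (A : TAp) (y v : ℤ) : ℤ := (A.cfg 0).f y v
def Rv (A : TAp) (x v : ℤ) : ℤ := (A.cfg 0).R (x - A.k0) v
/-- the rectangle of row `k` covers the visible column `x` -/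
def Cx (A : TAp) (k x : ℤ) : Prop := (A.cfg 0).hor k (x - A.k0) = 1
/-- the rectangle of row `k` contains the row `v` -/
def Rw (A : TAp) (k v : ℤ) : Prop := (A.cfg 0).ver k v = 1
/-- the main level -/
def y0 (A : TAp) : ℤ := 1 - A.w
/-- the values of `f` below `0`, and at `D` -/
def kp (A : TAp) : ℤ := A.fv A.y0 (-1)
def ph' (A : TAp) : ℤ := A.fv A.y0 A.D
/-- height of the main level over the visible column `x` -/
def vx (A : TAp) (x : ℤ) : ℤ := x - A.k0 + A.q * A.y0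

/-- row `k` has an event (top or bottom wall) at the height `b` on the level `y` -/
def Ev (A : TAp) (y b k : ℤ) : Prop :=
  (y ≤ k ∧ k < y + A.w ∧ A.NN ∣ b - A.V k) ∨
  (y + A.h ≤ k ∧ k < y + A.h + A.w ∧ A.NN ∣ b - (A.V k - A.q * A.h))
/-- `k` has an active left wall at `c` on the level `y` -/
def LA (A : TAp) (y c k : ℤ) : Prop := y ≤ k ∧ k < y + A.h ∧ A.NN ∣ c - A.U k
/-- `k` has an active right wall at `c` on the level `y` -/
def RA (A : TAp) (y c k : ℤ) : Prop :=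
  y + A.w ≤ k ∧ k < y + A.w + A.h ∧ A.NN ∣ c - (A.U k + A.W1)

structure NPH (A : TAp) (T : A.Tie) : Prop where
  fl : A.Fl
  sgl : T.Single
  nov : T.NoOv
  ep : T.ep = -1
  x0 : T.x < 0
  hs : (A.w : ℤ) - T.x ≤ A.h

theorem V_eq (A : TAp) (k : ℤ) : A.V k = A.U k + A.q * k := rfl

/-- sizes -/
theorem NPH.sz {T : A.Tie} (h : NPH A T) : 2 ≤ (A.w : ℤ) ∧ (A.w : ℤ) + 1 ≤ A.h ∧
    2 * (A.w : ℤ) < A.p ∧ 2 * (A.h : ℤ) < A.p ∧ (A.p : ℤ) < A.q ∧ 6 ≤ (A.q : ℤ) ∧ 5 ≤ (A.p : ℤ) ∧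
    (A.w : ℤ) < T.sig ∧ T.sig ≤ A.h := by
  have := h.x0
  have := h.hs
  have := A.hw
  have := A.w2
  have := A.h2
  have := A.pq'
  have := A.q6
  have := A.p5
  unfold Tie.sig
  refine ⟨?_, ?_, ?_, ?_, ?_, ?_, ?_, ?_, ?_⟩ <;> omega

end TAp

end Pool.Agent.H78.Tie
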