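import Pool.Agent.H67.NP.Fun

/-! # NoPass : Dis

Visible disjointness: `T.sc h.nov : SC (A.cfg 0) A.sg` (StatAp), its field `dj`; x - k0 is not a
multiple of p.  `abut`: `Cfg.near_ver` (two consecutive rows of two rectangles share a row, VHne) and
`uniq`.  `single`: induction with `abut`; the length bound: a rectangle has only q h rows (the
length v1 - v0 > q h would contain the rows V k - q h - 1 or V k; use `Rw.off` at v0 and at v0 + q h).
`Fb`: `h.fl` at u = x - k0.
-/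

namespace Pool.Agent.H78.Tie

open Finset
open Pool.Agent.H98.Flat
open Pool.Agent.H67.Flat

set_option linter.dupNamespace false
set_option linter.unusedVariables false

namespace TAp

variable {A : TAp}

namespace NPH

variable {T : A.Tie}

private theorem dis_k0_nd (A : TAp) {x : ℤ} (hx : (A.p : ℤ) ∣ x) : ¬ (A.p : ℤ) ∣ x - A.k0 := by
  intro h
  have h1 := dvd_sub hx h
  rw [sub_sub_cancel] at h1
  have h5 := A.p5
  have hk : A.k0 = 1 ∨ A.k0 = 2 := by unfold k0; split_ifs <;> simp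
  have := Int.le_of_dvd (by omega) h1
  omega

/-- visible disjointness -/
theorem uniq (h : NPH A T) {k j x v : ℤ} (hx : (A.p : ℤ) ∣ x) (a : A.Cx k x) (b : A.Rw k v)
    (c : A.Cx j x) (d : A.Rw j v) : (A.p : ℤ) ∣ k - j := by
  by_contra hkj
  exact dis_k0_nd A hx ((T.sc h.nov).dj k j (x - A.k0) v hkj ⟨a, b⟩ ⟨c, d⟩).2

theorem Rv01 (h : NPH A T) {x : ℤ} (hx : (A.p : ℤ) ∣ x) (v : ℤ) : A.Rv x v = 0 ∨ A.Rv x v = 1 := by
  have h0 := Rv_nonneg A x v
  have h1 : A.Rv x v ≤ 1 := by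
    by_cases hc : 1 ≤ A.Rv x v
    · obtain ⟨a, ha1, ha2⟩ := Rv_ex hc
      refine R_le_of (C := A.cfg 0) (a := a) ?_
      intro k hk
      exact h.uniq hx hk.1 hk.2 ha1 ha2
    · omega
  omega

/-- rectangles in a visible column do not abut -/
theorem abut (h : NPH A T) {k j x v : ℤ} (hx : (A.p : ℤ) ∣ x) (a : A.Cx k x) (b : A.Rw k (v - 1))
    (c : A.Cx j x) (d : A.Rw j v) : (A.p : ℤ) ∣ k - j := by
  obtain ⟨y, y1, y2⟩ := Cfg.near_ver (A.cfg_gen 0) (k := k) (j := j) (v := v - 1) b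
    (by rw [sub_add_cancel]; exact d)
  exact h.uniq hx a (v := y) y1 c y2

private theorem dis_qh_lt (A : TAp) : A.q * (A.h : ℤ) < A.NN := by
  have hq := A.q_pos'
  have h2 : (A.h : ℤ) < A.p := by have := A.h2; omega
  have := mul_lt_mul_of_pos_left h2 hq
  unfold NN
  rwa [mul_comm (A.p : ℤ) A.q]

/-- consecutive covered rows of a visible column are covered by one rectangle -/
theorem single (h : NPH A T) {x v0 v1 : ℤ} (hx : (A.p : ℤ) ∣ x) (h01 : v0 < v1)
    (hc : ∀ v, v0 ≤ v → v < v1 → 1 ≤ A.Rv x v) :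
    ∃ k, A.Cx k x ∧ (∀ v, v0 ≤ v → v < v1 → A.Rw k v) ∧ v1 - v0 ≤ A.q * A.h := by
  obtain ⟨k, k1, k2⟩ := Rv_ex (hc v0 le_rfl h01)
  have key : ∀ n : ℕ, v0 + n < v1 → A.Rw k (v0 + n) := by
    intro n
    induction n with
    | zero => intro _; simpa using k2
    | succ n ih =>
      intro hn
      push_cast at hn ⊢
      have h1 := ih (by omega)
      obtain ⟨j, j1, j2⟩ := Rv_ex (hc (v0 + (n + 1)) (by omega) hn)
      have h2 := h.abut hx (v := v0 + (n + 1)) k1
        (by rwa [show v0 + ((n : ℤ) + 1) - 1 = v0 + n by ring]) j1 j2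
      exact Rw_congr (by have := (dvd_neg).2 h2; rwa [neg_sub] at this) (by simp) j2
  have all : ∀ v, v0 ≤ v → v < v1 → A.Rw k v := by
    intro v a b
    have := key (v - v0).toNat (by rw [Int.toNat_of_nonneg (by omega)]; omega)
    rwa [Int.toNat_of_nonneg (by omega), show v0 + (v - v0) = v by ring] at this
  refine ⟨k, k1, all, ?_⟩
  by_contra hlen
  push Not at hlen
  obtain ⟨δ, d0, d1, d2⟩ := k2.off
  obtain ⟨δ', e0, e1, e2⟩ := (all (v0 + δ) (by omega) (by omega)).off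
  have h1 := dvd_sub e2 d2
  rw [show v0 + δ - (A.V k - δ') - (v0 - (A.V k - δ)) = δ' by ring] at h1
  have e0' : (0 : ℤ) < δ' := by exact_mod_cast e0
  have e1' : (δ' : ℤ) ≤ A.q * A.h := by exact_mod_cast e1
  have := Int.le_of_dvd e0' h1
  have := dis_qh_lt A
  omega

theorem Fb (h : NPH A T) {x : ℤ} (hx : (A.p : ℤ) ∣ x) (y v : ℤ) :
    -1 ≤ A.Rv x v - A.gv y x + A.fv y v ∧ A.Rv x v - A.gv y x + A.fv y v ≤ 1 := by
  have := h.fl (x - A.k0) v y (by rwa [sub_add_cancel])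
  rw [abs_le] at this
  exact this

end NPH

end TAp

end Pool.Agent.H78.Tie
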