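import Pool.Agent.H67.NP.Line

/-! # NoPass : DownL

Case II (ph' = kp+1).
rII: for x in (0,D]: g >= kp+1: alpha at v = D (f = kp+1; if x <= W1 use g_in0); g <= kp+2: Fb at v = NN - 1 (f = kp by fv_cong, R <= 1).
downL: g(c+p) = g(c) - 1 with both in {kp+1,kp+2} (c > W1 by act_in): g(c+p) = kp+1, g(c) = kp+2.  inD at v = N - 1: f = kp <> kp+1 so
 Rw k (-1): V k = c - W1 + q k =: V' (integer, 0 < c - W1 + q <= V' < D - W1 + q h + .. < N) and -1 in [V' - qh, V') mod N: V' - qh <= -1, V' < qh (V' <> ..).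
 U' := c - W1 > 0 : if U' < q w then nov0 (u = U', u + q k = V' in (-qh,qh)): k = sig, U_sig: c - W1 = -W1 mod N: no. So U' >= q w, V' >= q w + q.
 (p does not divide q w, so U' > q w; V' > q (w+1).)
-/

namespace Pool.Agent.H78.Tie

open Finset
open Pool.Agent.H98.Flat
open Pool.Agent.H67.Flat

set_option linter.dupNamespace false
set_option linter.unusedVariables false

namespace TAp

variable {A : TAp}

namespace NPH

variable {T : A.Tie}

theorem rII (h : NPH A T) (hD : A.W1 < A.D) (hp : A.ph' = A.kp + 1) {x : ℤ}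
    (hx : (A.p : ℤ) ∣ x) (x0 : 0 < x) (x1 : x ≤ A.D) :
    A.kp + 1 ≤ A.gv A.y0 x ∧ A.gv A.y0 x ≤ A.kp + 2 := by
  obtain ⟨w2, hw1, w2p, h2p, hpq, q6, p5, hs1, hs2⟩ := h.sz
  have hy : A.y0 = 1 - (A.w : ℤ) := rfl
  have hDH := A.D_H'
  have hqh : 0 < (A.q : ℤ) * A.h := by
    have : (0 : ℤ) < A.h := by omega
    positivity
  have hf : A.fv A.y0 A.D = A.kp + 1 := hp
  constructor
  · have h1 := h.alpha (y := A.y0) (x := x) (v := A.D) (by omega) (by omega) hx x0 x1 le_rfl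
      (by omega) (Or.inr (by omega))
    have h2 := A.Rv_nonneg x A.D
    omega
  · have h1 := (h.Fb hx A.y0 (A.NN - 1)).1
    have h2 : A.fv A.y0 (A.NN - 1) = A.kp :=
      fv_cong (y := A.y0) (v := A.NN - 1) (z := -1) ⟨1, by ring⟩
    have h3 := h.Rv01 hx (A.NN - 1)
    rw [h2] at h1
    rcases h3 with h3 | h3 <;> rw [h3] at h1 <;> omega

theorem downL (h : NPH A T) (hD : A.W1 < A.D) (hp : A.ph' = A.kp + 1) {c k : ℤ}
    (hc : (A.p : ℤ) ∣ c) (c0 : 0 < c) (c1 : c < A.D)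
    (hg : A.gv A.y0 (c + A.p) = A.gv A.y0 c - 1) (hk : A.RA A.y0 c k) :
    A.gv A.y0 (c + A.p) = A.kp + 1 ∧ A.NN ∣ (c - A.W1 + A.q * k) - A.V k ∧
    A.q * (A.w + 1) < c - A.W1 + A.q * k ∧ c - A.W1 + A.q * k < A.q * A.h ∧
    ∀ v, A.D ≤ v → v < A.NN → A.Rw k v ∨ A.fv A.y0 v = A.kp + 1 := by
  obtain ⟨w2, hw1, w2p, h2p, hpq, q6, p5, hs1, hs2⟩ := h.sz
  have hy : A.y0 = 1 - (A.w : ℤ) := rfl
  have hDH := A.D_H'
  have hh0 : (0 : ℤ) < A.h := by omega
  have hq0 : (0 : ℤ) < A.q := by omega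
  have hqh : 0 < (A.q : ℤ) * A.h := by positivity
  have hcp : c + A.p ≤ A.D := by
    have := dvd_gap (p := (A.p : ℤ)) (x := c + A.p) (y := A.D) (dvd_add hc (dvd_refl _)) A.p_D
      (by omega)
    exact this
  have r1 := h.rII hD hp hc c0 c1.le
  have r2 := h.rII hD hp (x := c + A.p) (dvd_add hc (dvd_refl _)) (by omega) hcp
  have e1 : A.gv A.y0 (c + A.p) = A.kp + 1 := by omega
  obtain ⟨k0, k1, kd⟩ := id hk
  rw [hy] at k0 k1
  have hVd : A.NN ∣ (c - A.W1 + A.q * k) - A.V k := by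
    rw [V_eq]
    have e : c - A.W1 + A.q * k - (A.U k + A.q * k) = c - (A.U k + A.W1) := by ring
    rw [e]
    exact kd
  have hin : ∀ v, A.D ≤ v → v < A.NN → A.Rw k v ∨ A.fv A.y0 v = A.kp + 1 := by
    intro v v0 v1
    have := h.inD hD hc c0 c1 hg hk v0 v1
    rwa [e1] at this
  have cW : A.W1 < c := by
    by_contra hcW
    have := h.act_in hD hc c0.le (not_lt.1 hcW)
    omega
  have hqk : (A.q : ℤ) ≤ A.q * k := by nlinarith
  have hqk2 : (A.q : ℤ) * k ≤ A.q * A.h := by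
    have : k ≤ A.h := by omega
    nlinarith
  have W1p : 0 < A.W1 := by
    have := A.W1_bd
    omega
  -- the row `NN - 1`
  have hV : c - A.W1 + A.q * k < A.q * A.h := by
    have h1 := hin (A.NN - 1) (by omega) (by omega)
    have h2 : A.fv A.y0 (A.NN - 1) = A.kp :=
      fv_cong (y := A.y0) (v := A.NN - 1) (z := -1) ⟨1, by ring⟩
    rcases h1 with h1 | h1
    · obtain ⟨δ, d0, d1, dd⟩ := h1.off
      have h3 : A.NN ∣ (c - A.W1 + A.q * k) + 1 - δ := by
        have h4 := dvd_sub hVd dd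
        have h5 := dvd_add h4 (dvd_refl A.NN)
        have e : (c - A.W1 + A.q * k) - A.V k - (A.NN - 1 - (A.V k - δ)) + A.NN =
            (c - A.W1 + A.q * k) + 1 - δ := by ring
        rwa [e] at h5
      have h4 : (c - A.W1 + A.q * k) + 1 - δ = 0 := by
        apply Int.eq_zero_of_abs_lt_dvd h3
        rw [abs_lt]
        constructor <;> omega
      omega
    · omega
  refine ⟨e1, hVd, ?_, hV, hin⟩
  have hnk : ¬ (A.p : ℤ) ∣ k := by
    intro hd
    have := Int.le_of_dvd (by omega) hd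
    omega
  have hU : A.NN ∣ (c - A.W1) - A.U k := by
    have e : c - A.W1 - A.U k = c - (A.U k + A.W1) := by ring
    rw [e]
    exact kd
  have hqw : 0 < (A.q : ℤ) * A.w := by
    have : (0 : ℤ) < A.w := by omega
    positivity
  have hge : (A.q : ℤ) * A.w ≤ c - A.W1 := by
    by_contra hlt
    have h1 := h.nov0 hnk hU (by omega) (not_le.1 hlt) (by omega) hV
    have h2 : k - T.sig = 0 := by
      apply Int.eq_zero_of_abs_lt_dvd h1
      rw [abs_lt]
      constructor <;> omega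
    have h3 : k = T.sig := by omega
    have h4 := h.U_sig
    rw [← h3] at h4
    have h5 : A.NN ∣ c := by
      have h6 := dvd_add kd h4
      have e : c - (A.U k + A.W1) + (A.U k + A.W1) = c := by ring
      rwa [e] at h6
    have := Int.le_of_dvd c0 h5
    omega
  have hne : (A.q : ℤ) * A.w ≠ c - A.W1 := by
    intro he
    have h1 : (A.p : ℤ) ∣ A.q * A.w := by
      rw [he]
      exact dvd_sub hc A.p_W1
    have h2 := dvd_sub A.p_W1 h1
    have h3 : A.W1 - A.q * A.w = A.sg := by unfold W1; ring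
    rw [h3] at h2
    rcases A.hsg with h4 | h4 <;> rw [h4] at h2
    · have := Int.le_of_dvd one_pos h2
      omega
    · have h5 : (A.p : ℤ) ∣ 1 := by
        have := (dvd_neg (a := (A.p : ℤ)) (b := (1 : ℤ))).1 h2
        exact this
      have := Int.le_of_dvd one_pos h5
      omega
  have hgt : (A.q : ℤ) * A.w < c - A.W1 := lt_of_le_of_ne hge hne
  have e : (A.q : ℤ) * (A.w + 1) = A.q * A.w + A.q := by ring
  rw [e]
  omega

end NPH

end TAp

end Pool.Agent.H78.Tie
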