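import Pool.Agent.H67.NP.Col

/-! # NoPass : Fun

The functions `gv`, `fv`, `Rv` : congruences, the strip identity `Cfg.gid`, the jumps
(`Cfg.f_jump`, `Cfg.g_jump`, sums of `dv N (..)`, `sum_dv_window` in H67.Flat.E0, `Cfg.f_up`,
`Cfg.f_down`, `Cfg.f_up_of`, `Cfg.f_down_of`; genericity `cfg_gen`).
`f_cases`: at most one T event and at most one B event at v (VV: the rows of a window of length w < p),
never both (VHne).
`g_cases`: telescoping of `Cfg.g_jump` over the p unit steps from c - k0 to c + p - k0: left walls U k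
(= 0 mod p) sit only at c, right walls U k + q w = U k + W1 - sg only at c - sg; both positions are in
(c - k0, c + p - k0]; at most one k each (UU).
`first_drop`: induction on the number of steps.
-/

namespace Pool.Agent.H78.Tie

open Finset
open Pool.Agent.H98.Flat
open Pool.Agent.H67.Flat

set_option linter.dupNamespace false
set_option linter.unusedVariables false

namespace TAp

variable {A : TAp}

theorem window_cases {N : ℤ} {p n : ℕ} (hp : 0 < p) (hn : n ≤ p) {f : ℤ → ℤ}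
    (hf : ∀ i j, N ∣ f i - f j → (p : ℤ) ∣ i - j) (hf' : ∀ i j, (p : ℤ) ∣ i - j → N ∣ f i - f j)
    (c Y : ℤ) :
    (∑ i ∈ range n, dv N (c - f (Y + i)) = 0 ∧ ∀ k, Y ≤ k → k < Y + n → ¬ N ∣ c - f k) ∨
    (∑ i ∈ range n, dv N (c - f (Y + i)) = 1 ∧ ∃ k, Y ≤ k ∧ k < Y + n ∧ N ∣ c - f k) := by
  by_cases h : ∃ i : ℕ, i < n ∧ N ∣ c - f (Y + i)
  · obtain ⟨i, hi, hd⟩ := h
    right
    refine ⟨?_, Y + i, by omega, by omega, hd⟩
    rw [sum_dv_window hp hn hf hf' hd Y]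
    unfold lv
    rw [if_pos]
    rw [show Y + (i : ℤ) - Y = i by ring, Int.emod_eq_of_lt (by omega) (by omega)]
    exact_mod_cast hi
  · left
    push Not at h
    refine ⟨Finset.sum_eq_zero fun i hi => dv_not (h i (Finset.mem_range.1 hi)), ?_⟩
    intro k h0 h1 h2
    apply h (k - Y).toNat (by omega)
    rwa [show Y + ((k - Y).toNat : ℤ) = k by omega]

theorem gv_cong {y x z : ℤ} (h : A.NN ∣ x - z) : A.gv y x = A.gv y z := by
  unfold gv
  apply Cfg.g_congr (A.cfg 0) (by simp)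
  show A.NN ∣ _
  rwa [sub_sub_sub_cancel_right]

theorem fv_cong {y v z : ℤ} (h : A.NN ∣ v - z) : A.fv y v = A.fv y z := by
  unfold fv
  exact Cfg.f_congr (A.cfg 0) (by simp) h

theorem Rv_cong {x z v v' : ℤ} (h : A.NN ∣ x - z) (h' : A.NN ∣ v - v') :
    A.Rv x v = A.Rv z v' := by
  unfold Rv
  apply Cfg.R_congr (A.cfg 0) _ h'
  show A.NN ∣ _
  rwa [sub_sub_sub_cancel_right]

theorem Rv_of {k x v : ℤ} (h : A.Cx k x) (h' : A.Rw k v) : 1 ≤ A.Rv x v :=
  Cfg.R_pos_of_In (C := A.cfg 0) ⟨h, h'⟩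

theorem Rv_ex {x v : ℤ} (h : 1 ≤ A.Rv x v) : ∃ k, A.Cx k x ∧ A.Rw k v :=
  Cfg.exists_In (C := A.cfg 0) h

theorem Rv_nonneg (A : TAp) (x v : ℤ) : 0 ≤ A.Rv x v := Cfg.R_nonneg _ _ _

/-- the strip identity -/
theorem gid' (A : TAp) {y x θ : ℤ} (h0 : 0 ≤ θ) (h1 : θ ≤ A.q) :
    A.gv y x = A.Rv x (x - A.k0 + A.q * y - θ) + A.fv y (x - A.k0 + A.q * y - θ) := by
  have := (A.cfg 0).gid y (x - A.k0) (A.q * y - θ)
    (by show (A.q : ℤ) * (y - 1) ≤ _; rw [mul_sub, mul_one]; omega)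
    (by show _ ≤ (A.q : ℤ) * y; omega)
  unfold gv Rv fv
  rw [this, show x - A.k0 + (A.q * y - θ) = x - A.k0 + A.q * y - θ by ring]

theorem fcase_aux (A : TAp) (y v : ℤ) :
    ∃ S1 S2 : ℤ, A.fv y v - A.fv y (v - 1) = S1 - S2 ∧
    ((S1 = 0 ∧ ∀ k, y ≤ k → k < y + A.w → ¬ A.NN ∣ v - A.V k) ∨
      (S1 = 1 ∧ ∃ k, y ≤ k ∧ k < y + A.w ∧ A.NN ∣ v - A.V k)) ∧
    ((S2 = 0 ∧ ∀ k, y + A.h ≤ k → k < y + A.h + A.w → ¬ A.NN ∣ v - (A.V k - A.q * A.h)) ∨
      (S2 = 1 ∧ ∃ k, y + A.h ≤ k ∧ k < y + A.h + A.w ∧ A.NN ∣ v - (A.V k - A.q * A.h))) := by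
  have G := A.cfg_gen 0
  have hp : 0 < A.p := A.hp
  have hwp : A.w ≤ A.p := by have := A.w2; omega
  refine ⟨_, _, (A.cfg 0).f_jump y v, ?_, ?_⟩
  · exact window_cases (N := A.NN) (f := fun k => A.V k) hp hwp G.VV
      (fun i j h => (A.cfg 0).V_congr h) v y
  · exact window_cases (N := A.NN) (f := fun k => A.V k - A.q * A.h) hp hwp
      (fun i j h => by
        apply G.VV
        show A.NN ∣ A.V i - A.V j
        rwa [sub_sub_sub_cancel_right] at h)
      (fun i j h => by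
        rw [sub_sub_sub_cancel_right]
        exact (A.cfg 0).V_congr h) v (y + A.h)

/-- the events of a level -/
theorem f_cases (A : TAp) (y v : ℤ) :
    (A.fv y v = A.fv y (v - 1) ∧ ∀ k, ¬ A.Ev y v k) ∨
    (A.fv y v = A.fv y (v - 1) + 1 ∧ ∃ k, y ≤ k ∧ k < y + A.w ∧ A.NN ∣ v - A.V k) ∨
    (A.fv y v = A.fv y (v - 1) - 1 ∧
      ∃ k, y + A.h ≤ k ∧ k < y + A.h + A.w ∧ A.NN ∣ v - (A.V k - A.q * A.h)) := by
  obtain ⟨S1, S2, hj, h1, h2⟩ := A.fcase_aux y v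
  rcases h1 with ⟨e1, h1⟩ | ⟨e1, k1, a1, b1, c1⟩
  · rcases h2 with ⟨e2, h2⟩ | ⟨e2, k2, a2, b2, c2⟩
    · left
      refine ⟨by omega, ?_⟩
      rintro k (⟨a, b, c⟩ | ⟨a, b, c⟩)
      · exact h1 k a b c
      · exact h2 k a b c
    · right; right
      exact ⟨by omega, k2, a2, b2, c2⟩
  · rcases h2 with ⟨e2, h2⟩ | ⟨e2, k2, a2, b2, c2⟩
    · right; left
      exact ⟨by omega, k1, a1, b1, c1⟩
    · exfalso
      have := dvd_sub c2 c1
      apply VHne (A := A) k1 k2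
      rwa [show v - (A.V k2 - A.q * A.h) - (v - A.V k1) = A.V k1 - (A.V k2 - A.q * A.h) by ring]
        at this

theorem f_T {y k v : ℤ} (h0 : y ≤ k) (h1 : k < y + A.w) (h : A.NN ∣ v - A.V k) :
    A.fv y v = A.fv y (v - 1) + 1 := by
  rcases A.f_cases y v with ⟨_, hn⟩ | ⟨h2, _⟩ | ⟨_, k2, a2, b2, c2⟩
  · exact absurd (Or.inl ⟨h0, h1, h⟩) (hn k)
  · exact h2
  · exfalso
    have := dvd_sub c2 h
    apply VHne (A := A) k k2
    rwa [show v - (A.V k2 - A.q * A.h) - (v - A.V k) = A.V k - (A.V k2 - A.q * A.h) by ring]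
      at this

theorem f_B {y k v : ℤ} (h0 : y + A.h ≤ k) (h1 : k < y + A.h + A.w)
    (h : A.NN ∣ v - (A.V k - A.q * A.h)) : A.fv y v = A.fv y (v - 1) - 1 := by
  rcases A.f_cases y v with ⟨_, hn⟩ | ⟨_, k2, a2, b2, c2⟩ | ⟨h2, _⟩
  · exact absurd (Or.inr ⟨h0, h1, h⟩) (hn k)
  · exfalso
    have := dvd_sub h c2
    apply VHne (A := A) k2 k
    rwa [show v - (A.V k - A.q * A.h) - (v - A.V k2) = A.V k2 - (A.V k - A.q * A.h) by ring]
      at this
  · exact h2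

/-- `f` is constant where there are no events -/
theorem f_const {y v0 v1 : ℤ} (h01 : v0 ≤ v1) (hn : ∀ v k, v0 < v → v ≤ v1 → ¬ A.Ev y v k) :
    A.fv y v1 = A.fv y v0 := by
  obtain ⟨n, rfl⟩ := Int.le.dest h01
  clear h01
  induction n with
  | zero => simp
  | succ n ih =>
    have e : v0 + ((n + 1 : ℕ) : ℤ) = v0 + n + 1 := by push_cast; ring
    have h1 := ih (fun v k a b => hn v k a (by omega))
    rw [e] at hn ⊢
    rcases A.f_cases y (v0 + n + 1) with ⟨h2, _⟩ | ⟨_, k2, a2, b2, c2⟩ | ⟨_, k2, a2, b2, c2⟩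
    · rw [add_sub_cancel_right] at h2
      rw [h2, h1]
    · exact absurd (Or.inl ⟨a2, b2, c2⟩) (hn _ k2 (by omega) le_rfl)
    · exact absurd (Or.inr ⟨a2, b2, c2⟩) (hn _ k2 (by omega) le_rfl)

theorem k0c (A : TAp) : (A.sg = 1 ∧ A.k0 = 2) ∨ (A.sg = -1 ∧ A.k0 = 1) := by
  unfold k0
  rcases A.hsg with h | h
  · left; exact ⟨h, by rw [if_pos h]⟩
  · right; exact ⟨h, by rw [if_neg (by omega)]⟩

theorem tele {F a b : ℤ → ℤ} {x : ℤ} (hF : ∀ u, F u - F (u - 1) = a u - b u) (n : ℕ)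
    {s t : ℤ} (hs : x < s) (hs' : s ≤ x + n) (ht : x < t) (ht' : t ≤ x + n)
    (ha : ∀ u, x < u → u ≤ x + n → u ≠ s → a u = 0)
    (hb : ∀ u, x < u → u ≤ x + n → u ≠ t → b u = 0) :
    F (x + n) - F x = a s - b t := by
  have h1 : ∑ i ∈ range n, (F (x + ((i + 1 : ℕ) : ℤ)) - F (x + (i : ℤ))) = F (x + n) - F x := by
    rw [Finset.sum_range_sub (fun i : ℕ => F (x + i))]
    simp
  have h2 : ∀ i : ℕ, F (x + ((i + 1 : ℕ) : ℤ)) - F (x + (i : ℤ))
      = a (x + ((i + 1 : ℕ) : ℤ)) - b (x + ((i + 1 : ℕ) : ℤ)) := by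
    intro i
    have := hF (x + ((i + 1 : ℕ) : ℤ))
    rwa [show x + ((i + 1 : ℕ) : ℤ) - 1 = x + i by push_cast; ring] at this
  rw [← h1, Finset.sum_congr rfl fun i _ => h2 i, Finset.sum_sub_distrib]
  congr 1
  · rw [Finset.sum_eq_single (s - x - 1).toNat]
    · congr 1; omega
    · intro i hi hne
      have := Finset.mem_range.1 hi
      apply ha _ (by omega) (by omega) (by omega)
    · intro hi
      exact absurd (Finset.mem_range.2 (by omega)) hi
  · rw [Finset.sum_eq_single (t - x - 1).toNat]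
    · congr 1; omega
    · intro i hi hne
      have := Finset.mem_range.1 hi
      apply hb _ (by omega) (by omega) (by omega)
    · intro hi
      exact absurd (Finset.mem_range.2 (by omega)) hi

/-- the jumps of `g` over a line `c` -/
theorem g_cases (A : TAp) (y : ℤ) {c : ℤ} (hc : (A.p : ℤ) ∣ c) :
    (A.gv y (c + A.p) = A.gv y c ∧ ((∃ k, A.LA y c k) ↔ ∃ k, A.RA y c k)) ∨
    (A.gv y (c + A.p) = A.gv y c + 1 ∧ (∃ k, A.LA y c k) ∧ ∀ k, ¬ A.RA y c k) ∨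
    (A.gv y (c + A.p) = A.gv y c - 1 ∧ (∃ k, A.RA y c k) ∧ ∀ k, ¬ A.LA y c k) := by
  have G := A.cfg_gen 0
  have hp : 0 < A.p := A.hp
  have hhp : A.h ≤ A.p := by have := A.h2; omega
  have p5 := A.p5
  have hk0 := A.k0c
  have hW : (A.cfg 0).W = A.q * A.w := rfl
  have hW1 : A.W1 = A.q * A.w + A.sg := rfl
  have hpN : (A.p : ℤ) ∣ (A.cfg 0).N := A.p_NN
  have key := tele (F := fun u => (A.cfg 0).g y u) (x := c - A.k0) ((A.cfg 0).g_jump y) A.p
    (s := c) (t := c - A.sg) (by omega) (by omega) (by omega) (by omega)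
    (fun u a b ne => by
      refine Finset.sum_eq_zero fun i _ => dv_not fun h => ne ?_
      have h1 := dvd_add (hpN.trans h) (A.pU (y + i))
      have h2 : (A.p : ℤ) ∣ u := by
        rwa [show u - (A.cfg 0).U (y + i) + A.U (y + i) = u by unfold U; ring] at h1
      have h3 := dvd_sub h2 hc
      exact eq_of_dvd h3 (by omega) (by omega))
    (fun u a b ne => by
      refine Finset.sum_eq_zero fun i _ => dv_not fun h => ne ?_
      have h1 := dvd_add (dvd_add (hpN.trans h) (A.pU (y + A.w + i))) A.p_W1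
      have h2 : (A.p : ℤ) ∣ u + A.sg := by
        rwa [show u - ((A.cfg 0).U (y + ((A.cfg 0).w : ℤ) + i) + (A.cfg 0).W)
          + A.U (y + A.w + i) + A.W1 = u + A.sg by
            rw [hW, hW1]
            show u - ((A.cfg 0).U (y + (A.w : ℤ) + i) + A.q * A.w) + (A.cfg 0).U (y + A.w + i)
              + (A.q * A.w + A.sg) = u + A.sg
            ring] at h1
      have h3 := dvd_sub h2 hc
      have := eq_of_dvd h3 (by omega) (by omega)
      omega)
  have e : A.gv y (c + A.p) - A.gv y c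
      = ∑ i ∈ range A.h, dv A.NN (c - A.U (y + i))
        - ∑ i ∈ range A.h, dv A.NN (c - (A.U (y + A.w + i) + A.W1)) := by
    unfold gv
    rw [show c + A.p - A.k0 = c - A.k0 + A.p by ring]
    refine key.trans ?_
    congr 1
    refine Finset.sum_congr rfl fun i _ => ?_
    show dv A.NN (c - A.sg - ((A.cfg 0).U (y + A.w + i) + (A.cfg 0).W)) = _
    rw [hW, hW1]
    congr 1
    unfold U
    ring
  have w1 := window_cases (N := A.NN) (f := fun k => A.U k) hp hhp G.UU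
    (fun i j h => (A.cfg 0).U_congr h) c y
  have w2 := window_cases (N := A.NN) (f := fun k => A.U k + A.W1) hp hhp
    (fun i j h => by
      apply G.UU
      show A.NN ∣ A.U i - A.U j
      rwa [add_sub_add_right_eq_sub] at h)
    (fun i j h => by
      rw [add_sub_add_right_eq_sub]
      exact (A.cfg 0).U_congr h) c (y + A.w)
  rcases w1 with ⟨e1, h1⟩ | ⟨e1, k1, a1, b1, c1⟩
  · have n1 : ∀ k, ¬ A.LA y c k := fun k hk => h1 k hk.1 hk.2.1 hk.2.2
    rcases w2 with ⟨e2, h2⟩ | ⟨e2, k2, a2, b2, c2⟩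
    · have n2 : ∀ k, ¬ A.RA y c k := fun k hk => h2 k hk.1 hk.2.1 hk.2.2
      left
      refine ⟨by omega, ?_⟩
      constructor
      · rintro ⟨k, hk⟩; exact absurd hk (n1 k)
      · rintro ⟨k, hk⟩; exact absurd hk (n2 k)
    · right; right
      exact ⟨by omega, ⟨k2, a2, b2, c2⟩, n1⟩
  · rcases w2 with ⟨e2, h2⟩ | ⟨e2, k2, a2, b2, c2⟩
    · have n2 : ∀ k, ¬ A.RA y c k := fun k hk => h2 k hk.1 hk.2.1 hk.2.2
      right; left
      exact ⟨by omega, ⟨k1, a1, b1, c1⟩, n2⟩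
    · left
      exact ⟨by omega, fun _ => ⟨k2, a2, b2, c2⟩, fun _ => ⟨k1, a1, b1, c1⟩⟩

/-- `g` is constant where there are no active lines -/
theorem g_const {y x0 x1 : ℤ} (h0 : (A.p : ℤ) ∣ x0) (h1 : (A.p : ℤ) ∣ x1) (h01 : x0 ≤ x1)
    (hn : ∀ c, (A.p : ℤ) ∣ c → x0 ≤ c → c < x1 → A.gv y (c + A.p) = A.gv y c) :
    A.gv y x1 = A.gv y x0 := by
  have p5 := A.p5
  obtain ⟨t, ht⟩ := dvd_sub h1 h0
  have t0 : 0 ≤ t := by
    by_contra hc
    have : (A.p : ℤ) * t ≤ A.p * (-1) := mul_le_mul_of_nonneg_left (by omega) (by omega)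
    omega
  obtain ⟨n, rfl⟩ := Int.eq_ofNat_of_zero_le t0
  have hx : x1 = x0 + A.p * n := by omega
  subst hx
  clear h01 t0 ht h1
  induction n with
  | zero => simp
  | succ n ih =>
    have e : x0 + (A.p : ℤ) * ((n + 1 : ℕ) : ℤ) = x0 + A.p * n + A.p := by push_cast; ring
    rw [e] at hn ⊢
    have hpn : 0 ≤ (A.p : ℤ) * n := by positivity
    rw [hn (x0 + A.p * n) (dvd_add h0 (dvd_mul_right _ _)) (by omega) (by omega)]
    exact ih (fun c a b c' => hn c a b (by omega))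

/-- the first descent below the initial value -/
theorem first_drop {y x0 x1 : ℤ} (h0 : (A.p : ℤ) ∣ x0) (h1 : (A.p : ℤ) ∣ x1) (h01 : x0 ≤ x1)
    (hg : A.gv y x1 < A.gv y x0) : ∃ c, (A.p : ℤ) ∣ c ∧ x0 ≤ c ∧ c < x1 ∧
      A.gv y c = A.gv y x0 ∧ A.gv y (c + A.p) = A.gv y c - 1 ∧ (∃ k, A.RA y c k) ∧
      ∀ z, (A.p : ℤ) ∣ z → x0 ≤ z → z ≤ c → A.gv y x0 ≤ A.gv y z := by
  have p5 := A.p5
  obtain ⟨t, ht⟩ := dvd_sub h1 h0
  have t0 : 0 ≤ t := by
    by_contra hc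
    have : (A.p : ℤ) * t ≤ A.p * (-1) := mul_le_mul_of_nonneg_left (by omega) (by omega)
    omega
  obtain ⟨n, rfl⟩ := Int.eq_ofNat_of_zero_le t0
  have hx : x1 = x0 + A.p * n := by omega
  subst hx
  clear h01 t0 ht h1
  -- the first index with a smaller value
  have hex : ∃ m : ℕ, A.gv y (x0 + A.p * m) < A.gv y x0 := ⟨n, hg⟩
  classical
  have hm := Nat.find_spec hex
  have hmin : ∀ m : ℕ, m < Nat.find hex → A.gv y x0 ≤ A.gv y (x0 + A.p * m) := fun m hlt =>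
    not_lt.1 (Nat.find_min hex hlt)
  have hle : Nat.find hex ≤ n := Nat.find_min' hex hg
  obtain ⟨m, hmm⟩ : ∃ m, Nat.find hex = m + 1 := by
    rcases Nat.eq_zero_or_pos (Nat.find hex) with h | h
    · rw [h] at hm; simp at hm
    · exact ⟨Nat.find hex - 1, by omega⟩
  rw [hmm] at hm hmin hle
  have e : x0 + (A.p : ℤ) * ((m + 1 : ℕ) : ℤ) = x0 + A.p * m + A.p := by push_cast; ring
  rw [e] at hm
  have hc : (A.p : ℤ) ∣ x0 + A.p * m := dvd_add h0 (dvd_mul_right _ _)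
  have ge := hmin m (by omega)
  have hpm : 0 ≤ (A.p : ℤ) * m := by positivity
  have hlt : (A.p : ℤ) * m < A.p * n := by
    apply mul_lt_mul_of_pos_left _ (by omega)
    exact_mod_cast (by omega : m < n)
  refine ⟨x0 + A.p * m, hc, by omega, by omega, ?_, ?_, ?_, ?_⟩
  · rcases A.g_cases y hc with ⟨h, _⟩ | ⟨h, _⟩ | ⟨h, _⟩ <;> omega
  · rcases A.g_cases y hc with ⟨h, _⟩ | ⟨h, _⟩ | ⟨h, _⟩ <;> omega
  · rcases A.g_cases y hc with ⟨h, _⟩ | ⟨h, _⟩ | ⟨h, hk, _⟩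
    · omega
    · omega
    · exact hk
  · intro z hz z0 z1
    obtain ⟨s, hs⟩ := dvd_sub hz h0
    have s0 : 0 ≤ s := by
      by_contra hcc
      have : (A.p : ℤ) * s ≤ A.p * (-1) := mul_le_mul_of_nonneg_left (by omega) (by omega)
      omega
    obtain ⟨r, rfl⟩ := Int.eq_ofNat_of_zero_le s0
    have hz' : z = x0 + A.p * r := by omega
    have hr : r < m + 1 := by
      by_contra hcc
      have : (A.p : ℤ) * (m + 1) ≤ A.p * r :=
        mul_le_mul_of_nonneg_left (by exact_mod_cast (by omega : m + 1 ≤ r)) (by omega)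
      rw [mul_add, mul_one] at this
      omega
    rw [hz']
    exact hmin r hr

end TAp

end Pool.Agent.H78.Tie
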