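import Pool.Agent.H67.NP.Rng
import Pool.Agent.H67.NP.LineO

/-! # NoPass : LemH

lemS: m active left wall at c (row m in [1-w, h-w]), c in [D+W1, N), g(c+p) = kp+1. V m = c + q m mod N. l := m - y0 in [0,h).
 If l >= 1: vx (c+p) = c + p - k0 + q y0 and V m = c + q y0 + q l: Rw_of with delta = q l - p + k0 in (0, qh]: ok.
 If l = 0: V m = c + q y0 =: b in (D, N) (c >= D+W1): T event at b (f_T): f(b) = f(b-1)+1.  gid' at x = c+p with th = p - k0 + 1:
 v = b - 1: R = 1 (Cx_of delta = p; Rw_of delta = 1; Rv01), so f(b-1) = kp; f(b) = kp+1 contradicts rI2.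
lemH: induction on x (number of steps of p from D + W1), c := x - p >= D + W1.  E: for v in [al,D): beta at x: R - (kp+1) + kp >= 0 so
 R = 1; `single`: E covers x and all rows [al,D).
 g(c) = kp+1 or kp (rI3 if c > D+W1; g_inD: = kp if c = D+W1).
 a) g(c) = kp: g_cases: LA m at c.  outU (c < N; c0: D < c): second alternative contradicts f 0 = kp+1 (f_zero) = g(c) = kp. First: for v in [al,D)
  f = kp <> kp+1 so Rw m v.  lemS: Rw m (vx x); Cx m x: Cx_of delta = p.
 b) g(c) = kp+1 (c > D + W1): induction hypothesis m at c.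
  If Cx m x: need Rw m (vx x), vx x = vx c + p.  Otherwise V m (suitable lift t) in (vx c, vx x]; delta of Cx m x: x = U m + d, p < d <= W1
  (as Cx m c), so q l = V m - U m - q y0 is in (d - p - k0, d - k0] => l in [1, w-1]... so row m (rep. in [y0, y0+w)) has a T event at t, t in [D,N):
  f(t) = f(t-1)+1; gid' at x with th = vx x - (t-1) in [1,p]: R = 1 so f(t-1) = kp, f(t) = kp+1 contradicts rI2.
  If not Cx m x: U m + W1 = c mod N. The label of m (from Rw m (vx c)) is in [w, n): RA m' at c (m' = m mod p). g_cases (equal): LA j at c.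
   E: if not Cx E c then U E = c so E = j mod p. If Cx E c: uniq at (c, al): E = m, but m does not cover x. So E = j: Cx j x, rows [al,D). lemS: Rw j (vx x).
-/

namespace Pool.Agent.H78.Tie

open Finset
open Pool.Agent.H98.Flat
open Pool.Agent.H67.Flat

set_option linter.dupNamespace false
set_option linter.unusedVariables false

namespace TAp

variable {A : TAp}

namespace NPH

variable {T : A.Tie}

/-- covers `c` but not `c + p`: right wall at `c` -/
theorem LemH_rw {c E : ℤ} (hc : (A.p : ℤ) ∣ c) (a : A.Cx E c) (b : ¬ A.Cx E (c + A.p)) :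
    A.NN ∣ c - (A.U E + A.W1) := by
  have p5 := A.p5
  obtain ⟨d, d0, d1, pd, hd⟩ := a.off hc
  have : d = A.W1 := by
    by_contra hne
    have h1 : d + A.p ≤ A.W1 := dvd_gap (dvd_add pd (dvd_refl _)) A.p_W1 (by omega)
    exact b (A.Cx_of (dvd_add hc (dvd_refl _)) (δ := d + A.p)
      (by rwa [show c + A.p - (A.U E + (d + A.p)) = c - (A.U E + d) by ring]) (by omega) h1)
  rwa [this] at hd

/-- covers `c + p` but not `c`: left wall at `c` -/
theorem LemH_lw {c E : ℤ} (hc : (A.p : ℤ) ∣ c) (a : A.Cx E (c + A.p)) (b : ¬ A.Cx E c) :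
    A.NN ∣ c - A.U E := by
  have p5 := A.p5
  obtain ⟨d, d0, d1, pd, hd⟩ := a.off (dvd_add hc (dvd_refl _))
  have : d = A.p := by
    by_contra hne
    have h1 : (A.p : ℤ) ≤ d := Int.le_of_dvd d0 pd
    exact b (A.Cx_of hc (δ := d - A.p)
      (by rwa [show c - (A.U E + (d - A.p)) = c + A.p - (A.U E + d) by ring]) (by omega) (by omega))
  rw [this] at hd
  rwa [show c + (A.p : ℤ) - (A.U E + A.p) = c - A.U E by ring] at hd

theorem LemH_k0 (A : TAp) : 1 ≤ A.k0 ∧ A.k0 ≤ 2 ∧ -2 ≤ A.sg - A.k0 ∧ A.sg - A.k0 ≤ -1 := by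
  unfold k0
  rcases A.hsg with h | h
  · rw [if_pos h, h]; norm_num
  · rw [if_neg (by rw [h]; norm_num), h]; norm_num

/-- a congruence mod `N = p q` for a multiple of `q` -/
theorem LemH_dq {z s : ℤ} (h : A.NN ∣ A.q * z - s) : ∃ l, s = A.q * l ∧ (A.p : ℤ) ∣ z - l := by
  have q6 := A.q6
  obtain ⟨r, hr⟩ := h
  unfold NN at hr
  refine ⟨z - A.p * r, by linear_combination -hr, ⟨r, by ring⟩⟩

theorem lemS (h : NPH A T) (hD : A.W1 < A.D) (hp : A.ph' = A.kp) {c m : ℤ} (hc : (A.p : ℤ) ∣ c)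
    (c0 : A.D + A.W1 ≤ c) (c1 : c < A.NN) (hg : A.gv A.y0 (c + A.p) = A.kp + 1)
    (hm : A.LA A.y0 c m) : A.Rw m (A.vx (c + A.p)) := by
  obtain ⟨s1, s2, s3, s4, s5, s6, s7, s8, s9⟩ := h.sz
  have hN := A.NN_pos
  have hW : A.W1 = A.q * A.w + A.sg := rfl
  have hWb := A.W1_bd
  have hsg := A.hsg
  obtain ⟨t1, t2, t3, t4⟩ := LemH_k0 A
  have hcp : (A.p : ℤ) ∣ c + A.p := dvd_add hc (dvd_refl _)
  obtain ⟨m0, m1, md⟩ := hm
  have hW0 : (A.p : ℤ) ≤ A.W1 := Int.le_of_dvd (by omega) A.p_W1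
  have hq : (0 : ℤ) < A.q := by omega
  have Cm : A.Cx m (c + A.p) := A.Cx_of hcp (δ := A.p)
    (by rwa [show c + (A.p : ℤ) - (A.U m + A.p) = c - A.U m by ring]) (by omega) hW0
  by_cases hl : A.y0 + 1 ≤ m
  · refine A.Rw_of (δ := A.q * (m - A.y0) - A.p + A.k0) ?_ ?_ ?_
    · unfold vx
      rw [V_eq, show c + A.p - A.k0 + A.q * A.y0
        - (A.U m + A.q * m - (A.q * (m - A.y0) - A.p + A.k0)) = c - A.U m by ring]
      exact md
    · have := mul_le_mul_of_nonneg_left (show (1 : ℤ) ≤ m - A.y0 by omega) hq.le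
      omega
    · have := mul_le_mul_of_nonneg_left (show m - A.y0 ≤ (A.h : ℤ) by omega) hq.le
      omega
  · exfalso
    have hm0 : m = A.y0 := by omega
    subst hm0
    have y0e : A.q * A.y0 = A.q - A.q * A.w := by unfold y0; ring
    have hVb : A.NN ∣ (c + A.q * A.y0) - A.V A.y0 := by
      rw [V_eq]
      rwa [show c + A.q * A.y0 - (A.U A.y0 + A.q * A.y0) = c - A.U A.y0 by ring]
    have ft := A.f_T (y := A.y0) (k := A.y0) (v := c + A.q * A.y0) le_rfl (by omega) hVb
    have g := A.gid' (y := A.y0) (x := c + A.p) (θ := A.p - A.k0 + 1) (by omega) (by omega)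
    rw [show c + A.p - A.k0 + A.q * A.y0 - (A.p - A.k0 + 1) = c + A.q * A.y0 - 1 by ring, hg] at g
    have Rm : A.Rw A.y0 (c + A.q * A.y0 - 1) := A.Rw_of (δ := 1)
      (by rwa [show c + A.q * A.y0 - 1 - (A.V A.y0 - 1) = c + A.q * A.y0 - A.V A.y0 by ring])
      one_pos (by
        have := mul_le_mul_of_nonneg_left (show (1 : ℤ) ≤ A.h by omega) hq.le
        omega)
    have r1 := A.Rv_of Cm Rm
    have r2 := h.Rv01 hcp (c + A.q * A.y0 - 1)
    have hw1 := mul_le_mul_of_nonneg_left s1 hq.le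
    have r3 := (h.rI2 hD hp (v := c + A.q * A.y0) (by omega) (by omega)).2
    omega

theorem LemH_step (h : NPH A T) (hD : A.W1 < A.D) (hp : A.ph' = A.kp) {al : ℤ} (al0 : 0 < al)
    (al1 : al < A.D) (hal : ∀ v, al ≤ v → v < A.D → A.fv A.y0 v = A.kp) {c : ℤ}
    (hc : (A.p : ℤ) ∣ c) (c0 : A.D + A.W1 ≤ c) (c1 : c + A.p ≤ A.NN)
    (hg : A.gv A.y0 (c + A.p) = A.kp + 1)
    (ih : A.D + A.W1 < c → A.gv A.y0 c = A.kp + 1 →
      ∃ m, A.Cx m c ∧ A.Rw m (A.vx c) ∧ ∀ v, al ≤ v → v < A.D → A.Rw m v) :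
    ∃ m, A.Cx m (c + A.p) ∧ A.Rw m (A.vx (c + A.p)) ∧ ∀ v, al ≤ v → v < A.D → A.Rw m v := by
  obtain ⟨s1, s2, s3, s4, s5, s6, s7, s8, s9⟩ := h.sz
  have hN := A.NN_pos
  have hW : A.W1 = A.q * A.w + A.sg := rfl
  have hWb := A.W1_bd
  have hsg := A.hsg
  obtain ⟨t1, t2, t3, t4⟩ := LemH_k0 A
  have hcp : (A.p : ℤ) ∣ c + A.p := dvd_add hc (dvd_refl _)
  have hW0 : (A.p : ℤ) ≤ A.W1 := Int.le_of_dvd (by omega) A.p_W1
  have hq : (0 : ℤ) < A.q := by omega
  have hDp := A.D_pos
  have y1 : -(A.w : ℤ) < A.y0 := by unfold y0; omega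
  have y2 : A.y0 ≤ 0 := by unfold y0; omega
  -- the rectangle E
  obtain ⟨E, E1, E2, -⟩ := h.single hcp (v0 := al) (v1 := A.D) al1 (by
    intro v v0 v1
    have b := h.beta (y := A.y0) (x := c + A.p) (v := v) y1 y2 hcp (by omega) c1 (by omega) v1
      (Or.inl (by omega))
    rw [hg, hal v v0 v1] at b
    omega)
  have gc : A.gv A.y0 c = A.kp ∨ (A.gv A.y0 c = A.kp + 1 ∧ A.D + A.W1 < c) := by
    by_cases hcc : A.D + A.W1 < c
    · have := h.rI3 hD hp hc hcc (by omega)
      by_cases hk : A.gv A.y0 c = A.kp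
      · exact Or.inl hk
      · exact Or.inr ⟨by omega, hcc⟩
    · left
      rw [← hp]
      exact h.g_inD hD hc (by omega) (by omega)
  rcases gc with gc | ⟨gc, c2⟩
  · rcases A.g_cases A.y0 hc with ⟨g, _⟩ | ⟨g, ⟨m, hm⟩, _⟩ | ⟨g, _⟩
    · omega
    · refine ⟨m, A.Cx_of hcp (δ := A.p) ?_ (by omega) hW0,
        h.lemS hD hp hc c0 (by omega) hg hm, ?_⟩
      · have := hm.2.2
        rwa [show c + (A.p : ℤ) - (A.U m + A.p) = c - A.U m by ring]
      · intro v v0 v1
        rcases h.outU hD hc (by omega) (by omega) g hm with ho | ⟨_, ho⟩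
        · rcases ho v (by omega) v1 with r | r
          · exact r
          · rw [hal v v0 v1, hg] at r
            omega
        · have := ho 0 le_rfl hDp
          rw [h.f_zero, gc] at this
          omega
    · omega
  · obtain ⟨m, m1, m2, m3⟩ := ih c2 gc
    by_cases hmx : A.Cx m (c + A.p)
    · refine ⟨m, hmx, ?_, m3⟩
      by_contra hno
      obtain ⟨δ, δ0, δ1, hδ⟩ := m2.off
      have δp : δ ≤ A.p := by
        by_contra hc'
        refine hno (A.Rw_of (δ := δ - A.p) ?_ (by omega) (by omega))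
        unfold vx at hδ ⊢
        rwa [show c + A.p - A.k0 + A.q * A.y0 - (A.V m - (δ - A.p))
          = c - A.k0 + A.q * A.y0 - (A.V m - δ) by ring]
      obtain ⟨d, d0, d1, pd, hd⟩ := hmx.off hcp
      have dp : d ≠ A.p := by
        intro hdp
        rw [hdp] at hd
        refine A.not_Cx hc (k := m) (δ := A.NN) ?_ (by omega) le_rfl m1
        rw [show c - (A.U m + A.NN) = (c + A.p - (A.U m + A.p)) - A.NN by ring]
        exact dvd_sub hd (dvd_refl _)
      have dp' : (A.p : ℤ) ≤ d := Int.le_of_dvd d0 pd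
      have dp2 : (A.p : ℤ) + A.p ≤ d :=
        dvd_gap (dvd_add (dvd_refl _) (dvd_refl _)) pd (by omega)
      -- t = vx c + δ
      have ht : A.NN ∣ (A.vx c + δ) - A.V m := by
        rwa [show A.vx c + δ - A.V m = A.vx c - (A.V m - δ) by ring]
      have hql : A.NN ∣ A.q * (m - A.y0) - (d + δ - A.p - A.k0) := by
        have := dvd_sub hd ht
        rw [V_eq] at this
        unfold vx at this
        rwa [show c + A.p - (A.U m + d) - (c - A.k0 + A.q * A.y0 + δ - (A.U m + A.q * m))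
          = A.q * (m - A.y0) - (d + δ - A.p - A.k0) by ring] at this
      obtain ⟨l, hl, hlp⟩ := LemH_dq hql
      have l0 : 0 < l := by
        by_contra hc'
        have := mul_le_mul_of_nonneg_left (show l ≤ 0 by omega) hq.le
        rw [mul_zero] at this
        omega
      have l1 : l < A.w := by
        by_contra hc'
        have := mul_le_mul_of_nonneg_left (show (A.w : ℤ) ≤ l by omega) hq.le
        omega
      have hV : A.NN ∣ (A.vx c + δ) - A.V (A.y0 + l) := by
        have h2 : (A.p : ℤ) ∣ m - (A.y0 + l) := by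
          rwa [show m - (A.y0 + l) = m - A.y0 - l by ring]
        have := dvd_add ht (A.V_cong h2)
        rwa [show A.vx c + δ - A.V m + (A.V m - A.V (A.y0 + l))
          = A.vx c + δ - A.V (A.y0 + l) by ring] at this
      have ft := A.f_T (y := A.y0) (k := A.y0 + l) (v := A.vx c + δ) (by omega) (by omega) hV
      have g := A.gid' (y := A.y0) (x := c + A.p) (θ := A.p - δ + 1) (by omega) (by omega)
      rw [show c + A.p - A.k0 + A.q * A.y0 - (A.p - δ + 1) = A.vx c + δ - 1 by unfold vx; ring,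
        hg] at g
      have Rm : A.Rw m (A.vx c + δ - 1) := A.Rw_of (δ := 1)
        (by rwa [show A.vx c + δ - 1 - (A.V m - 1) = A.vx c + δ - A.V m by ring])
        one_pos (by
          have := mul_le_mul_of_nonneg_left (show (1 : ℤ) ≤ A.h by omega) hq.le
          omega)
      have r1 := A.Rv_of hmx Rm
      have r2 := h.Rv01 hcp (A.vx c + δ - 1)
      have y0e : A.q * A.y0 = A.q - A.q * A.w := by unfold y0; ring
      have hw1 := mul_le_mul_of_nonneg_left s1 hq.le
      have vxe : A.vx c = c - A.k0 + A.q * A.y0 := rfl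
      have c3 : A.D + A.W1 + A.p ≤ c := by
        have := dvd_gap (dvd_add (dvd_add A.p_D A.p_W1) (dvd_refl _)) hc
          (show A.D + A.W1 + A.p < c + A.p by omega)
        exact this
      have r3 := (h.rI2 hD hp (v := A.vx c + δ) (by omega) (by omega)).2
      omega
    · have hmw := LemH_rw hc m1 hmx
      obtain ⟨δ, δ0, δ1, hδ⟩ := m2.off
      have hql : A.NN ∣ A.q * (m - A.y0 - A.w) - (δ + A.sg - A.k0) := by
        have := dvd_sub hmw hδ
        rw [V_eq] at this
        unfold vx at this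
        rwa [show c - (A.U m + A.W1) - (c - A.k0 + A.q * A.y0 - (A.U m + A.q * m - δ))
          = A.q * (m - A.y0 - A.w) - (δ + A.sg - A.k0) by rw [hW]; ring] at this
      obtain ⟨l, hl, hlp⟩ := LemH_dq hql
      have l0 : 0 ≤ l := by
        by_contra hc'
        have := mul_le_mul_of_nonneg_left (show l ≤ -1 by omega) hq.le
        omega
      have l1 : l < A.h := by
        by_contra hc'
        have := mul_le_mul_of_nonneg_left (show (A.h : ℤ) ≤ l by omega) hq.le
        omega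
      have hRA : A.RA A.y0 c (A.y0 + A.w + l) := by
        refine ⟨by omega, by omega, ?_⟩
        have h2 : (A.p : ℤ) ∣ m - (A.y0 + A.w + l) := by
          rwa [show m - (A.y0 + A.w + l) = m - A.y0 - A.w - l by ring]
        have := dvd_add hmw (A.U_cong h2)
        rwa [show c - (A.U m + A.W1) + (A.U m - A.U (A.y0 + A.w + l))
          = c - (A.U (A.y0 + A.w + l) + A.W1) by ring] at this
      obtain ⟨j, hj⟩ : ∃ j, A.LA A.y0 c j := by
        rcases A.g_cases A.y0 hc with ⟨g, gg⟩ | ⟨g, _⟩ | ⟨g, _⟩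
        · exact gg.2 ⟨_, hRA⟩
        · omega
        · omega
      have hEc : ¬ A.Cx E c := by
        intro hE
        have h1 := h.uniq hc hE (E2 al le_rfl al1) m1 (m3 al le_rfl al1)
        exact hmx (A.Cx_congr h1 (by simp) E1)
      have hEw := LemH_lw hc E1 hEc
      have hEj : (A.p : ℤ) ∣ E - j := A.UU (by
        have := dvd_sub hj.2.2 hEw
        rwa [show c - A.U j - (c - A.U E) = A.U E - A.U j by ring] at this)
      exact ⟨j, A.Cx_congr hEj (by simp) E1, h.lemS hD hp hc c0 (by omega) hg hj,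
        fun v v0 v1 => A.Rw_congr hEj (by simp) (E2 v v0 v1)⟩

theorem lemH (h : NPH A T) (hD : A.W1 < A.D) (hp : A.ph' = A.kp) {al : ℤ} (al0 : 0 < al)
    (al1 : al < A.D) (hal : ∀ v, al ≤ v → v < A.D → A.fv A.y0 v = A.kp) {x : ℤ}
    (hx : (A.p : ℤ) ∣ x) (x0 : A.D + A.W1 < x) (x1 : x ≤ A.NN)
    (hg : A.gv A.y0 x = A.kp + 1) :
    ∃ m, A.Cx m x ∧ A.Rw m (A.vx x) ∧ ∀ v, al ≤ v → v < A.D → A.Rw m v := by
  have p5 := A.p5
  have key : ∀ n : ℕ, ∀ x : ℤ, (A.p : ℤ) ∣ x → A.D + A.W1 < x → x ≤ A.NN →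
      A.gv A.y0 x = A.kp + 1 → x ≤ A.D + A.W1 + A.p * n →
      ∃ m, A.Cx m x ∧ A.Rw m (A.vx x) ∧ ∀ v, al ≤ v → v < A.D → A.Rw m v := by
    intro n
    induction n with
    | zero =>
      intro x hx x0 x1 hg hn
      simp at hn
      omega
    | succ n ih =>
      intro x hx x0 x1 hg hn
      push_cast at hn
      rw [mul_add, mul_one] at hn
      have hc : (A.p : ℤ) ∣ x - A.p := dvd_sub hx (dvd_refl _)
      have c0 : A.D + A.W1 ≤ x - A.p :=
        dvd_gap (dvd_add A.p_D A.p_W1) hc (by omega)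
      have := LemH_step h hD hp al0 al1 hal (c := x - A.p) hc c0 (by omega)
        (by rwa [sub_add_cancel]) (fun a b => ih (x - A.p) hc a (by omega) b (by omega))
      rwa [sub_add_cancel] at this
  exact key (x - (A.D + A.W1)).toNat x hx x0 x1 hg (by
    have h1 : (((x - (A.D + A.W1)).toNat : ℕ) : ℤ) = x - (A.D + A.W1) :=
      Int.toNat_of_nonneg (by omega)
    rw [h1]
    have := mul_le_mul_of_nonneg_right (show (1 : ℤ) ≤ A.p by omega)
      (show (0 : ℤ) ≤ x - (A.D + A.W1) by omega)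
    omega)

end NPH

end TAp

end Pool.Agent.H78.Tie
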