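import Pool.Agent.H67.NP.Phi

/-! # NoPass : Line

evt_out: T event (k in [1-w,0]): U k = b - q k mod N; B event (k in [h-w+1,h]): U k = b + q(h-k). In both cases
U k = b + e with 0 <= e <= q(w-1).  Cx k c and Cx k (c+p): c = U k + d, 0 < d < W1 mod N (Cx.off; d+p<=W1).  c in (W1,D), b in [D,N):
b + e + d = c + N (it is > c and < c + 2N), so u' := b + e - N = c - d is > 0 and u' <= q(w-1) < qw;
V k = u' + q k (T: = b - N in (-q(w-1), 0); B: u' + q k = b - N + q h in (0, qh)): nov0 with u = u': k = sig: U_sig: u' = -W1 mod N no.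
k = 0 mod p (T, k = 0): then b = 0 mod N: no.
evt_in: evD: b <= D - W1; U k = b + e < D, columns of k are in (b+e, b+e+W1], b + e + W1 <= D + q(w-1): so c <= D + W1 (c strictly
inside), contradiction with act_D (c > D).
inD: let g1 = gv y0 c, gamma = g1 - 1 = gv (c+p). c > W1 by act_in.  Suppose not Rw k v.
 (1) Rv (c+p) v = Rv c v: if Rv (c+p) v = 1 by E (Cx E (c+p), Rw E v): if not Cx E c then (U E = c mod N) Rv c v = 0 or 1; if
  Rv c v = 0 then F(c+p) - F(c) = 2 so F(c+p) = 1 but alpha (x = c + p <= D, W1 < c+p) says F <= 0.  If Rv c v = 1 fine (equal).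
  If Rv c v = 1 by E' and Rv (c+p) v = 0: E' does not cover c + p so U E' + W1 = c, so E' = k (UU): Rw k v, contradiction.
 (2) rho := Rv; alpha at c+p: rho - gamma + f <= 0; Fb at c: rho - gamma - 1 + f >= -1. So f = gamma - rho.
 (3) if rho = 1: E covers (c+p, v); claim E covers c: otherwise U E = c and E' covering (c,v) does not cover c+p (uniq) so E' = k. no.
  b := V E - q h + (multiple of N) with b <= v < b + q h. If D + 1 <= b: rows b - 1, b are in [D,N); both not in rows(k)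
  (uniq/abut at column c: k covers c: RA; E would be = k, but k does not cover c + p); (2) at b: f(b) = gamma - 1 (rho(b)=1), at b-1:
  rho = 0 (abut), f(b-1) = gamma.  f_cases: B event (Ev with VV: its row is E mod p); evt_out with that row: contradiction.
  If b <= D: top t := b + q h, v < t <= D + q h < N: rows t - 1, t in [D,N): same with a T event.
inU: the same with the roles of c and c+p exchanged (k covers c+p; (1): F(c) - F(c+p) = 2 so F(c) = 1, alpha at x = c).
-/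

namespace Pool.Agent.H78.Tie

open Finset
open Pool.Agent.H98.Flat
open Pool.Agent.H67.Flat

set_option linter.dupNamespace false
set_option linter.unusedVariables false

namespace TAp

variable {A : TAp}

namespace NPH

variable {T : A.Tie}

/-- the position of the left wall of a row with an event at the height `b` -/
theorem Line_ev {b k : ℤ} (hk : A.Ev A.y0 b k) : ∃ e, 0 ≤ e ∧ e ≤ A.q * ((A.w : ℤ) - 1) ∧
    A.NN ∣ b + e - A.U k ∧
    ((1 - (A.w : ℤ) ≤ k ∧ k ≤ 0 ∧ e = -(A.q * k)) ∨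
     ((A.h : ℤ) - A.w + 1 ≤ k ∧ k ≤ A.h ∧ e = A.q * (A.h - k))) := by
  have q6 := A.q6
  unfold Ev y0 at hk
  rcases hk with ⟨k0, k1, d⟩ | ⟨k0, k1, d⟩
  · rw [V_eq] at d
    refine ⟨-(A.q * k), ?_, ?_, ?_, Or.inl ⟨k0, by omega, rfl⟩⟩
    · have := mul_nonneg (show (0 : ℤ) ≤ A.q by omega) (show (0 : ℤ) ≤ -k by omega)
      rw [mul_neg] at this
      exact this
    · have := mul_le_mul_of_nonneg_left (show -k ≤ (A.w : ℤ) - 1 by omega)
        (show (0 : ℤ) ≤ A.q by omega)
      rw [mul_neg] at this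
      exact this
    · rwa [show b + -(A.q * k) - A.U k = b - (A.U k + A.q * k) by ring]
  · rw [V_eq] at d
    refine ⟨A.q * (A.h - k), ?_, ?_, ?_, Or.inr ⟨by omega, by omega, rfl⟩⟩
    · exact mul_nonneg (show (0 : ℤ) ≤ A.q by omega) (show (0 : ℤ) ≤ A.h - k by omega)
    · exact mul_le_mul_of_nonneg_left (show (A.h : ℤ) - k ≤ (A.w : ℤ) - 1 by omega)
        (show (0 : ℤ) ≤ A.q by omega)
    · rwa [show b + A.q * (A.h - k) - A.U k = b - (A.U k + A.q * k - A.q * A.h) by ring]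

theorem Line_W1 (A : TAp) : A.W1 = A.q * A.w + A.sg := rfl

theorem evt_out (h : NPH A T) (hD : A.W1 < A.D) {c k b : ℤ} (hc : (A.p : ℤ) ∣ c) (c0 : A.W1 < c)
    (c1 : c < A.D) (b0 : A.D ≤ b) (b1 : b < A.NN) (hk : A.Ev A.y0 b k) (a : A.Cx k c)
    (a' : A.Cx k (c + A.p)) : False := by
  obtain ⟨s1, s2, s3, s4, s5, s6, s7, s8, s9⟩ := h.sz
  have hN := A.NN_pos
  have hW := Line_W1 A
  have hsg := A.hsg
  have hWb := A.W1_bd
  have hDN : A.D + A.q * A.w < A.NN := A.D_W'
  obtain ⟨e, e0, e1, he, hcase⟩ := Line_ev hk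
  obtain ⟨d, d0, d1, pd, hd⟩ := a.off hc
  have ew : A.q * ((A.w : ℤ) - 1) = A.q * A.w - A.q := by ring
  -- u' = c - d
  have hu : A.NN ∣ (c - d) - A.U k := by
    rwa [show c - d - A.U k = c - (A.U k + d) by ring]
  have hue : A.NN ∣ (b + e) - (c - d) := by
    have := dvd_sub he hu
    rwa [show b + e - A.U k - (c - d - A.U k) = (b + e) - (c - d) by ring] at this
  have hqw : A.q * (A.w : ℤ) < A.NN := by have := A.D_pos; omega
  have heq : (b + e) - (c - d) = A.NN := by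
    obtain ⟨z, hz⟩ := hue
    have z1 : z = 1 := by
      have z0 : 0 < z := by
        by_contra hc'
        have := mul_le_mul_of_nonneg_left (show z ≤ 0 by omega) hN.le
        rw [mul_zero] at this
        omega
      have z2 : z < 2 := by
        by_contra hc'
        have := mul_le_mul_of_nonneg_left (show (2 : ℤ) ≤ z by omega) hN.le
        omega
      omega
    rw [z1, mul_one] at hz
    exact hz
  have hq : (0 : ℤ) < A.q := by omega
  have hnd : ¬ (A.p : ℤ) ∣ k := by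
    intro hp
    rcases hcase with ⟨k0, k1, ke⟩ | ⟨k0, k1, ke⟩
    · have hk0 : k = 0 := Int.eq_zero_of_abs_lt_dvd hp (by rw [abs_lt]; constructor <;> omega)
      rw [hk0, mul_zero] at ke
      rw [hk0, U_zero'] at he
      have := Int.le_of_dvd (by have := A.D_pos; omega) he
      omega
    · have := Int.le_of_dvd (by omega) hp
      omega
  have hv : -(A.q * (A.h : ℤ)) < (c - d) + A.q * k ∧ (c - d) + A.q * k < A.q * A.h := by
    rcases hcase with ⟨k0, k1, ke⟩ | ⟨k0, k1, ke⟩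
    · have m1 := mul_le_mul_of_nonneg_left k0 hq.le
      have m2 := mul_le_mul_of_nonneg_left s2 hq.le
      have m3 : A.q * (1 - (A.w : ℤ)) = A.q - A.q * A.w := by ring
      have m4 : A.q * ((A.w : ℤ) + 1) = A.q * A.w + A.q := by ring
      have m5 : (0 : ℤ) ≤ A.q * A.h := by positivity
      constructor <;> omega
    · have m1 := mul_le_mul_of_nonneg_left k0 hq.le
      have m2 := mul_le_mul_of_nonneg_left s2 hq.le
      have m3 : A.q * ((A.h : ℤ) - A.w + 1) = A.q * A.h - A.q * A.w + A.q := by ring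
      have m4 : A.q * ((A.w : ℤ) + 1) = A.q * A.w + A.q := by ring
      have m5 : A.q * ((A.h : ℤ) - k) = A.q * A.h - A.q * k := by ring
      constructor <;> omega
  have hs := h.nov0 hnd hu (by omega) (by omega) hv.1 hv.2
  have hUs := A.U_cong (k := k) (j := T.sig) hs
  have h3 : A.NN ∣ (c - d) + A.W1 := by
    have := dvd_add (dvd_add hu hUs) h.U_sig
    rwa [show c - d - A.U k + (A.U k - A.U T.sig) + (A.U T.sig + A.W1) = (c - d) + A.W1 by ring]
      at this
  have := Int.le_of_dvd (by omega) h3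
  omega

theorem evt_in (h : NPH A T) (hD : A.W1 < A.D) {c k b : ℤ} (hc : (A.p : ℤ) ∣ c) (c0 : A.D < c)
    (c1 : c < A.NN) (hg : A.gv A.y0 (c + A.p) ≠ A.gv A.y0 c) (b0 : 0 < b) (b1 : b < A.D)
    (hk : A.Ev A.y0 b k) (a : A.Cx k c) (a' : A.Cx k (c + A.p)) : False := by
  obtain ⟨s1, s2, s3, s4, s5, s6, s7, s8, s9⟩ := h.sz
  have hN := A.NN_pos
  have hW := Line_W1 A
  have hsg := A.hsg
  have c2 : A.D + A.W1 < c := by
    by_contra hc'
    exact hg (h.act_D hD hc c0.le (by omega))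
  have b2 : b ≤ A.D - A.W1 := by
    by_contra hc'
    exact h.evD hD (v := b) (k := k) (by omega) (by omega) hk
  obtain ⟨e, e0, e1, he, hcase⟩ := Line_ev hk
  obtain ⟨d, d0, d1, pd, hd⟩ := a.off hc
  have ew : A.q * ((A.w : ℤ) - 1) = A.q * A.w - A.q := by ring
  have hu : A.NN ∣ (c - d) - (b + e) := by
    have := dvd_sub hd he
    rwa [show c - (A.U k + d) - (b + e - A.U k) = (c - d) - (b + e) by ring] at this
  have := Int.le_of_dvd (by omega) hu
  omega

/-- covers `c` but not `c + p`: right wall at `c` -/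
theorem Line_rw {c E : ℤ} (hc : (A.p : ℤ) ∣ c) (a : A.Cx E c) (b : ¬ A.Cx E (c + A.p)) :
    A.NN ∣ c - (A.U E + A.W1) := by
  have p5 := A.p5
  obtain ⟨d, d0, d1, pd, hd⟩ := a.off hc
  have : d = A.W1 := by
    by_contra hne
    have h1 : d + A.p ≤ A.W1 := dvd_gap (dvd_add pd (dvd_refl _)) A.p_W1 (by omega)
    exact b (A.Cx_of (dvd_add hc (dvd_refl _)) (δ := d + A.p)
      (by rwa [show c + A.p - (A.U E + (d + A.p)) = c - (A.U E + d) by ring]) (by omega) h1)
  rwa [this] at hd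

/-- covers `c + p` but not `c`: left wall at `c` -/
theorem Line_lw {c E : ℤ} (hc : (A.p : ℤ) ∣ c) (a : A.Cx E (c + A.p)) (b : ¬ A.Cx E c) :
    A.NN ∣ c - A.U E := by
  have p5 := A.p5
  obtain ⟨d, d0, d1, pd, hd⟩ := a.off (dvd_add hc (dvd_refl _))
  have : d = A.p := by
    by_contra hne
    have h1 : (A.p : ℤ) ≤ d := Int.le_of_dvd d0 pd
    exact b (A.Cx_of hc (δ := d - A.p)
      (by rwa [show c - (A.U E + (d - A.p)) = c + A.p - (A.U E + d) by ring]) (by omega) (by omega))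
  rw [this] at hd
  rwa [show c + (A.p : ℤ) - (A.U E + A.p) = c - A.U E by ring] at hd

theorem Line_core (h : NPH A T) (hD : A.W1 < A.D) {c k x gam : ℤ} (hc : (A.p : ℤ) ∣ c)
    (c0 : A.W1 < c) (c1 : c < A.D) (hx : (A.p : ℤ) ∣ x) (hk : A.Cx k x)
    (hk' : ¬ (A.Cx k c ∧ A.Cx k (c + A.p)))
    (X : ∀ v, A.D ≤ v → v < A.NN → ¬ A.Rw k v → A.fv A.y0 v = gam - A.Rv x v)
    (S : ∀ v E, A.D ≤ v → v < A.NN → ¬ A.Rw k v → A.Cx E x → A.Rw E v →
      A.Cx E c ∧ A.Cx E (c + A.p)) {v : ℤ}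
    (v0 : A.D ≤ v) (v1 : v < A.NN) : A.Rw k v ∨ A.fv A.y0 v = gam := by
  by_contra hcon
  rw [not_or] at hcon
  obtain ⟨n1, n2⟩ := hcon
  have hN := A.NN_pos
  have q6 := A.q6
  have hDH := A.D_H'
  have hDp := A.D_pos
  have hqh : (0 : ℤ) < A.q * A.h := by
    have := A.hh
    have : (0 : ℤ) < A.h := by omega
    positivity
  have hX := X v v0 v1 n1
  have hR : A.Rv x v = 1 := by
    rcases h.Rv01 hx v with r | r
    · rw [r] at hX
      exact absurd (by rw [hX]; ring) n2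
    · exact r
  obtain ⟨E, E1, E2⟩ := A.Rv_ex (x := x) (v := v) (by omega)
  obtain ⟨Ec, Ecp⟩ := S v E v0 v1 n1 E1 E2
  have nkE : ¬ (A.p : ℤ) ∣ k - E := by
    intro hp
    have hp' : (A.p : ℤ) ∣ E - k := by
      have := (dvd_neg (a := (A.p : ℤ))).2 hp
      rwa [show -(k - E) = E - k by ring] at this
    exact hk' ⟨A.Cx_congr hp' (by simp) Ec, A.Cx_congr hp' (by simp) Ecp⟩
  have nk_same : ∀ z, A.Rw E z → ¬ A.Rw k z := fun z hz hkz => nkE (h.uniq hx hk hkz E1 hz)
  obtain ⟨δ, δ0, δ1, hδ⟩ := E2.off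
  -- bottom of E
  set b := v - (A.q * A.h - δ) with hb
  have hbE : A.NN ∣ b - (A.V E - A.q * A.h) := by
    rwa [show b - (A.V E - A.q * A.h) = v - (A.V E - δ) by rw [hb]; ring]
  by_cases hbD : A.D + 1 ≤ b
  · have Eb : A.Rw E b := A.Rw_of hbE hqh le_rfl
    have Eb' : ¬ A.Rw E (b - 1) := A.not_Rw (δ := A.q * A.h + 1)
      (by rwa [show b - 1 - (A.V E - (A.q * A.h + 1)) = b - (A.V E - A.q * A.h) by ring])
      (by omega) (by omega)
    have k1 : ¬ A.Rw k b := nk_same b Eb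
    have k2 : ¬ A.Rw k (b - 1) := fun hk2 => nkE (h.abut hx hk hk2 E1 Eb)
    have R1 : A.Rv x b = 1 := by
      have := A.Rv_of E1 Eb
      rcases h.Rv01 hx b with r | r <;> omega
    have R0 : A.Rv x (b - 1) = 0 := by
      rcases h.Rv01 hx (b - 1) with r | r
      · exact r
      · exfalso
        obtain ⟨E', e1, e2⟩ := A.Rv_ex (x := x) (v := b - 1) (by omega)
        exact Eb' (A.Rw_congr (h.abut hx e1 e2 E1 Eb) (by simp) e2)
    have f1 := X b (by omega) (by omega) k1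
    have f0 := X (b - 1) (by omega) (by omega) k2
    rcases A.f_cases A.y0 b with ⟨g, _⟩ | ⟨g, _⟩ | ⟨g, k', a1, a2, a3⟩
    · omega
    · omega
    · have hkE : (A.p : ℤ) ∣ E - k' := A.VV (by
        have := dvd_sub a3 hbE
        rwa [show b - (A.V k' - A.q * A.h) - (b - (A.V E - A.q * A.h)) = A.V E - A.V k' by ring]
          at this)
      exact h.evt_out hD hc c0 c1 (b := b) (k := k') (by omega) (by omega) (Or.inr ⟨a1, a2, a3⟩)
        (A.Cx_congr hkE (by simp) Ec) (A.Cx_congr hkE (by simp) Ecp)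
  · set t := b + A.q * A.h with ht
    have htE : A.NN ∣ t - A.V E := by
      rwa [show t - A.V E = b - (A.V E - A.q * A.h) by rw [ht]; ring]
    have Et : A.Rw E (t - 1) := A.Rw_of (δ := 1)
      (by rwa [show t - 1 - (A.V E - 1) = t - A.V E by ring]) one_pos (by omega)
    have Et' : ¬ A.Rw E t := A.not_Rw (δ := A.NN)
      (by rw [show t - (A.V E - A.NN) = (t - A.V E) + A.NN by ring]; exact dvd_add htE (dvd_refl _))
      (by omega) le_rfl
    have k1 : ¬ A.Rw k (t - 1) := nk_same _ Et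
    have k2 : ¬ A.Rw k t := fun hk2 => nkE (by
      have := h.abut hx E1 Et hk hk2
      have := (dvd_neg (a := (A.p : ℤ))).2 this
      rwa [show -(E - k) = k - E by ring] at this)
    have R1 : A.Rv x (t - 1) = 1 := by
      have := A.Rv_of E1 Et
      rcases h.Rv01 hx (t - 1) with r | r <;> omega
    have R0 : A.Rv x t = 0 := by
      rcases h.Rv01 hx t with r | r
      · exact r
      · exfalso
        obtain ⟨E', e1, e2⟩ := A.Rv_ex (x := x) (v := t) (by omega)
        have := h.abut hx E1 Et e1 e2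
        have := (dvd_neg (a := (A.p : ℤ))).2 this
        rw [show -(E - E') = E' - E by ring] at this
        exact Et' (A.Rw_congr this (by simp) e2)
    have f1 := X (t - 1) (by omega) (by omega) k1
    have f0 := X t (by omega) (by omega) k2
    rcases A.f_cases A.y0 t with ⟨g, _⟩ | ⟨g, k', a1, a2, a3⟩ | ⟨g, _⟩
    · omega
    · have hkE : (A.p : ℤ) ∣ E - k' := A.VV (by
        have := dvd_sub a3 htE
        rwa [show t - A.V k' - (t - A.V E) = A.V E - A.V k' by ring] at this)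
      exact h.evt_out hD hc c0 c1 (b := t) (k := k') (by omega) (by omega) (Or.inl ⟨a1, a2, a3⟩)
        (A.Cx_congr hkE (by simp) Ec) (A.Cx_congr hkE (by simp) Ecp)
    · omega

/-- **down line `c` inside**: outside the rows of its rectangle `f` is the lower value of `g` -/
theorem inD (h : NPH A T) (hD : A.W1 < A.D) {c k : ℤ} (hc : (A.p : ℤ) ∣ c) (c0 : 0 < c)
    (c1 : c < A.D) (hg : A.gv A.y0 (c + A.p) = A.gv A.y0 c - 1) (hk : A.RA A.y0 c k) {v : ℤ}
    (v0 : A.D ≤ v) (v1 : v < A.NN) : A.Rw k v ∨ A.fv A.y0 v = A.gv A.y0 (c + A.p) := by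
  obtain ⟨s1, s2, s3, s4, s5, s6, s7, s8, s9⟩ := h.sz
  have hWb := A.W1_bd
  have hcp : (A.p : ℤ) ∣ c + A.p := dvd_add hc (dvd_refl _)
  have c2 : A.W1 < c := by
    by_contra hc'
    have := h.act_in hD hc c0.le (by omega)
    omega
  have c3 : c + A.p ≤ A.D := dvd_gap hcp A.p_D (by omega)
  obtain ⟨k0, k1, kd⟩ := hk
  have Kc : A.Cx k c := A.Cx_of hc kd (by omega) le_rfl
  have Kc' : ¬ A.Cx k (c + A.p) := A.not_Cx hcp (δ := A.W1 + A.p)
    (by rwa [show c + (A.p : ℤ) - (A.U k + (A.W1 + A.p)) = c - (A.U k + A.W1) by ring])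
    (by omega) (by omega)
  have y1 : -(A.w : ℤ) < A.y0 := by unfold y0; omega
  have y2 : A.y0 ≤ 0 := by unfold y0; omega
  -- a rectangle covering c with row v, v not a row of k, covers c + p
  have S : ∀ v E, A.D ≤ v → v < A.NN → ¬ A.Rw k v → A.Cx E c → A.Rw E v →
      A.Cx E c ∧ A.Cx E (c + A.p) := by
    intro v E _ _ nk E1 E2
    refine ⟨E1, ?_⟩
    by_contra hn
    have h1 := Line_rw hc E1 hn
    have h2 : (A.p : ℤ) ∣ E - k := A.UU (by
      have := dvd_sub kd h1
      rwa [show c - (A.U k + A.W1) - (c - (A.U E + A.W1)) = A.U E - A.U k by ring] at this)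
    exact nk (A.Rw_congr h2 (by simp) E2)
  refine Line_core h hD hc c2 c1 hc Kc (fun hh => Kc' hh.2) ?_ S v0 v1
  intro v v0 v1 nk
  have al := h.alpha y1 y2 hcp (by omega) c3 v0 v1 (Or.inl (by omega))
  have fb := (h.Fb hc A.y0 v).1
  rcases h.Rv01 hc v with r | r
  · rcases h.Rv01 hcp v with r' | r'
    · omega
    · omega
  · obtain ⟨E, E1, E2⟩ := A.Rv_ex (x := c) (v := v) (by omega)
    have := A.Rv_of (S v E v0 v1 nk E1 E2).2 E2
    omega

/-- **up line `c` inside** -/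
theorem inU (h : NPH A T) (hD : A.W1 < A.D) {c k : ℤ} (hc : (A.p : ℤ) ∣ c) (c0 : 0 < c)
    (c1 : c < A.D) (hg : A.gv A.y0 (c + A.p) = A.gv A.y0 c + 1) (hk : A.LA A.y0 c k) {v : ℤ}
    (v0 : A.D ≤ v) (v1 : v < A.NN) : A.Rw k v ∨ A.fv A.y0 v = A.gv A.y0 c := by
  obtain ⟨s1, s2, s3, s4, s5, s6, s7, s8, s9⟩ := h.sz
  have hWb := A.W1_bd
  have hcp : (A.p : ℤ) ∣ c + A.p := dvd_add hc (dvd_refl _)
  have c2 : A.W1 < c := by
    by_contra hc'
    have := h.act_in hD hc c0.le (by omega)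
    omega
  have hW0 : (A.p : ℤ) ≤ A.W1 := Int.le_of_dvd (by omega) A.p_W1
  obtain ⟨k0, k1, kd⟩ := hk
  have Kc : A.Cx k (c + A.p) := A.Cx_of hcp (δ := A.p)
    (by rwa [show c + (A.p : ℤ) - (A.U k + A.p) = c - A.U k by ring]) (by omega) hW0
  have Kc' : ¬ A.Cx k c := A.not_Cx hc (δ := A.NN)
    (by rw [show c - (A.U k + A.NN) = (c - A.U k) - A.NN by ring]; exact dvd_sub kd (dvd_refl _))
    (by omega) le_rfl
  have y1 : -(A.w : ℤ) < A.y0 := by unfold y0; omega
  have y2 : A.y0 ≤ 0 := by unfold y0; omega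
  have S : ∀ v E, A.D ≤ v → v < A.NN → ¬ A.Rw k v → A.Cx E (c + A.p) → A.Rw E v →
      A.Cx E c ∧ A.Cx E (c + A.p) := by
    intro v E _ _ nk E1 E2
    refine ⟨?_, E1⟩
    by_contra hn
    have h1 := Line_lw hc E1 hn
    have h2 : (A.p : ℤ) ∣ E - k := A.UU (by
      have := dvd_sub kd h1
      rwa [show c - A.U k - (c - A.U E) = A.U E - A.U k by ring] at this)
    exact nk (A.Rw_congr h2 (by simp) E2)
  refine Line_core h hD hc c2 c1 hcp Kc (fun hh => Kc' hh.1) ?_ S v0 v1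
  intro v v0 v1 nk
  have al := h.alpha y1 y2 hc c0 c1.le v0 v1 (Or.inl (by omega))
  have fb := (h.Fb hcp A.y0 v).1
  rcases h.Rv01 hcp v with r | r
  · rcases h.Rv01 hc v with r' | r'
    · omega
    · omega
  · obtain ⟨E, E1, E2⟩ := A.Rv_ex (x := c + A.p) (v := v) (by omega)
    have := A.Rv_of (S v E v0 v1 nk E1 E2).1 E2
    omega

end NPH

end TAp

end Pool.Agent.H78.Tie
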