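import Pool.Agent.H67.NP.MainO

/-! # NoPass : MainD

Main level near class p (place of R_p: columns (D, D+W1], rows [D-qh, D)), W1 < D.
f_inD: no event at v in (D-W1, D]: T: row k in [1-w,0], k <> 0 (V 0 = 0 and 0 < v < N): u := v - q k, u - D in (-W1, q(w-1)]
 (so > -qw as p | u - D), u - D + q k = v - D in (-qh,qh): nov1: p | k + sig: impossible.
 B: row k in [h-w+1,h]: u := v + q(h-k), u - D in (-W1, q(w-1)], u - D + q k = v - D + qh <= qh, and = qh only for v = D,
 k = h (p | v - D + q(h-k)...: v = D forces p | q(h-k) so k = h, U k = D: U_ne_D). nov1: p | k + sig: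
 k in [h-w+1,h], k + sig in (h, 2h] , = p impossible as 2h < p.
act_in: 0 <= c < W1: act0; c = W1: LA k at W1: U k = W1 = U 0 + W1; use LR-like argument: ix k = -t impossible, second tie
 (partner/sec_row/Single) impossible as in LR; RA k: U k = 0 mod N so k = 0 mod p: row in [1,h] no.
act_D: c = D: LA k: U_ne_D. RA k: U k = D - W1, class p + t : a(ix k) = a(p+t) - use nov1 is not enough: q | ix k - p - t,
 0 < p + t - ix k < 2p; = q: then Single/sec_row as in LR, or: U k + W1 = D means u - D = -W1, u - D + q k = -W1 + q k in (-qh,qh);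
 if sg = -1 this is nov1 (k + sig = p no).  (sg = 1: use partner-type argument.)
 D < c < D + W1: LA k: u := c, u - D in (0,W1) so < qw.., row k <= h - w: nov1: p | k + sig: k in [1-w,h-w], no.
 RA k: u := c - W1, u - D in (-W1,0), k in [1,h]: nov1: p | k + sig: sig + k <= 2h < p no.
 c = D + W1: LA k: U k = D + W1 = U(-sig): UU: p | k + sig no.  RA k: U k = D: U_ne_D.
g_inD: g_const from act_D; value: gid' at x = D + p, th = 0: v = D + p - k0 - q(w-1) in [D - W1, D), R = 0 (R_D), f = ph'.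
R_D: if 1 <= Rv: row k with Cx k x, Rw k v: k = 0 mod p: column x > D > W1 is not covered by row 0 (x <= D + W1 < N);
 else u := lift of U k with x - W1 <= u < x, u - D in [-W1+p.., W1-p]: |.| < qw, and the rows of k meet [D-qh,D): |u - D + q k'| < qh
 for a suitable representative k' of k mod p: nov1: p | k + sig: U k = D + W1: does not cover x <= D + W1.
-/

namespace Pool.Agent.H78.Tie

open Finset
open Pool.Agent.H98.Flat
open Pool.Agent.H67.Flat

set_option linter.dupNamespace false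
set_option linter.unusedVariables false

namespace TAp

variable {A : TAp}

/-- divisors: `p` does not divide `q` times a small number -/
theorem pq_small (A : TAp) {j : ℤ} (hd : (A.p : ℤ) ∣ A.q * j) : (A.p : ℤ) ∣ j := by
  have h1 : (A.p : ℤ) ∣ A.W1 * j := A.p_W1.mul_right j
  have h2 : (A.p : ℤ) ∣ A.sg * j := by
    have h3 : (A.p : ℤ) ∣ A.q * j * A.w := hd.mul_right _
    have := dvd_sub h1 h3
    unfold W1 at this
    rwa [show (A.q * A.w + A.sg) * j - A.q * j * A.w = A.sg * j by ring] at this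
  rcases A.hsg with h | h <;> rw [h] at h2
  · rwa [one_mul] at h2
  · rw [neg_one_mul] at h2
    exact (dvd_neg).1 h2

theorem kc' (A : TAp) : (A.sg = 1 ∧ A.k0 = 2) ∨ (A.sg = -1 ∧ A.k0 = 1) := by
  unfold k0
  rcases A.hsg with h | h
  · left; exact ⟨h, by rw [if_pos h]⟩
  · right; exact ⟨h, by rw [if_neg (by omega)]⟩


namespace NPH

variable {T : A.Tie}

/-- sizes of products -/
theorem prods (h : NPH A T) : 0 < (A.q : ℤ) * A.w ∧ A.q * A.w + A.q ≤ (A.q : ℤ) * A.h ∧
    (A.q : ℤ) * A.h + A.q ≤ A.NN ∧ A.W1 < A.q * A.h := by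
  obtain ⟨s1, s2, s3, s4, s5, s6, s7, s8, s9⟩ := h.sz
  have hq := A.q_pos'
  have hsg := A.hsg
  have hW1 : A.W1 = A.q * A.w + A.sg := rfl
  have e1 : (A.q : ℤ) * (A.w + 1) ≤ A.q * A.h := mul_le_mul_of_nonneg_left (by omega) hq.le
  have e2 : (A.q : ℤ) * (A.h + 1) ≤ A.q * A.p := mul_le_mul_of_nonneg_left (by omega) hq.le
  have e3 : (A.p : ℤ) * A.q = A.q * A.p := mul_comm _ _
  rw [mul_add, mul_one] at e1 e2
  have e0 : 0 < (A.q : ℤ) * A.w := mul_pos hq (by omega)
  refine ⟨e0, e1, ?_, ?_⟩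
  · unfold NN; omega
  · rcases hsg with h | h <;> rw [h] at hW1 <;> omega

/-- no class other than `0`, `±σ` near class `p` -/
theorem nov1' (h : NPH A T) {k u : ℤ} (hu : A.NN ∣ u - A.U k)
    (u0 : -A.W1 < u - A.D) (u1 : u - A.D < A.W1)
    (v0 : -(A.q * (A.h : ℤ)) < u - A.D + A.q * k) (v1 : u - A.D + A.q * k < A.q * A.h)
    (k1 : ¬ (A.p : ℤ) ∣ k) : (A.p : ℤ) ∣ k + T.sig := by
  have hW1 : A.W1 = A.q * A.w + A.sg := rfl
  have p5 := A.p5
  have hp : (A.p : ℤ) ∣ u - A.D := by
    have h1 := A.p_NN.trans hu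
    have h2 := dvd_add h1 (pU A k)
    rw [sub_add_cancel] at h2
    exact dvd_sub h2 A.p_D
  have g1 := dvd_gap (dvd_neg.2 A.p_W1) hp (by omega)
  have g1' : -A.W1 + A.p ≤ u - A.D := by
    have h1 := Int.le_of_dvd (by omega) (dvd_sub hp (dvd_neg.2 A.p_W1))
    omega
  have g2 : u - A.D + A.p ≤ A.W1 := by
    have h1 := Int.le_of_dvd (by omega) (dvd_sub A.p_W1 hp)
    omega
  have hsg := A.hsg
  refine h.nov1 k1 hu ?_ ?_ v0 v1
  · rcases hsg with h | h <;> rw [h] at hW1 <;> omega
  · rcases hsg with h | h <;> rw [h] at hW1 <;> omega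

/-- the place of the rectangle of class `p` is free -/
theorem R_D (h : NPH A T) (hD : A.W1 < A.D) {x v : ℤ} (hx : (A.p : ℤ) ∣ x) (x0 : A.D < x)
    (x1 : x ≤ A.D + A.W1) (v0 : A.D - A.q * A.h ≤ v) (v1 : v < A.D) : A.Rv x v = 0 := by
  obtain ⟨s1, s2, s3, s4, s5, s6, s7, s8, s9⟩ := h.sz
  obtain ⟨q1, q2, q3, q4⟩ := h.prods
  have hW1 : A.W1 = A.q * A.w + A.sg := rfl
  have hsg := A.hsg
  have DW := A.D_W'
  have w1 := A.W1_bd
  by_contra hc
  have hR := A.Rv_nonneg x v
  obtain ⟨k, ck, rk⟩ := Rv_ex (A := A) (x := x) (v := v) (by omega)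
  by_cases hk : (A.p : ℤ) ∣ k
  · have c0 : A.Cx 0 x := Cx_congr (by simpa using hk) (by simp) ck
    obtain ⟨δ, d0, d1, d2, d3⟩ := c0.off hx
    rw [U_zero', zero_add] at d3
    have dp := Int.le_of_dvd d0 d2
    have := Int.le_of_dvd (by omega) d3
    rcases hsg with h | h <;> rw [h] at hW1 <;> omega
  · obtain ⟨δ, d0, d1, d2, d3⟩ := ck.off hx
    obtain ⟨ε, e0, e1, e2⟩ := rk.off
    have dp := Int.le_of_dvd d0 d2
    have xp := Int.le_of_dvd (by omega) (dvd_sub hx A.p_D)
    -- the lift of the row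
    have hu : A.NN ∣ (x - δ) - A.U k := by
      rwa [show x - δ - A.U k = x - (A.U k + δ) by ring]
    obtain ⟨z, hz⟩ : A.NN ∣ (x - δ + A.q * k) - (v + ε) := by
      have := dvd_sub hu e2
      rw [V_eq] at this
      rwa [show x - δ - A.U k - (v - (A.U k + A.q * k - ε)) = x - δ + A.q * k - (v + ε) by ring]
        at this
    unfold NN at hz
    set k' := k - A.p * z with hk'
    have hkk : (A.p : ℤ) ∣ k' - k := ⟨-z, by rw [hk']; ring⟩
    have hu' : A.NN ∣ (x - δ) - A.U k' := by
      have := dvd_sub hu (U_cong hkk)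
      rwa [show x - δ - A.U k - (A.U k' - A.U k) = x - δ - A.U k' by ring] at this
    have hv' : x - δ + A.q * k' = v + ε := by
      rw [hk']; linear_combination hz
    have nk : ¬ (A.p : ℤ) ∣ k' := by
      intro hc'
      apply hk
      have := dvd_sub hc' hkk
      rwa [sub_sub_cancel] at this
    have hs := h.nov1' (k := k') (u := x - δ) hu' (by omega) (by omega) (by omega) (by omega) nk
    have h1 : A.NN ∣ A.U k' - A.U (-T.sig) := U_cong (by rwa [sub_neg_eq_add])
    have h2 := dvd_add (dvd_add hu' h1) h.U_nsig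
    rw [show x - δ - A.U k' + (A.U k' - A.U (-T.sig)) + (A.U (-T.sig) - (A.D + A.W1))
      = -(A.D + A.W1 - (x - δ)) by ring, dvd_neg] at h2
    have := Int.le_of_dvd (by omega) h2
    omega

/-- no active line in `(0, W1]` -/
theorem act_in (h : NPH A T) (hD : A.W1 < A.D) {c : ℤ} (hc : (A.p : ℤ) ∣ c) (c0 : 0 ≤ c)
    (c1 : c ≤ A.W1) : A.gv A.y0 (c + A.p) = A.gv A.y0 c := by
  obtain ⟨s1, s2, s3, s4, s5, s6, s7, s8, s9⟩ := h.sz
  rcases c1.lt_or_eq with h1 | h1
  · exact h.act0 hc c0 h1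
  · have hy : A.y0 = 1 - A.w := rfl
    have noL : ∀ k, ¬ A.LA A.y0 c k := by
      rintro k ⟨k0, k1, hk⟩
      rw [h1] at hk
      have hp : (A.p : ℤ) * A.q ∣ A.a * (A.ix k - 0) - (A.q * A.w + A.sg) := by
        have hk' : A.NN ∣ A.W1 - (A.cfg 0).U k := hk
        rw [A.ix_U] at hk'
        have := (dvd_neg).2 hk'
        unfold NN W1 at this
        rwa [show -(A.q * A.w + A.sg - A.a * A.ix k) = A.a * (A.ix k - 0) - (A.q * A.w + A.sg)
          by ring] at this
      have i0 := A.ix_nonneg k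
      have i1 := A.ix_lt k
      have t0 := T.t0
      rcases T.partner hp (by rw [abs_le]; constructor <;> omega) with h2 | h2
      · rw [h.ep] at h2; omega
      · rcases h.sgl with h3 | ⟨h3, h4⟩
        · rw [h.ep] at h2; omega
        · have hrow := T.sec_row (s := k) (s' := 0) (A.ix_row k) (by simp) h2
          rw [← hrow, Int.emod_eq_of_lt (by omega) (by omega)] at h3
          omega
    have noR : ∀ k, ¬ A.RA A.y0 c k := by
      rintro k ⟨k0, k1, hk⟩
      rw [h1, show A.W1 - (A.U k + A.W1) = -A.U k by ring] at hk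
      have h3 : A.NN ∣ A.U k - A.U 0 := by
        rw [U_zero', sub_zero]; exact (dvd_neg).1 hk
      have h4 := UU h3
      rw [sub_zero] at h4
      have := Int.le_of_dvd (by omega) h4
      omega
    rcases A.g_cases A.y0 hc with h2 | ⟨-, ⟨k, hk⟩, -⟩ | ⟨-, ⟨k, hk⟩, -⟩
    · exact h2.1
    · exact absurd hk (noL k)
    · exact absurd hk (noR k)

/-- no active line in `[D, D + W1]` -/
theorem act_D (h : NPH A T) (hD : A.W1 < A.D) {c : ℤ} (hc : (A.p : ℤ) ∣ c) (c0 : A.D ≤ c)
    (c1 : c ≤ A.D + A.W1) : A.gv A.y0 (c + A.p) = A.gv A.y0 c := by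
  obtain ⟨s1, s2, s3, s4, s5, s6, s7, s8, s9⟩ := h.sz
  obtain ⟨q1, q2, q3, q4⟩ := h.prods
  have hq := A.q_pos'
  have hW1 : A.W1 = A.q * A.w + A.sg := rfl
  have hsg := A.hsg
  have DW := A.D_W'
  have w1 := A.W1_bd
  have hy : A.y0 = 1 - A.w := rfl
  have noL : ∀ k, ¬ A.LA A.y0 c k := by
    rintro k ⟨k0, k1, hk⟩
    rcases c0.lt_or_eq with h1 | h1
    · rcases c1.lt_or_eq with h2 | h2
      · have g2 : c + A.p ≤ A.D + A.W1 := by
          have := Int.le_of_dvd (by omega) (dvd_sub (dvd_add A.p_D A.p_W1) hc)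
          omega
        have nk : ¬ (A.p : ℤ) ∣ k := by
          intro hk'
          have h3 : A.NN ∣ A.U k - A.U 0 := U_cong (by simpa using hk')
          have h4 := dvd_add hk h3
          rw [U_zero', sub_zero, sub_add_cancel] at h4
          have := Int.le_of_dvd (by omega) h4
          rcases hsg with h | h <;> rw [h] at hW1 <;> omega
        have b1 : (A.q : ℤ) * k ≤ A.q * (A.h - A.w) := mul_le_mul_of_nonneg_left (by omega) hq.le
        have b2 : (A.q : ℤ) * (1 - A.w) ≤ A.q * k := mul_le_mul_of_nonneg_left (by omega) hq.le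
        rw [mul_sub] at b1 b2
        rw [mul_one] at b2
        have hs := h.nov1' hk (by omega) (by omega) (by omega)
          (by rcases hsg with h | h <;> rw [h] at hW1 <;> omega) nk
        have := Int.le_of_dvd (by omega) hs
        omega
      · rw [h2] at hk
        have h3 := dvd_add hk h.U_nsig
        rw [show A.D + A.W1 - A.U k + (A.U (-T.sig) - (A.D + A.W1)) = -(A.U k - A.U (-T.sig))
          by ring, dvd_neg] at h3
        have h4 := UU h3
        rw [sub_neg_eq_add] at h4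
        have := Int.le_of_dvd (by omega) h4
        omega
    · rw [← h1, ← dvd_neg, neg_sub] at hk
      exact U_ne_D k hk
  have noR : ∀ k, ¬ A.RA A.y0 c k := by
    rintro k ⟨k0, k1, hk⟩
    have nk : ¬ (A.p : ℤ) ∣ k := by
      intro hk'
      have := Int.le_of_dvd (by omega) hk'
      omega
    rcases c0.lt_or_eq with h1 | h1
    · rcases c1.lt_or_eq with h2 | h2
      · have g1 : A.D + A.p ≤ c := by
          have := Int.le_of_dvd (by omega) (dvd_sub hc A.p_D)
          omega
        have b1 : (A.q : ℤ) * k ≤ A.q * A.h := mul_le_mul_of_nonneg_left (by omega) hq.le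
        have b2 : (A.q : ℤ) * 1 ≤ A.q * k := mul_le_mul_of_nonneg_left (by omega) hq.le
        rw [mul_one] at b2
        have hk' : A.NN ∣ (c - A.W1) - A.U k := by
          rwa [show c - A.W1 - A.U k = c - (A.U k + A.W1) by ring]
        have hs := h.nov1' hk' (by omega) (by omega) (by omega) (by omega) nk
        have := Int.le_of_dvd (by omega) hs
        omega
      · rw [h2, add_sub_add_right_eq_sub, ← dvd_neg, neg_sub] at hk
        exact U_ne_D k hk
    · rw [← h1] at hk
      have hp : (A.p : ℤ) * A.q ∣ A.a * ((A.p : ℤ) - A.ix k) - (A.q * A.w + A.sg) := by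
        have hk' : A.NN ∣ A.D - ((A.cfg 0).U k + A.W1) := hk
        rw [A.ix_U] at hk'
        have := dvd_add hk' A.D_cong
        unfold NN W1 at this
        rwa [show A.D - (A.a * A.ix k + (A.q * A.w + A.sg)) + (A.a * A.p - A.D)
          = A.a * ((A.p : ℤ) - A.ix k) - (A.q * A.w + A.sg) by ring] at this
      have i0 := A.ix_nonneg k
      have i1 := A.ix_lt k
      have i2 := ix_pos nk
      have t0 := T.t0
      rcases T.partner hp (by rw [abs_le]; constructor <;> omega) with h2 | h2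
      · rw [h.ep] at h2; omega
      · rcases h.sgl with h3 | ⟨h3, h4⟩
        · rw [h.ep] at h2; omega
        · have hrow := T.sec_row (s := 0) (s' := k) (by simp) (A.ix_row k) h2
          rw [← hrow] at h3 h4
          rcases le_or_gt k A.w with h5 | h5
          · rw [Int.emod_eq_of_lt (by omega) (by omega)] at h3
            omega
          · rw [← Int.add_emod_right, Int.emod_eq_of_lt (by omega) (by omega)] at h4
            omega
  rcases A.g_cases A.y0 hc with h2 | ⟨-, ⟨k, hk⟩, -⟩ | ⟨-, ⟨k, hk⟩, -⟩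
  · exact h2.1
  · exact absurd hk (noL k)
  · exact absurd hk (noR k)

theorem evD (h : NPH A T) (hD : A.W1 < A.D) {v k : ℤ} (v0 : A.D - A.W1 < v) (v1 : v ≤ A.D) :
    ¬ A.Ev A.y0 v k := by
  obtain ⟨s1, s2, s3, s4, s5, s6, s7, s8, s9⟩ := h.sz
  obtain ⟨q1, q2, q3, q4⟩ := h.prods
  have hq := A.q_pos'
  have hW1 : A.W1 = A.q * A.w + A.sg := rfl
  have hsg := A.hsg
  have DW := A.D_W'
  have w1 := A.W1_bd
  have hy : A.y0 = 1 - A.w := rfl
  rintro (⟨k0, k1, hk⟩ | ⟨k0, k1, hk⟩)
  · -- top event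
    have b1 : (A.q : ℤ) * k ≤ 0 := mul_nonpos_of_nonneg_of_nonpos hq.le (by omega)
    have b2 : (A.q : ℤ) * (1 - A.w) ≤ A.q * k := mul_le_mul_of_nonneg_left (by omega) hq.le
    rw [mul_sub, mul_one] at b2
    have nk : ¬ (A.p : ℤ) ∣ k := by
      intro hk'
      have h1 : k = 0 := by
        by_contra h0
        have := Int.le_of_dvd (by omega) ((dvd_neg).2 hk')
        omega
      rw [h1, V_eq, U_zero', mul_zero, add_zero, sub_zero] at hk
      have := Int.le_of_dvd (by omega) hk
      omega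
    have hk' : A.NN ∣ (v - A.q * k) - A.U k := by
      rw [V_eq] at hk
      rwa [show v - A.q * k - A.U k = v - (A.U k + A.q * k) by ring]
    have hs := h.nov1' hk' (by omega) (by rcases hsg with h | h <;> rw [h] at hW1 <;> omega)
      (by omega) (by omega) nk
    have := Int.le_of_dvd (by omega) hs
    omega
  · -- bottom event
    have b1 : (A.q : ℤ) * k ≤ A.q * A.h := mul_le_mul_of_nonneg_left (by omega) hq.le
    have b2 : (A.q : ℤ) * (1 - A.w + A.h) ≤ A.q * k := mul_le_mul_of_nonneg_left (by omega) hq.le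
    rw [mul_add, mul_sub, mul_one] at b2
    have nk : ¬ (A.p : ℤ) ∣ k := by
      intro hk'
      have := Int.le_of_dvd (by omega) hk'
      omega
    have hk' : A.NN ∣ (v + A.q * (A.h - k)) - A.U k := by
      rw [V_eq] at hk
      rwa [show v + A.q * (A.h - k) - A.U k = v - (A.U k + A.q * k - A.q * A.h) by ring]
    rcases v1.lt_or_eq with h1 | h1
    · have hs := h.nov1' hk' (by rw [mul_sub]; omega)
        (by rw [mul_sub]; rcases hsg with h | h <;> rw [h] at hW1 <;> omega)
        (by rw [mul_sub]; omega) (by rw [mul_sub]; omega) nk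
      have := Int.le_of_dvd (by omega) hs
      omega
    · have h2 : (A.p : ℤ) ∣ A.q * (A.h - k) := by
        have h3 := dvd_add (A.p_NN.trans hk') (pU A k)
        rw [sub_add_cancel, h1] at h3
        have := dvd_sub h3 A.p_D
        rwa [add_sub_cancel_left] at this
      have h3 := A.pq_small h2
      have h4 : (A.h : ℤ) - k = 0 := by
        by_contra h0
        have := Int.le_of_dvd (by omega) h3
        omega
      rw [h4, mul_zero, add_zero, h1, ← dvd_neg, neg_sub] at hk'
      exact U_ne_D k hk'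

theorem f_inD (h : NPH A T) (hD : A.W1 < A.D) {v : ℤ} (v0 : A.D - A.W1 ≤ v) (v1 : v ≤ A.D) :
    A.fv A.y0 v = A.ph' := by
  have := f_const (A := A) (y := A.y0) v1 (fun z k z0 z1 => h.evD hD (by omega) z1)
  unfold ph'
  exact this.symm

theorem g_inD (h : NPH A T) (hD : A.W1 < A.D) {x : ℤ} (hx : (A.p : ℤ) ∣ x) (x0 : A.D ≤ x)
    (x1 : x ≤ A.D + A.W1) : A.gv A.y0 x = A.ph' := by
  obtain ⟨s1, s2, s3, s4, s5, s6, s7, s8, s9⟩ := h.sz
  obtain ⟨q1, q2, q3, q4⟩ := h.prods
  have hq := A.q_pos'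
  have hW1 : A.W1 = A.q * A.w + A.sg := rfl
  have hsg := A.hsg
  have w1 := A.W1_bd
  have kc := A.kc'
  have e1 : A.gv A.y0 x = A.gv A.y0 A.D :=
    g_const A.p_D hx x0 (fun c hc c0 c1 => h.act_D hD hc c0 (by omega))
  have e2 : A.gv A.y0 (A.D + A.p) = A.gv A.y0 A.D :=
    h.act_D hD A.p_D le_rfl (by omega)
  have hy : A.y0 = 1 - A.w := rfl
  have b : (A.q : ℤ) * A.y0 = A.q - A.q * A.w := by rw [hy]; ring
  have b2 : (A.q : ℤ) * 2 ≤ A.q * A.w := mul_le_mul_of_nonneg_left s1 hq.le
  have e3 := A.gid' (y := A.y0) (x := A.D + A.p) (θ := 0) le_rfl hq.le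
  have hpD : (A.p : ℤ) ∣ A.D + A.p := dvd_add A.p_D (dvd_refl _)
  rw [h.R_D hD hpD (by omega) (by omega)
    (by rw [b]; rcases kc with h | h <;> omega) (by rw [b]; rcases kc with h | h <;> omega),
    h.f_inD hD (by rw [b]; rcases kc with h | h <;> omega)
      (by rw [b]; rcases kc with h | h <;> omega), zero_add] at e3
  rw [e1, ← e2, e3]

end NPH

end TAp

end Pool.Agent.H78.Tie
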