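import Pool.Agent.H67.NP.Nov

/-! # NoPass : MainO

Main level y0 = 1 - w near class 0.  T events: rows k in [1-w,0]; B events: rows k in [h-w+1,h];
LA rows [1-w,h-w]; RA rows [1,h].
f_in0: no event at v, -W1 < v < 0: T: k <> 0 (V 0 = 0), u := v - q k (= U k mod N) is in (-W1, q(w-1)), so > -qw (p | u)
 and < qw, u + q k = v in (-qh, qh): nov0, so p | k - sig, impossible (k in [1-w,-1], w < sig <= h).
 B: u := v + q(h-k) in (-W1, q(w-1)), u + q k = v + q h in (-qh.., qh): nov0, so k = sig, u = -W1 mod N: no.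
f_zero: T event of row 0 at 0 (`f_T`).
g_in0: no jump at c in [0, W1 - p]: (act0) c = 0: LA of row 0 and RA of row sig (U_sig): g_cases gives the equality;
 0 < c < W1: LA k: u := c, u + q k in (-qh, qh) as k <= h - w: nov0, k = sig > h - w no (U_sig = -W1).
 RA k: u := c - W1 in (-qw, 0), u + q k < qh as k <= h, > -qh as k >= 1: nov0: k = sig, then c = 0: no.
 Value: gid' at x = p, th = 0: v = p - k0 - q(w-1) in [-W1,0): R = 1 (row 0: Cx 0 p, Rw 0 v; Rv01), f = kp.
-/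

namespace Pool.Agent.H78.Tie

open Finset
open Pool.Agent.H98.Flat
open Pool.Agent.H67.Flat

set_option linter.dupNamespace false
set_option linter.unusedVariables false

namespace TAp

variable {A : TAp}

theorem MO_kc (A : TAp) : (A.sg = 1 ∧ A.k0 = 2) ∨ (A.sg = -1 ∧ A.k0 = 1) := by
  unfold k0
  rcases A.hsg with h | h
  · left; exact ⟨h, by rw [if_pos h]⟩
  · right; exact ⟨h, by rw [if_neg (by omega)]⟩

namespace NPH

variable {T : A.Tie}

/-- sizes of products -/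
theorem MO_prods (h : NPH A T) : 0 < (A.q : ℤ) * A.w ∧ A.q * A.w + A.q ≤ (A.q : ℤ) * A.h ∧
    (A.q : ℤ) * A.h + A.q ≤ A.NN ∧ A.W1 < A.q * A.h := by
  obtain ⟨s1, s2, s3, s4, s5, s6, s7, s8, s9⟩ := h.sz
  have hq := A.q_pos'
  have hsg := A.hsg
  have hW1 : A.W1 = A.q * A.w + A.sg := rfl
  have e1 : (A.q : ℤ) * (A.w + 1) ≤ A.q * A.h := mul_le_mul_of_nonneg_left (by omega) hq.le
  have e2 : (A.q : ℤ) * (A.h + 1) ≤ A.q * A.p := mul_le_mul_of_nonneg_left (by omega) hq.le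
  have e3 : (A.p : ℤ) * A.q = A.q * A.p := mul_comm _ _
  rw [mul_add, mul_one] at e1 e2
  have e0 : 0 < (A.q : ℤ) * A.w := mul_pos hq (by omega)
  refine ⟨e0, e1, ?_, ?_⟩
  · unfold NN; omega
  · rcases hsg with h | h <;> rw [h] at hW1 <;> omega

theorem MO_noEv (h : NPH A T) {v : ℤ} (v0 : -A.W1 < v) (v1 : v < 0) (k : ℤ) :
    ¬ A.Ev A.y0 v k := by
  obtain ⟨s1, s2, s3, s4, s5, s6, s7, s8, s9⟩ := h.sz
  obtain ⟨q1, q2, q3, q4⟩ := h.MO_prods
  have hW1 : A.W1 = A.q * A.w + A.sg := rfl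
  have w1 := A.W1_bd
  have hsg := A.hsg
  have hq := A.q_pos'
  have hy : A.y0 = 1 - A.w := rfl
  rintro (⟨k1, k2, hd⟩ | ⟨k1, k2, hd⟩)
  · rw [hy] at k1 k2
    rw [V_eq] at hd
    have hu : A.NN ∣ (v - A.q * k) - A.U k := by
      rwa [show v - A.q * k - A.U k = v - (A.U k + A.q * k) by ring]
    have kne : k ≠ 0 := by
      rintro rfl
      rw [U_zero', mul_zero, sub_zero, sub_zero] at hu
      have := Int.le_of_dvd (by omega) ((dvd_neg).2 hu)
      omega
    have hk : ¬ (A.p : ℤ) ∣ k := fun hd =>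
      kne (Int.eq_zero_of_abs_lt_dvd hd (by rw [abs_lt]; constructor <;> omega))
    have e1 : (A.q : ℤ) * (1 - A.w) ≤ A.q * k := mul_le_mul_of_nonneg_left (by omega) hq.le
    have e2 : (A.q : ℤ) * k ≤ A.q * (-1) := mul_le_mul_of_nonneg_left (by omega) hq.le
    rw [mul_sub, mul_one] at e1
    have h3 := h.nov0 hk hu (by omega) (by omega) (by omega) (by omega)
    have h4 := Int.eq_zero_of_abs_lt_dvd h3 (by rw [abs_lt]; constructor <;> omega)
    omega
  · rw [hy] at k1 k2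
    rw [V_eq] at hd
    have hu : A.NN ∣ (v + A.q * (A.h - k)) - A.U k := by
      rwa [show v + A.q * (A.h - k) - A.U k = v - (A.U k + A.q * k - A.q * A.h) by ring]
    have hk : ¬ (A.p : ℤ) ∣ k := fun hd => by
      have := Int.le_of_dvd (by omega) hd
      omega
    have hp : (A.p : ℤ) ∣ (v + A.q * (A.h - k)) := by
      have h1 := A.p_NN.trans hu
      have h2 := dvd_add h1 (pU A k)
      rwa [sub_add_cancel] at h2
    have e1 : (A.q : ℤ) * 0 ≤ A.q * (A.h - k) := mul_le_mul_of_nonneg_left (by omega) hq.le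
    have e2 : (A.q : ℤ) * (A.h - k) ≤ A.q * (A.w - 1) := mul_le_mul_of_nonneg_left (by omega) hq.le
    rw [mul_sub _ (A.w : ℤ), mul_one] at e2
    rw [mul_zero] at e1
    have e3 : (v + A.q * (A.h - k)) + A.q * k = v + A.q * A.h := by ring
    have g1 : (A.p : ℤ) ≤ (v + A.q * (A.h - k)) + A.W1 :=
      Int.le_of_dvd (by omega) (dvd_add hp A.p_W1)
    have h3 := h.nov0 hk hu (by rcases hsg with h | h <;> rw [h] at hW1 <;> omega) (by omega)
      (by rw [e3]; omega) (by rw [e3]; omega)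
    have h4 := Int.eq_zero_of_abs_lt_dvd h3 (by rw [abs_lt]; constructor <;> omega)
    have h5 : k = T.sig := by omega
    subst h5
    have h6 : A.NN ∣ (v + A.q * (A.h - T.sig)) + A.W1 := by
      have := dvd_add hu h.U_sig
      rwa [show v + A.q * (A.h - T.sig) - A.U T.sig + (A.U T.sig + A.W1) =
        (v + A.q * (A.h - T.sig)) + A.W1 by ring] at this
    have h7 := Int.le_of_dvd (by omega) h6
    omega

theorem f_in0 (h : NPH A T) {v : ℤ} (v0 : -A.W1 ≤ v) (v1 : v < 0) : A.fv A.y0 v = A.kp := by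
  unfold kp
  exact (f_const (by omega) (fun v' k a b => h.MO_noEv (by omega) (by omega) k)).symm
theorem f_zero (h : NPH A T) : A.fv A.y0 0 = A.kp + 1 := by
  obtain ⟨s1, s2, s3, s4, s5, s6, s7, s8, s9⟩ := h.sz
  have hy : A.y0 = 1 - A.w := rfl
  have := f_T (A := A) (y := A.y0) (k := 0) (v := 0) (by omega) (by omega)
    (by rw [V_eq, U_zero']; simp)
  rw [this]
  rfl
theorem act0 (h : NPH A T) {c : ℤ} (hc : (A.p : ℤ) ∣ c) (c0 : 0 ≤ c) (c1 : c < A.W1) :
    A.gv A.y0 (c + A.p) = A.gv A.y0 c := by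
  obtain ⟨s1, s2, s3, s4, s5, s6, s7, s8, s9⟩ := h.sz
  obtain ⟨q1, q2, q3, q4⟩ := h.MO_prods
  have hW1 : A.W1 = A.q * A.w + A.sg := rfl
  have w1 := A.W1_bd
  have hsg := A.hsg
  have hq := A.q_pos'
  have hy : A.y0 = 1 - A.w := rfl
  by_cases hc0 : c = 0
  · subst hc0
    have hL : A.LA A.y0 0 0 := ⟨by omega, by omega, by rw [U_zero']; simp⟩
    have hR : A.RA A.y0 0 T.sig := ⟨by omega, by omega, by
      rw [zero_sub]; exact (dvd_neg).2 h.U_sig⟩
    rcases g_cases A A.y0 hc with h1 | h1 | h1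
    · exact h1.1
    · exact absurd hR (h1.2.2 _)
    · exact absurd hL (h1.2.2 _)
  · have cpos : 0 < c := by omega
    have cp : (A.p : ℤ) ≤ c := Int.le_of_dvd cpos hc
    have cW : c + A.p ≤ A.W1 := by
      have := Int.le_of_dvd (by omega) (dvd_sub A.p_W1 hc)
      omega
    have cw : c < A.q * A.w := by rcases hsg with h | h <;> rw [h] at hW1 <;> omega
    have hL : ∀ k, ¬ A.LA A.y0 c k := by
      rintro k ⟨k1, k2, hd⟩
      have kne : k ≠ 0 := by
        rintro rfl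
        rw [U_zero', sub_zero] at hd
        have := Int.le_of_dvd (by omega) hd
        omega
      have hk : ¬ (A.p : ℤ) ∣ k := fun hd =>
        kne (Int.eq_zero_of_abs_lt_dvd hd (by rw [abs_lt]; constructor <;> omega))
      have e1 : (A.q : ℤ) * (1 - A.w) ≤ A.q * k := mul_le_mul_of_nonneg_left (by omega) hq.le
      have e2 : (A.q : ℤ) * k ≤ A.q * (A.h - A.w) := mul_le_mul_of_nonneg_left (by omega) hq.le
      rw [mul_sub, mul_one] at e1
      rw [mul_sub] at e2
      have h3 := h.nov0 hk hd (by omega) (by omega) (by omega) (by omega)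
      have h4 := Int.eq_zero_of_abs_lt_dvd h3 (by rw [abs_lt]; constructor <;> omega)
      have h5 : k = T.sig := by omega
      subst h5
      have h6 := dvd_add hd h.U_sig
      rw [show c - A.U T.sig + (A.U T.sig + A.W1) = c + A.W1 by ring] at h6
      have h7 := Int.le_of_dvd (by omega) h6
      omega
    have hR : ∀ k, ¬ A.RA A.y0 c k := by
      rintro k ⟨k1, k2, hd⟩
      have hu : A.NN ∣ (c - A.W1) - A.U k := by
        rwa [show c - A.W1 - A.U k = c - (A.U k + A.W1) by ring]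
      have hk : ¬ (A.p : ℤ) ∣ k := fun hd => by
        have := Int.le_of_dvd (by omega) hd
        omega
      have e1 : (A.q : ℤ) * 1 ≤ A.q * k := mul_le_mul_of_nonneg_left (by omega) hq.le
      have e2 : (A.q : ℤ) * k ≤ A.q * A.h := mul_le_mul_of_nonneg_left (by omega) hq.le
      rw [mul_one] at e1
      have h3 := h.nov0 hk hu (by rcases hsg with h | h <;> rw [h] at hW1 <;> omega) (by omega)
        (by omega) (by omega)
      have h4 := Int.eq_zero_of_abs_lt_dvd h3 (by rw [abs_lt]; constructor <;> omega)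
      have h5 : k = T.sig := by omega
      subst h5
      have h6 := dvd_add hu h.U_sig
      rw [show c - A.W1 - A.U T.sig + (A.U T.sig + A.W1) = c by ring] at h6
      have h7 := Int.le_of_dvd (by omega) h6
      omega
    rcases g_cases A A.y0 hc with h1 | h1 | h1
    · exact h1.1
    · obtain ⟨k, hk⟩ := h1.2.1
      exact absurd hk (hL k)
    · obtain ⟨k, hk⟩ := h1.2.1
      exact absurd hk (hR k)
theorem g_in0 (h : NPH A T) {x : ℤ} (hx : (A.p : ℤ) ∣ x) (x0 : 0 ≤ x) (x1 : x ≤ A.W1) :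
    A.gv A.y0 x = A.kp + 1 := by
  obtain ⟨s1, s2, s3, s4, s5, s6, s7, s8, s9⟩ := h.sz
  obtain ⟨q1, q2, q3, q4⟩ := h.MO_prods
  have hW1 : A.W1 = A.q * A.w + A.sg := rfl
  have w1 := A.W1_bd
  have kc := A.MO_kc
  have hq := A.q_pos'
  have hy : A.y0 = 1 - A.w := rfl
  have base : ∀ z : ℤ, (A.p : ℤ) ∣ z → 0 ≤ z → z ≤ A.W1 → A.gv A.y0 z = A.gv A.y0 0 :=
    fun z hz z0 z1 => g_const (dvd_zero _) hz z0 (fun c hc c0 c1 => h.act0 hc c0 (by omega))
  have pW : (A.p : ℤ) ≤ A.W1 := Int.le_of_dvd (by omega) A.p_W1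
  have hp : A.gv A.y0 A.p = A.kp + 1 := by
    have h1 := gid' A (y := A.y0) (x := A.p) (θ := 0) le_rfl hq.le
    have e1 : (A.q : ℤ) * 2 ≤ A.q * A.w := mul_le_mul_of_nonneg_left (by omega) hq.le
    have e0 : (A.q : ℤ) * A.y0 = A.q - A.q * A.w := by rw [hy]; ring
    have v1 : (A.p : ℤ) - A.k0 + A.q * A.y0 - 0 < 0 := by
      rw [e0]
      rcases kc with ⟨h, h'⟩ | ⟨h, h'⟩ <;> rw [h'] <;> omega
    have v0 : -A.W1 ≤ (A.p : ℤ) - A.k0 + A.q * A.y0 - 0 := by
      rw [e0]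
      rcases kc with ⟨h, h'⟩ | ⟨h, h'⟩ <;> rw [h'] <;> rw [h] at hW1 <;> omega
    have hf := h.f_in0 v0 v1
    have c1 : A.Cx 0 A.p := Cx_of (δ := A.p) (dvd_refl _) (by rw [U_zero']; simp) (by omega) pW
    have r1 : A.Rw 0 ((A.p : ℤ) - A.k0 + A.q * A.y0 - 0) :=
      Rw_of (δ := -((A.p : ℤ) - A.k0 + A.q * A.y0 - 0)) (by rw [V_eq, U_zero']; simp) (by omega)
        (by omega)
    have hR := Rv_of c1 r1
    have hR' := h.Rv01 (x := A.p) (dvd_refl _) ((A.p : ℤ) - A.k0 + A.q * A.y0 - 0)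
    rw [h1, hf]
    omega
  rw [base x hx x0 x1, ← base A.p (dvd_refl _) (by omega) pW, hp]

end NPH

end TAp

end Pool.Agent.H78.Tie
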