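import Pool.Agent.H67.NP.MainO
import Pool.Agent.H67.NP.Ab

/-! # NoPass : SpecA

Special case, level y0 (no assumption W1 < D).  hno: no passing class has a row in [1,h].
E1: no event at v in (0,D]: T: row j in [1-w,-1] (j <> 0 as V 0 = 0 and 0 < v < N), u := v - q j, 0 < u.  If u < D: the row -j in [1,w-1] has lift
 D - u (class p - ix j: U (-j) = D - U j mod N: nov-type: ix (-j) = p - ix j (`ix_neg`), a p = D): 0 < D - u < D <= D + q min(w, h + j): contradicts hno (-j <> sig as w < sig).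
 If u >= D (u <> D: U_ne_D): u - D in (0, q(w-1)], u - D + q j = v - D in (-qh, 0] (v - D = u - D + q j > -q(w-1)): nov1: p | j + sig: no.
 B: row j in [h-w+1, h], u := v + q(h-j) > 0; v < D: u < D + q min(w, h-j): hno (j = sig: u = -W1 mod N; u <= D + q(w-1) .. < N - W1 by D_H': no). v = D: p | q(h-j)
 (p | u, p | D) so j = h (q coprime p: `A.coprime_pq` in Bridge or hqe) and U h = D: U_ne_D.
 So f = f(0) = kp+1 on [0,D] (f_zero, f_const).
E2: no active line c in (0,D): LA j: row in [1-w,h-w]: j = 0: c = 0 mod N no; j >= 1: u = c < D: hno (j <= h - w < .. ; j = sig: U = -W1: c = N - W1 > D no); j <= -1: row -j, lift D - c: hno.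
 RA j (row in [1,h]): u = c - W1 > -qw (p | u), u < D - W1 <= D + q min(w, h - j): hno; j = sig: U = -W1: c = 0 mod N no.
 So g = g(p) = kp+1 on (0,D] (g_in0 at x = p, g_const).
Conclusion: x' := u + W1 (the right wall of k; u > q(h-k) >= -q(w-1) by nov0 (u + q k >= q h) and u < D - qw by nov1, so 0 < x' <= D). alpha at (x', D) (D < N - qh):
 R(x',D) - (kp+1) + (kp+1) <= 0: R = 0, so not Rw k D: rows(k) = [u + q k - q h, u + q k), u + qk - qh in (0, D) => u + q k <= D; = D impossible (p | q k).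
-/

namespace Pool.Agent.H78.Tie

open Finset
open Pool.Agent.H98.Flat
open Pool.Agent.H67.Flat

set_option linter.dupNamespace false
set_option linter.unusedVariables false

namespace TAp

variable {A : TAp}

theorem cop_pq_spA (A : TAp) {z : ℤ} (h : (A.p : ℤ) ∣ A.q * z) : (A.p : ℤ) ∣ z := by
  have hc : IsCoprime (A.p : ℤ) (A.q : ℤ) := by
    obtain ⟨c, hc⟩ := A.hpw
    rcases A.hsg with hs | hs
    · exact ⟨c, -A.w, by rw [hs] at hc; linear_combination -hc⟩
    · exact ⟨-c, A.w, by rw [hs] at hc; linear_combination hc⟩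
  exact hc.dvd_of_dvd_mul_left h

theorem U_neg_spA (A : TAp) {j : ℤ} (hj : ¬ (A.p : ℤ) ∣ j) : A.NN ∣ (A.D - A.U j) - A.U (-j) := by
  have h1 : A.U j = A.a * A.ix j := by
    show A.a * (0 + (A.e' * j - 0) % A.p) = _
    unfold ix
    rw [zero_add, sub_zero]
  have h2 : A.U (-j) = A.a * A.ix (-j) := by
    show A.a * (0 + (A.e' * (-j) - 0) % A.p) = _
    unfold ix
    rw [zero_add, sub_zero]
  rw [h1, h2, ix_neg hj]
  have := A.D_cong
  have e : A.D - A.a * A.ix j - A.a * (A.p - A.ix j) = -(A.a * A.p - A.D) := by ring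
  rw [e]
  exact (dvd_neg).2 this

namespace NPH

variable {T : A.Tie}

theorem E1_spA (h : NPH A T)
    (hno : ∀ k u : ℤ, 1 ≤ k → k ≤ A.h → ¬ (A.p : ℤ) ∣ k - T.sig → A.NN ∣ u - A.U k →
      -(A.q * (A.w : ℤ)) < u → A.D + A.q * min (A.w : ℤ) (A.h - k) ≤ u)
    {v j : ℤ} (v0 : 0 < v) (v1 : v ≤ A.D) : ¬ A.Ev A.y0 v j := by
  obtain ⟨z1, z2, z3, z4, z5, z6, z7, z8, z9⟩ := h.sz
  have hq0 : (0 : ℤ) < A.q := by omega
  have hDH := A.D_H'
  have hDW := A.D_W'
  have hqwh : (A.q : ℤ) * A.w ≤ A.q * A.h := mul_le_mul_of_nonneg_left (by omega) hq0.le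
  have hqw0 : (0 : ℤ) < A.q * A.w := mul_pos hq0 (by omega)
  have hsmall : ∀ z : ℤ, z ≠ 0 → -(A.p : ℤ) < z → z < A.p → ¬ (A.p : ℤ) ∣ z := by
    intro z hz hz1 hz2 hd
    exact hz (Int.eq_zero_of_abs_lt_dvd hd (by rw [abs_lt]; constructor <;> omega))
  rintro (⟨a1, a2, a3⟩ | ⟨a1, a2, a3⟩)
  · unfold y0 at a1 a2
    rw [V_eq] at a3
    have hj0 : j ≠ 0 := by
      rintro rfl
      rw [A.U_zero', mul_zero, add_zero, sub_zero] at a3
      have := Int.le_of_dvd v0 a3
      omega
    have hj : ¬ (A.p : ℤ) ∣ j := hsmall j hj0 (by omega) (by omega)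
    have hqj : (A.q : ℤ) * j ≤ -A.q := by
      have : (A.q : ℤ) * j ≤ A.q * (-1) := mul_le_mul_of_nonneg_left (by omega) hq0.le
      omega
    have hqj2 : (A.q : ℤ) - A.q * A.w ≤ A.q * j := by
      have : (A.q : ℤ) * (1 - A.w) ≤ A.q * j := mul_le_mul_of_nonneg_left (by omega) hq0.le
      have e : (A.q : ℤ) * (1 - A.w) = A.q - A.q * A.w := by ring
      omega
    have hu' : A.NN ∣ (v - A.q * j) - A.U j := by
      have e : (v - A.q * j) - A.U j = v - (A.U j + A.q * j) := by ring
      rw [e]; exact a3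
    rcases lt_or_ge (v - A.q * j) A.D with hc | hc
    · have hd := A.U_neg_spA hj
      have hd2 : A.NN ∣ (A.D - (v - A.q * j)) - A.U (-j) := by
        have e : (A.D - (v - A.q * j)) - A.U (-j)
          = (A.D - A.U j) - A.U (-j) - ((v - A.q * j) - A.U j) := by ring
        rw [e]; exact dvd_sub hd hu'
      have := hno (-j) (A.D - (v - A.q * j)) (by omega) (by omega)
        (hsmall _ (by omega) (by omega) (by omega)) hd2 (by omega)
      have hm : (0 : ℤ) ≤ A.q * min (A.w : ℤ) (A.h - -j) :=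
        mul_nonneg hq0.le (le_min (by omega) (by omega))
      omega
    · have hne : v - A.q * j ≠ A.D := by
        intro he
        rw [he] at hu'
        exact U_ne_D j (by rw [← dvd_neg, neg_sub]; exact hu')
      have hn := h.nov1 hj hu' (by omega) (by omega) (by omega) (by omega)
      exact hsmall _ (by omega) (by omega) (by omega) hn
  · unfold y0 at a1 a2
    rw [V_eq] at a3
    have hqj : (0 : ℤ) ≤ A.q * (A.h - j) := mul_nonneg hq0.le (by omega)
    have hu' : A.NN ∣ (v + A.q * (A.h - j)) - A.U j := by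
      have e : (v + A.q * (A.h - j)) - A.U j = v - (A.U j + A.q * j - A.q * A.h) := by ring
      rw [e]; exact a3
    rcases lt_or_ge v A.D with hc | hc
    · by_cases hs : (A.p : ℤ) ∣ j - T.sig
      · have hjs : j = T.sig := by
          by_contra hne
          exact hsmall (j - T.sig) (by omega) (by omega) (by omega) hs
        have hus := h.U_sig
        rw [← hjs] at hus
        have h3 : A.NN ∣ v + A.q * (A.h - j) + A.W1 := by
          have := dvd_add hu' hus
          rwa [show v + A.q * (A.h - j) - A.U j + (A.U j + A.W1)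
            = v + A.q * (A.h - j) + A.W1 by ring] at this
        have h4 : (A.q : ℤ) * (A.h - j) ≤ A.q * (A.h - A.w - 1) :=
          mul_le_mul_of_nonneg_left (by omega) hq0.le
        have h5 : (A.q : ℤ) * (A.h - A.w - 1) = A.q * A.h - A.q * A.w - A.q := by ring
        have h6 : A.W1 ≤ A.q * A.w + 1 := by
          unfold W1; rcases A.hsg with hs | hs <;> rw [hs] <;> omega
        have h7 : 0 < A.W1 := by have := A.W1_bd; omega
        have := Int.le_of_dvd (by omega) h3
        omega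
      · have := hno j (v + A.q * (A.h - j)) (by omega) (by omega) hs hu' (by omega)
        rw [min_eq_right (by omega)] at this
        omega
    · have hv : v = A.D := by omega
      have h3 : (A.p : ℤ) ∣ A.q * (A.h - j) := by
        have h4 := A.p_NN.trans hu'
        have h5 := pU A j
        have h6 := A.p_D
        have := dvd_add (dvd_sub h4 h6) h5
        rwa [hv, show A.D + A.q * (A.h - j) - A.U j - A.D + A.U j = A.q * (A.h - j) by ring] at this
      have h4 := A.cop_pq_spA h3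
      have h5 : (A.h : ℤ) - j = 0 := by
        by_contra hne
        exact hsmall _ hne (by omega) (by omega) h4
      rw [h5, mul_zero, add_zero, hv] at hu'
      exact U_ne_D j (by rw [← dvd_neg, neg_sub]; exact hu')

theorem E2_spA (h : NPH A T)
    (hno : ∀ k u : ℤ, 1 ≤ k → k ≤ A.h → ¬ (A.p : ℤ) ∣ k - T.sig → A.NN ∣ u - A.U k →
      -(A.q * (A.w : ℤ)) < u → A.D + A.q * min (A.w : ℤ) (A.h - k) ≤ u)
    {c : ℤ} (hc : (A.p : ℤ) ∣ c) (c0 : 0 < c) (c1 : c < A.D) :
    A.gv A.y0 (c + A.p) = A.gv A.y0 c := by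
  obtain ⟨z1, z2, z3, z4, z5, z6, z7, z8, z9⟩ := h.sz
  have hq0 : (0 : ℤ) < A.q := by omega
  have hDH := A.D_H'
  have hDW := A.D_W'
  have hqwh : (A.q : ℤ) * A.w ≤ A.q * A.h := mul_le_mul_of_nonneg_left (by omega) hq0.le
  have hqw0 : (0 : ℤ) < A.q * A.w := mul_pos hq0 (by omega)
  have hsmall : ∀ z : ℤ, z ≠ 0 → -(A.p : ℤ) < z → z < A.p → ¬ (A.p : ℤ) ∣ z := by
    intro z hz hz1 hz2 hd
    exact hz (Int.eq_zero_of_abs_lt_dvd hd (by rw [abs_lt]; constructor <;> omega))
  have hcp : (A.p : ℤ) ≤ c := Int.le_of_dvd c0 hc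
  have hcD : c + A.p ≤ A.D := by
    have h1 := dvd_sub A.p_D hc
    have := Int.le_of_dvd (by omega) h1
    omega
  have hW6 : A.W1 ≤ A.q * A.w + 1 := by
    unfold W1; rcases A.hsg with hs | hs <;> rw [hs] <;> omega
  have hW7 : 0 < A.W1 := by have := A.W1_bd; omega
  have hLA : ∀ j, ¬ A.LA A.y0 c j := by
    rintro j ⟨a1, a2, a3⟩
    unfold y0 at a1 a2
    rcases lt_trichotomy j 0 with hj | hj | hj
    · have hjp : ¬ (A.p : ℤ) ∣ j := hsmall j (by omega) (by omega) (by omega)
      have hd := A.U_neg_spA hjp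
      have hd2 : A.NN ∣ (A.D - c) - A.U (-j) := by
        have e : (A.D - c) - A.U (-j) = (A.D - A.U j) - A.U (-j) - (c - A.U j) := by ring
        rw [e]; exact dvd_sub hd a3
      have := hno (-j) (A.D - c) (by omega) (by omega)
        (hsmall _ (by omega) (by omega) (by omega)) hd2 (by omega)
      have hm : (0 : ℤ) ≤ A.q * min (A.w : ℤ) (A.h - -j) :=
        mul_nonneg hq0.le (le_min (by omega) (by omega))
      omega
    · subst hj
      rw [A.U_zero', sub_zero] at a3
      have := Int.le_of_dvd c0 a3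
      omega
    · by_cases hs : (A.p : ℤ) ∣ j - T.sig
      · have hjs : j = T.sig := by
          by_contra hne
          exact hsmall (j - T.sig) (by omega) (by omega) (by omega) hs
        have hus := h.U_sig
        rw [← hjs] at hus
        have h3 : A.NN ∣ c + A.W1 := by
          have := dvd_add a3 hus
          rwa [show c - A.U j + (A.U j + A.W1) = c + A.W1 by ring] at this
        have := Int.le_of_dvd (by omega) h3
        omega
      · have := hno j c (by omega) (by omega) hs a3 (by omega)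
        have hm : (0 : ℤ) ≤ A.q * min (A.w : ℤ) (A.h - j) :=
          mul_nonneg hq0.le (le_min (by omega) (by omega))
        omega
  have hRA : ∀ j, ¬ A.RA A.y0 c j := by
    rintro j ⟨a1, a2, a3⟩
    unfold y0 at a1 a2
    have a4 : A.NN ∣ (c - A.W1) - A.U j := by
      have e : (c - A.W1) - A.U j = c - (A.U j + A.W1) := by ring
      rw [e]; exact a3
    by_cases hs : (A.p : ℤ) ∣ j - T.sig
    · have hjs : j = T.sig := by
        by_contra hne
        exact hsmall (j - T.sig) (by omega) (by omega) (by omega) hs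
      have hus := h.U_sig
      rw [← hjs] at hus
      have h3 : A.NN ∣ c := by
        have := dvd_add a4 hus
        rwa [show c - A.W1 - A.U j + (A.U j + A.W1) = c by ring] at this
      have := Int.le_of_dvd (by omega) h3
      omega
    · have := hno j (c - A.W1) (by omega) (by omega) hs a4 (by omega)
      have hm : (0 : ℤ) ≤ A.q * min (A.w : ℤ) (A.h - j) :=
        mul_nonneg hq0.le (le_min (by omega) (by omega))
      omega
  rcases A.g_cases A.y0 hc with h1 | h1 | h1
  · exact h1.1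
  · obtain ⟨j, hj⟩ := h1.2.1
    exact absurd hj (hLA j)
  · obtain ⟨j, hj⟩ := h1.2.1
    exact absurd hj (hRA j)

theorem specA (h : NPH A T)
    (hno : ∀ k u, 1 ≤ k → k ≤ A.h → ¬ (A.p : ℤ) ∣ k - T.sig → A.NN ∣ u - A.U k →
      -(A.q * (A.w : ℤ)) < u → A.D + A.q * min (A.w : ℤ) (A.h - k) ≤ u)
    {k u : ℤ} (k0 : A.h < k) (k1 : k < A.w + A.h) (hu : A.NN ∣ u - A.U k)
    (u0 : -(A.q * (A.w : ℤ)) < u) (u1 : u < A.D + A.q * (A.h - k)) :
    A.q * A.h < u + A.q * k ∧ u + A.q * k < A.D := by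
  obtain ⟨z1, z2, z3, z4, z5, z6, z7, z8, z9⟩ := h.sz
  have hno' : ∀ k u : ℤ, 1 ≤ k → k ≤ A.h → ¬ (A.p : ℤ) ∣ k - T.sig → A.NN ∣ u - A.U k →
      -(A.q * (A.w : ℤ)) < u → A.D + A.q * min (A.w : ℤ) (A.h - k) ≤ u := by
    intro k u a b c d e
    obtain ⟨n, rfl⟩ := Int.eq_ofNat_of_zero_le (show 0 ≤ k by omega)
    exact hno n u (by omega) (by omega) c d e
  have hq0 : (0 : ℤ) < A.q := by omega
  have hDH := A.D_H'
  have hDW := A.D_W'
  have hD0 := A.D_pos
  have hqwh : (A.q : ℤ) * A.w ≤ A.q * A.h := mul_le_mul_of_nonneg_left (by omega) hq0.le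
  have hqw0 : (0 : ℤ) < A.q * A.w := mul_pos hq0 (by omega)
  have hsmall : ∀ z : ℤ, z ≠ 0 → -(A.p : ℤ) < z → z < A.p → ¬ (A.p : ℤ) ∣ z := by
    intro z hz hz1 hz2 hd
    exact hz (Int.eq_zero_of_abs_lt_dvd hd (by rw [abs_lt]; constructor <;> omega))
  have hW6 : A.W1 ≤ A.q * A.w + 1 ∧ A.q * A.w - 1 ≤ A.W1 := by
    unfold W1; rcases A.hsg with hs | hs <;> rw [hs] <;> constructor <;> omega
  have hW7 := A.W1_bd
  have hkp : ¬ (A.p : ℤ) ∣ k := hsmall k (by omega) (by omega) (by omega)
  have hpu : (A.p : ℤ) ∣ u := by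
    have := dvd_add (A.p_NN.trans hu) (pU A k)
    rwa [sub_add_cancel] at this
  have e1 : (A.q : ℤ) * (A.h - k) = A.q * A.h - A.q * k := by ring
  have hk1 : (A.q : ℤ) * A.h + A.q ≤ A.q * k := by
    have : (A.q : ℤ) * (A.h + 1) ≤ A.q * k := mul_le_mul_of_nonneg_left (by omega) hq0.le
    have e : (A.q : ℤ) * (A.h + 1) = A.q * A.h + A.q := by ring
    omega
  have hk2 : (A.q : ℤ) * k ≤ A.q * A.w + A.q * A.h - A.q := by
    have : (A.q : ℤ) * k ≤ A.q * (A.w + A.h - 1) := mul_le_mul_of_nonneg_left (by omega) hq0.le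
    have e : (A.q : ℤ) * (A.w + A.h - 1) = A.q * A.w + A.q * A.h - A.q := by ring
    omega
  -- the lower bound
  have hlow : (A.q : ℤ) * A.h < u + A.q * k := by
    by_contra hc
    rcases lt_or_eq_of_le (not_lt.1 hc) with h1 | h1
    · have := h.nov0 hkp hu u0 (by omega) (by omega) h1
      exact hsmall _ (by omega) (by omega) (by omega) this
    · have h2 : (A.p : ℤ) ∣ A.q * (A.h - k) := by
        have e : (A.q : ℤ) * (A.h - k) = u := by omega
        rw [e]; exact hpu
      exact hsmall _ (by omega) (by omega) (by omega) (A.cop_pq_spA h2)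
  refine ⟨hlow, ?_⟩
  -- u < D - q w
  have hup : u < A.D - A.q * A.w := by
    by_contra hc
    rcases lt_or_eq_of_le (not_lt.1 hc) with h1 | h1
    · have hn := h.nov1 hkp hu (by omega) (by omega) (by omega) (by omega)
      have h2 := h.U_nsig
      have h3 : A.NN ∣ A.U k - A.U (-T.sig) := U_cong (by
        rw [sub_neg_eq_add]; exact hn)
      have h4 : A.NN ∣ u - (A.D + A.W1) := by
        have := dvd_add (dvd_add hu h3) h2
        rwa [show u - A.U k + (A.U k - A.U (-T.sig)) + (A.U (-T.sig) - (A.D + A.W1))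
          = u - (A.D + A.W1) by ring] at this
      have := eq_of_dvd h4 (by omega) (by omega)
      omega
    · have h2 : (A.p : ℤ) ∣ A.q * A.w := by
        have e : (A.q : ℤ) * A.w = A.D - u := by omega
        rw [e]; exact dvd_sub A.p_D hpu
      exact hsmall _ (by omega) (by omega) (by omega) (A.cop_pq_spA h2)
  -- f and g
  have hf : A.fv A.y0 A.D = A.kp + 1 := by
    rw [← h.f_zero]
    exact f_const (by omega) (fun v j a b => E1_spA h hno' a b)
  have hpx : (A.p : ℤ) ∣ u + A.W1 := dvd_add hpu A.p_W1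
  have hx0 : 0 < u + A.W1 := by omega
  have hx1 : u + A.W1 ≤ A.D := by omega
  have hxp : (A.p : ℤ) ≤ u + A.W1 := Int.le_of_dvd hx0 hpx
  have hg : A.gv A.y0 (u + A.W1) = A.kp + 1 := by
    rw [← h.g_in0 (dvd_refl (A.p : ℤ)) (by omega) (by omega)]
    exact g_const (dvd_refl _) hpx hxp (fun c h1 h2 h3 => E2_spA h hno' h1 (by omega) (by omega))
  have hal := h.alpha (y := A.y0) (x := u + A.W1) (v := A.D) (by unfold y0; omega)
    (by unfold y0; omega) hpx hx0 hx1 le_rfl (by omega) (Or.inr (by omega))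
  rw [hf, hg] at hal
  by_contra hc
  rcases lt_or_eq_of_le (not_lt.1 hc) with h1 | h1
  · have hCx : A.Cx k (u + A.W1) := Cx_of (δ := A.W1) hpx (by
      rw [show u + A.W1 - (A.U k + A.W1) = u - A.U k by ring]; exact hu) (by omega) le_rfl
    have hRw : A.Rw k A.D := Rw_of (δ := u + A.q * k - A.D) (by
      rw [V_eq, show A.D - (A.U k + A.q * k - (u + A.q * k - A.D)) = u - A.U k by ring]
      exact hu) (by omega) (by omega)
    have := Rv_of hCx hRw
    omega
  · have h2 : (A.p : ℤ) ∣ A.q * k := by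
      have e : (A.q : ℤ) * k = A.D - u := by omega
      rw [e]; exact dvd_sub A.p_D hpu
    exact hkp (A.cop_pq_spA h2)

end NPH

end TAp

end Pool.Agent.H78.Tie
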