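import Pool.Agent.H67.NP.Nov
import Pool.Agent.H67.NP.Ab

/-! # NoPass : SpecB

Special case, level 0.  b := u + q k - q h in (0, D - q h).
T rows [0,w-1], B rows [h,n).  f0 := fv 0.  F1: no T event of a row in [1,w-1] at v in (0,D): u' := v - q j in (-q(w-1), D): hno (j <= h, j <> sig as j < w; u' < D + q min(w,h-j)).
 So f0 v <= f0 (v-1) for v in (0,D) (f_cases: an up jump at v needs a T row: j = 0: V 0 = 0).  f0 0 = f0(-1) + 1 (f_T, row 0).
F2: f0 b = f0 (b-1) - 1 (f_B: row k in [h, h+w)).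
F3: no event at v in (-q, 0): T: row j in [1,w-1]: u' := v - q j in (-qw,0), u' + q j = v: nov0: j = sig no. B: row j in [h,n): u' := v + q(h - j) in (-qw, 0), u' + q j = v + q h in (0,qh)..:
 nov0: j = sig mod p: then sig = h = j, u' = v = -W1: not in (-q,0) (W1 >= 2q-1).  So f0 = K := f0(-1) on (-q.., -1].
 gid' at x = 0 (y = 0, th = 0): v = -k0: gv 0 0 = Rv 0 (-k0) + f0(-k0) = 1 + K: row sig covers (0, -k0): U_sig, V sig = q xi - sg (xi >= 1), xi + w <= h.
F4: beta (y = 0) at x = N, v in [0,D) (D + W1 < N by D_W'): R(0,v) - (K+1) + f0 v >= 0.  So f0 v >= K on [0,D).  f0 b <= f0 0 - 1 = K. So f0 = K on [b,D) and R(0,v) >= 1 there: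
 `single`: D - b <= q h.  But D - b = D - (u + q k) + q h > q h.  Contradiction.
-/

namespace Pool.Agent.H78.Tie

open Finset
open Pool.Agent.H98.Flat
open Pool.Agent.H67.Flat

set_option linter.dupNamespace false
set_option linter.unusedVariables false

namespace TAp

variable {A : TAp}

namespace NPH

variable {T : A.Tie}

/-- the row `sig` is not the row `j` -/
private theorem nd_sig (h : NPH A T) {j : ℤ} (h0 : 0 ≤ j) (h1 : j ≤ A.w) : ¬ (A.p : ℤ) ∣ j - T.sig := by
  intro hc
  have sz := h.sz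
  have := Int.eq_zero_of_abs_lt_dvd hc (by rw [abs_lt]; constructor <;> omega)
  omega

private theorem DW_lt (h : NPH A T) : A.D + A.W1 < A.NN := by
  have h1 := A.D_W'
  have hW1 : A.W1 = A.q * A.w + A.sg := rfl
  have hsg := A.hsg
  have h2 : A.D + A.W1 ≤ A.NN := by rcases hsg with h | h <;> rw [h] at hW1 <;> omega
  rcases h2.lt_or_eq with h3 | h3
  · exact h3
  · exfalso
    have h4 := h.U_nsig
    rw [h3] at h4
    have h5 : A.NN ∣ A.U (-T.sig) - A.U 0 := by
      rw [A.U_zero', sub_zero]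
      have := dvd_add h4 (dvd_refl A.NN)
      rwa [sub_add_cancel] at this
    have h6 := UU h5
    have sz := h.sz
    have := Int.eq_zero_of_abs_lt_dvd h6 (by rw [abs_lt]; constructor <;> omega)
    omega

theorem specB (h : NPH A T)
    (hno : ∀ k u, 1 ≤ k → k ≤ A.h → ¬ (A.p : ℤ) ∣ k - T.sig → A.NN ∣ u - A.U k →
      -(A.q * (A.w : ℤ)) < u → A.D + A.q * min (A.w : ℤ) (A.h - k) ≤ u)
    {k u : ℤ} (k0 : A.h < k) (k1 : k < A.w + A.h) (hu : A.NN ∣ u - A.U k)
    (v0 : A.q * A.h < u + A.q * k) (v1 : u + A.q * k < A.D) : False := by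
  have sz := h.sz
  have hq := A.q_pos'
  have hN := A.NN_pos
  have hD := A.D_pos
  have dh := A.D_H'
  have dw := h.DW_lt
  have w1 := A.W1_bd
  have hsg := A.hsg
  have hW1 : A.W1 = A.q * A.w + A.sg := rfl
  have hnn : A.nn = A.w + A.h := rfl
  have nl := A.nn_lt
  have hqw : (0 : ℤ) ≤ A.q * A.w := by positivity
  have hqh2 : (A.q : ℤ) * 2 ≤ A.q * A.h := mul_le_mul_of_nonneg_left (by omega) hq.le
  have V0 : A.V 0 = 0 := by rw [V_eq, A.U_zero']; ring
  have hno' : ∀ k u : ℤ, 1 ≤ k → k ≤ A.h → ¬ (A.p : ℤ) ∣ k - T.sig → A.NN ∣ u - A.U k →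
      -(A.q * (A.w : ℤ)) < u → A.D + A.q * min (A.w : ℤ) (A.h - k) ≤ u := by
    intro k u a0 a1 a2 a3 a4
    have e : ((k.toNat : ℕ) : ℤ) = k := Int.toNat_of_nonneg (by omega)
    have := hno k.toNat u (by omega) (by omega)
    rw [e] at this
    exact this a2 a3 a4
  -- no T event inside
  have F1 : ∀ v, 0 < v → v < A.D → A.fv 0 v ≤ A.fv 0 (v - 1) := by
    intro v a0 a1
    rcases A.f_cases 0 v with ⟨h1, -⟩ | ⟨-, j, j0, j1, hj⟩ | ⟨h1, -⟩
    · exact h1.le
    · exfalso
      rcases j0.eq_or_lt with hj0 | hj0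
      · subst hj0
        rw [V0, sub_zero] at hj
        have := Int.le_of_dvd a0 hj
        omega
      · have e : A.NN ∣ (v - A.q * j) - A.U j := by
          rw [V_eq] at hj
          rwa [show v - A.q * j - A.U j = v - (A.U j + A.q * j) by ring]
        have m1 : (A.q : ℤ) * j ≤ A.q * (A.w - 1) := mul_le_mul_of_nonneg_left (by omega) hq.le
        have m2 : 0 ≤ (A.q : ℤ) * j := mul_nonneg hq.le j0
        have m3 : 0 ≤ (A.q : ℤ) * min (A.w : ℤ) (A.h - j) := mul_nonneg hq.le (by omega)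
        rw [mul_sub, mul_one] at m1
        have := hno' j (v - A.q * j) (by omega) (by omega) (h.nd_sig j0 (by omega)) e (by omega)
        omega
    · omega
  have F1' : ∀ (n : ℕ) (v : ℤ), 0 ≤ v → v + n < A.D → A.fv 0 (v + n) ≤ A.fv 0 v := by
    intro n
    induction n with
    | zero => intro v _ _; simp
    | succ n ih =>
      intro v a0 a1
      push_cast at a1 ⊢
      have h1 := F1 (v + (n + 1)) (by omega) a1
      rw [show v + ((n : ℤ) + 1) - 1 = v + n by ring] at h1
      exact h1.trans (ih v a0 (by omega))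
  have mono : ∀ v v', 0 ≤ v → v ≤ v' → v' < A.D → A.fv 0 v' ≤ A.fv 0 v := by
    intro v v' a0 a1 a2
    have := F1' (v' - v).toNat v a0 (by rw [Int.toNat_of_nonneg (by omega)]; omega)
    rwa [Int.toNat_of_nonneg (by omega), show v + (v' - v) = v' by ring] at this
  have f00 : A.fv 0 0 = A.fv 0 (-1) + 1 := by
    have := f_T (A := A) (y := 0) (k := 0) (v := 0) le_rfl (by omega) (by rw [V0]; simp)
    simpa using this
  -- the B event at `b`
  have F2 : A.fv 0 (u + A.q * k - A.q * A.h) = A.fv 0 (u + A.q * k - A.q * A.h - 1) - 1 := by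
    apply f_B (A := A) (y := 0) (k := k) (by omega) (by omega)
    rw [V_eq]
    rwa [show u + A.q * k - A.q * A.h - (A.U k + A.q * k - A.q * A.h) = u - A.U k by ring]
  -- no event just below `0`
  have F3 : ∀ v j, -(A.q : ℤ) < v → v < 0 → ¬ A.Ev 0 v j := by
    intro v j a0 a1 hE
    rcases hE with ⟨j0, j1, hj⟩ | ⟨j0, j1, hj⟩
    · rcases j0.eq_or_lt with hj0 | hj0
      · subst hj0
        rw [V0, sub_zero] at hj
        have := Int.le_of_dvd (by omega : 0 < -v) ((dvd_neg).2 hj)
        omega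
      · have e : A.NN ∣ (v - A.q * j) - A.U j := by
          rw [V_eq] at hj
          rwa [show v - A.q * j - A.U j = v - (A.U j + A.q * j) by ring]
        have m1 : (A.q : ℤ) * j ≤ A.q * (A.w - 1) := mul_le_mul_of_nonneg_left (by omega) hq.le
        have m2 : 0 ≤ (A.q : ℤ) * j := mul_nonneg hq.le j0
        rw [mul_sub, mul_one] at m1
        have hd : ¬ (A.p : ℤ) ∣ j := by
          intro hc
          have := Int.le_of_dvd hj0 hc
          omega
        exact h.nd_sig j0 (by omega) (h.nov0 hd e (by omega) (by omega) (by omega) (by omega))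
    · have e : A.NN ∣ (v + A.q * (A.h - j)) - A.U j := by
        rw [V_eq] at hj
        rwa [show v + A.q * (A.h - j) - A.U j = v - (A.U j + A.q * j - A.q * A.h) by ring]
      have m1 : (A.q : ℤ) * -(A.w - 1) ≤ A.q * (A.h - j) :=
        mul_le_mul_of_nonneg_left (by omega) hq.le
      have m2 : (A.q : ℤ) * (A.h - j) ≤ A.q * 0 := mul_le_mul_of_nonneg_left (by omega) hq.le
      have m3 : (A.q : ℤ) * -(A.w - 1) = A.q - A.q * A.w := by ring
      have m4 : (A.q : ℤ) * (A.h - j) + A.q * j = A.q * A.h := by ring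
      have hd : ¬ (A.p : ℤ) ∣ j := by
        intro hc
        have := Int.le_of_dvd (by omega) hc
        omega
      have h1 := h.nov0 hd e (by omega) (by omega) (by omega) (by omega)
      have h2 := Int.eq_zero_of_abs_lt_dvd h1 (by rw [abs_lt]; constructor <;> omega)
      have h3 : j = T.sig := by omega
      have h4 : (A.h : ℤ) - j = 0 := by omega
      rw [h4, mul_zero, add_zero, h3] at e
      have h5 := dvd_add e h.U_sig
      rw [show v - A.U T.sig + (A.U T.sig + A.W1) = v + A.W1 by ring] at h5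
      have := Int.le_of_dvd (by omega) h5
      omega
  have F3' : A.fv 0 (-A.k0) = A.fv 0 (-1) := by
    have hk := A.k0_cases
    have h5 := sz.2.2.2.2.2.1
    symm
    apply f_const (by rcases hk with h | h <;> omega)
    intro v j a0 a1
    exact F3 v j (by rcases hk with h | h <;> omega) (by omega)
  -- column `0`
  have R0 : A.Rv 0 (-A.k0) = 1 := by
    have h1 : 1 ≤ A.Rv 0 (-A.k0) := by
      apply Rv_of (k := T.sig)
      · apply Cx_of (δ := A.W1) (dvd_zero _) _ (by omega) le_rfl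
        have := (dvd_neg).2 h.U_sig
        rwa [show -(A.U T.sig + A.W1) = 0 - (A.U T.sig + A.W1) by ring] at this
      · have m1 : (A.q : ℤ) * (T.sig - A.w) ≤ A.q * A.h - 2 * A.q := by
          have := mul_le_mul_of_nonneg_left (show T.sig - A.w ≤ (A.h : ℤ) - 2 by omega) hq.le
          rwa [show (A.q : ℤ) * (A.h - 2) = A.q * A.h - 2 * A.q by ring] at this
        have m2 : (A.q : ℤ) * 1 ≤ A.q * (T.sig - A.w) := mul_le_mul_of_nonneg_left (by omega) hq.le
        have hk := A.k0_cases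
        apply Rw_of (δ := A.q * (T.sig - A.w) - A.sg + A.k0)
        · have := (dvd_neg).2 h.U_sig
          rw [V_eq, hW1] at *
          rwa [show -A.k0 - (A.U T.sig + A.q * T.sig - (A.q * (T.sig - A.w) - A.sg + A.k0))
            = -(A.U T.sig + (A.q * A.w + A.sg)) by ring]
        · rcases hk with ⟨h1, h2⟩ | ⟨h1, h2⟩ <;> rw [h1, h2] <;> omega
        · rcases hk with ⟨h1, h2⟩ | ⟨h1, h2⟩ <;> rw [h1, h2] <;> omega
    rcases h.Rv01 (x := 0) (dvd_zero _) (-A.k0) with h2 | h2 <;> omega
  have g0 : A.gv 0 0 = 1 + A.fv 0 (-1) := by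
    have := A.gid' (y := 0) (x := 0) (θ := 0) le_rfl hq.le
    rw [mul_zero, zero_sub, add_zero, sub_zero, R0, F3'] at this
    exact this
  have gN : A.gv 0 A.NN = A.gv 0 0 := gv_cong (by rw [sub_zero])
  have key : ∀ v, u + A.q * k - A.q * A.h ≤ v → v < A.D → 1 ≤ A.Rv A.NN v := by
    intro v a0 a1
    have b := h.beta (y := 0) (x := A.NN) (v := v) (by omega) le_rfl A.p_NN (by omega) le_rfl
      (by omega) a1 (Or.inl dw)
    have c1 := mono (u + A.q * k - A.q * A.h) v (by omega) a0 a1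
    have c2 := mono 0 (u + A.q * k - A.q * A.h - 1) le_rfl (by omega) (by omega)
    rw [gN, g0] at b
    omega
  obtain ⟨-, -, -, hl⟩ := h.single (x := A.NN) (v0 := u + A.q * k - A.q * A.h) (v1 := A.D) A.p_NN
    (by omega) key
  omega

end NPH

end TAp

end Pool.Agent.H78.Tie
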