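import Pool.Agent.H67.NP.CaseI
import Pool.Agent.H67.NP.CaseII
import Pool.Agent.H67.NP.CaseS
import Pool.Agent.H67.NP.SpecA
import Pool.Agent.H67.NP.SpecB

/-! # NoPass : NoPass

Final assembly (helper67).
-/

namespace Pool.Agent.H78.Tie

open Finset
open Pool.Agent.H98.Flat
open Pool.Agent.H67.Flat

set_option linter.dupNamespace false
set_option linter.unusedVariables false

namespace TAp

variable {A : TAp}

namespace NPH

variable {T : A.Tie}

/-- a passing rectangle with a row in `[1, h]` -/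
theorem low (h : NPH A T) {k u : ℤ} (k0 : 1 ≤ k) (k1 : k ≤ A.h) (hk : ¬ (A.p : ℤ) ∣ k - T.sig)
    (hu : A.NN ∣ u - A.U k) (u0 : -(A.q * (A.w : ℤ)) < u)
    (u1 : u < A.D + A.q * min (A.w : ℤ) (A.h - k)) : False := by
  have hpp := A.p_pos'
  have hq := A.q_pos'
  obtain ⟨s1, s2, s3, s4, s5, s6, s7, s8, s9⟩ := h.sz
  have hW1 : A.W1 = A.q * A.w + A.sg := rfl
  have hsg := A.hsg
  have hk0 := A.k0_cases
  have hkp : ¬ (A.p : ℤ) ∣ k := SC.ndvd (by omega) (by omega)
  have pu : (A.p : ℤ) ∣ u := by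
    have := dvd_add (A.p_NN.trans hu) (A.pU k)
    rwa [sub_add_cancel] at this
  have q1 : (A.q : ℤ) * 1 ≤ A.q * k := mul_le_mul_of_nonneg_left k0 hq.le
  have q2 : (A.q : ℤ) * (A.w + 1) ≤ A.q * A.h := mul_le_mul_of_nonneg_left s2 hq.le
  rw [mul_add, mul_one] at q2
  have q3 : (A.q : ℤ) * min (A.w : ℤ) (A.h - k) ≤ A.q * A.w :=
    mul_le_mul_of_nonneg_left (min_le_left _ _) hq.le
  have q4 : (A.q : ℤ) * min (A.w : ℤ) (A.h - k) ≤ A.q * (A.h - k) :=
    mul_le_mul_of_nonneg_left (min_le_right _ _) hq.le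
  have q5 : (A.q : ℤ) * (A.h - k) = A.q * A.h - A.q * k := by ring
  have q6' : 0 ≤ (A.q : ℤ) * (A.h - k) := mul_nonneg hq.le (by omega)
  have q7 : 0 ≤ (A.q : ℤ) * A.w := by positivity
  -- `0 < u`
  have upos : 0 < u := by
    by_contra hc
    have : u ≠ 0 := by
      intro h0
      apply hkp
      have h1 : A.NN ∣ A.U k - A.U 0 := by
        rw [A.U_zero', sub_zero, ← dvd_neg]
        rwa [h0, zero_sub] at hu
      simpa using UU h1
    exact hk (h.nov0 hkp hu u0 (by omega) (by omega) (by omega))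
  have up := Int.le_of_dvd upos pu
  have uD : u - A.D ≤ -(A.q * (A.w : ℤ)) := by
    by_contra hc
    have h1 := h.nov1 hkp hu (by omega) (by omega) (by omega) (by omega)
    exact SC.ndvd (by omega) (by omega) h1
  have hD : A.W1 < A.D := by rcases hsg with h | h <;> rw [h] at hW1 <;> omega
  rcases h.phi hD with hp | hp
  · exact h.caseI hD hp
  by_cases hg : ∀ c, (A.p : ℤ) ∣ c → 0 < c → c < A.D → A.gv A.y0 (c + A.p) = A.gv A.y0 c
  · set c := u + A.W1 with hc
    have pc : (A.p : ℤ) ∣ c := dvd_add pu A.p_W1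
    have RAc : A.RA A.y0 c k := by
      refine ⟨by unfold y0; omega, by unfold y0; omega, ?_⟩
      rwa [hc, add_sub_add_right_eq_sub]
    have c1 : c ≤ A.D := by
      apply dvd_gap pc A.p_D
      rcases hsg with h | h <;> rw [h] at hW1 <;> omega
    have c2 : c ≠ A.D := by
      intro hcD
      have h1 := h.act_D hD (c := A.D) A.p_D le_rfl (by have := A.W1_bd; omega)
      rcases A.g_cases A.y0 A.p_D with ⟨_, e⟩ | ⟨e, _, _⟩ | ⟨e, _, _⟩
      · rw [hcD] at RAc
        obtain ⟨j, hj⟩ := e.2 ⟨k, RAc⟩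
        apply A.U_ne_D j
        have := hj.2.2
        rwa [← dvd_neg, neg_sub] at this
      · omega
      · omega
    have c0 : 0 < c := by have := A.W1_bd; omega
    have g1 : A.gv A.y0 c = A.kp + 1 := by
      rw [← h.g_in0 (x := A.p) (dvd_refl _) hpp.le (by have := A.W1_bd; omega)]
      apply g_const (dvd_refl _) pc (by have := A.W1_bd; omega)
      intro z z1 z2 z3
      exact hg z z1 (by omega) (by omega)
    have e := A.gid' (y := A.y0) (x := c) (θ := 0) le_rfl hq.le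
    rw [sub_zero] at e
    have hR : A.Rv c (c - A.k0 + A.q * A.y0) = 1 := by
      have h1 : 1 ≤ A.Rv c (c - A.k0 + A.q * A.y0) := by
        apply Rv_of (k := k)
        · exact Cx_of pc RAc.2.2 (by have := A.W1_bd; omega) le_rfl
        · apply Rw_of (δ := A.q * (k - 1) - A.sg + A.k0)
          · rw [hc, A.V_eq]
            unfold y0
            rwa [show u + A.W1 - A.k0 + A.q * (1 - (A.w : ℤ))
              - (A.U k + A.q * k - (A.q * (k - 1) - A.sg + A.k0)) = u - A.U k by rw [hW1]; ring]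
          · have : 0 ≤ (A.q : ℤ) * (k - 1) := mul_nonneg hq.le (by omega)
            rcases hk0 with ⟨h, h'⟩ | ⟨h, h'⟩ <;> rw [h, h'] <;> omega
          · have : (A.q : ℤ) * (k - 1 + 1) ≤ A.q * A.h := mul_le_mul_of_nonneg_left (by omega) hq.le
            rw [mul_add, mul_one] at this
            rcases hk0 with ⟨h, h'⟩ | ⟨h, h'⟩ <;> rw [h, h'] <;> omega
      have := h.Rv01 pc (c - A.k0 + A.q * A.y0)
      omega
    have ey : (A.q : ℤ) * A.y0 = A.q - A.q * A.w := by unfold y0; ring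
    refine h.caseS hD hp hg (v := c - A.k0 + A.q * A.y0) ?_ ?_ (by omega)
    · rw [ey]
      rcases hk0 with ⟨h, h'⟩ | ⟨h, h'⟩ <;> rw [h] at hW1 <;> rw [h'] <;> omega
    · rw [ey]
      have : (A.q : ℤ) * 1 ≤ A.q * A.w := mul_le_mul_of_nonneg_left (by omega) hq.le
      rcases hk0 with ⟨h, h'⟩ | ⟨h, h'⟩ <;> rw [h'] <;> omega
  · push Not at hg
    obtain ⟨c, c1, c2, c3, c4⟩ := hg
    exact h.caseII hD hp c1 c2 c3 c4

/-- **NoPass** -/
theorem noPass (h : NPH A T) : T.NoPass := by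
  intro i m f s hc hi s0 s1 ⟨hm, hlt⟩
  have hq := A.q_pos'
  obtain ⟨z1, z2, z3, z4, z5, z6, z7, z8, z9⟩ := h.sz
  have c1 := hc.U0
  have hu : A.NN ∣ (A.q * m + f) - A.U s := by
    rw [← dvd_neg, neg_sub]
    exact c1
  have u0 : -(A.q * (A.w : ℤ)) < A.q * m + f := by
    have : (A.q : ℤ) * -(A.w : ℤ) ≤ A.q * m := mul_le_mul_of_nonneg_left hm hq.le
    rw [mul_neg] at this
    have := hc.2.2.1
    omega
  by_cases hs : s ≤ A.h
  · refine h.low (by omega) hs ?_ hu u0 hlt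
    intro hd
    apply hi
    have h1 := T.row
    rw [h.ep] at h1
    apply idx_inj (A := A)
    · obtain ⟨x1, hx1⟩ := h1
      obtain ⟨x2, hx2⟩ := hc.2.2.2.2.2
      obtain ⟨x3, hx3⟩ := hd
      unfold Tie.sig at hx3
      exact ⟨x2 - x1 + x3, by linear_combination hx2 - hx1 + hx3⟩
    · have := hc.2.1; have := T.t0; omega
    · have := hc.1; have := T.tp; omega
  · have e : min (A.w : ℤ) (A.h - s) = A.h - s := min_eq_right (by omega)
    rw [e] at hlt
    have hno : ∀ k u, 1 ≤ k → k ≤ A.h → ¬ (A.p : ℤ) ∣ k - T.sig → A.NN ∣ u - A.U k →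
        -(A.q * (A.w : ℤ)) < u → A.D + A.q * min (A.w : ℤ) (A.h - k) ≤ u := by
      intro k u a1 a2 a3 a4 a5
      by_contra hcc
      exact h.low (k := k) (by omega) (by omega) a3 a4 a5 (by omega)
    obtain ⟨b1, b2⟩ := h.specA hno (by omega) s1 hu u0 hlt
    exact h.specB hno (by omega) s1 hu b1 b2

end NPH

end TAp

end Pool.Agent.H78.Tie
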