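import Pool.Agent.H67.NP.Dis

/-! # NoPass : Nov

nov0: `h.nov` (`Tie.NoOv`) for the class i = ix k (see `VR.np'` in H98.Tie.VBase for the same
conversion from lifts u to (m, f)): u = q m + f, -w <= m < w, -h <= m + k < h (f > 0 since q does not
divide u: `A.gen`), so i = t, i.e. ix k = t = ix sig: `ix_inj`.  ix sig = t: proof as `VR.ix_sig`.
nov1: the class p - ix k has lift D - u and row -k (`Cls.neg` or `ix_neg`); it overlaps class 0, so it
is t, i.e. ix (-k) = ix sig.
U_sig: `VR.at_cong`-like: a t = -W1 mod N.  U_nsig: a (p - t) = D + W1.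
LR: U k = U j + W1 mod N; by `Tie.partner` ix j = ix k + t (then j = k + sig mod p, and
j - k - sig is in (-p, p)) or ix j = ix k - (q - t): then `sec_row` gives
(k - j + w) mod p = (x + ep om h) mod p in (h, p - h) by `h.sgl` (first alternative of Single: q - t >= p,
impossible as ix j >= 0 and ix k < p; note q - t = p also impossible), but k - j + w is in [1 - h, h - 1].
-/

namespace Pool.Agent.H78.Tie

open Finset
open Pool.Agent.H98.Flat
open Pool.Agent.H67.Flat

set_option linter.dupNamespace false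
set_option linter.unusedVariables false

namespace TAp

variable {A : TAp}

namespace NPH

variable {T : A.Tie}

private theorem ix_sig (h : NPH A T) : A.ix T.sig = T.t := by
  have := T.row
  rw [h.ep] at this
  apply ix_of T.t0.le T.tp
  unfold Tie.sig
  rwa [show A.e * T.t - (A.w - T.x) = A.e * T.t - -1 * (T.x - A.w) by ring]

private theorem ix_nsig (h : NPH A T) : A.ix (-T.sig) = A.p - T.t := by
  have h1 := T.row
  rw [h.ep] at h1
  have t0 := T.t0
  have tp := T.tp
  apply ix_of (by omega) (by omega)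
  unfold Tie.sig
  obtain ⟨z, hz⟩ := h1
  exact ⟨A.e - z, by linear_combination -hz⟩

private theorem at_cong (h : NPH A T) : A.NN ∣ A.a * T.t + A.W1 := by
  have := T.tie
  rw [h.ep] at this
  unfold NN W1
  rwa [show A.a * T.t + (A.q * A.w + A.sg) = A.a * T.t - -1 * (A.q * A.w + A.sg) by ring]

private theorem U_ix (A : TAp) (k : ℤ) : A.U k = A.a * A.ix k := A.ix_U k

/-- no overlap with the rectangle of class `0` -/
theorem nov0 (h : NPH A T) {k u : ℤ} (hk : ¬ (A.p : ℤ) ∣ k) (hu : A.NN ∣ u - A.U k)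
    (u0 : -(A.q * (A.w : ℤ)) < u) (u1 : u < A.q * A.w)
    (v0 : -(A.q * (A.h : ℤ)) < u + A.q * k) (v1 : u + A.q * k < A.q * A.h) :
    (A.p : ℤ) ∣ k - T.sig := by
  by_contra hc
  have hne : A.ix k ≠ T.t := by
    intro hi
    apply hc
    rw [← h.ix_sig] at hi
    exact ix_inj hi
  have hq := A.q_pos'
  have f0 := Int.emod_nonneg u hq.ne'
  have f1 := Int.emod_lt_of_pos u hq
  have fe := Int.emod_add_mul_ediv u A.q
  have i0 := ix_pos hk
  have i1 := A.ix_lt k
  rw [U_ix] at hu
  obtain ⟨c, hc'⟩ := hu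
  unfold NN at hc'
  have fne : u % A.q ≠ 0 := by
    intro hf
    refine A.gen (A.ix k) i0.ne' (by rw [abs_of_pos i0]; omega) ?_
    rw [hf] at fe
    exact ⟨u / A.q - A.p * c, by linear_combination -fe - hc'⟩
  -- bounds
  have bd : ∀ y n : ℤ, A.q * y + u % A.q = n → ∀ c : ℤ, (-(A.q * c) < n → -c ≤ y) ∧
      (n < A.q * c → y < c) := by
    intro y n h c
    constructor
    · intro h1
      have h2 : A.q * (-c) < A.q * (y + 1) := by rw [mul_neg, mul_add]; omega
      have := lt_of_mul_lt_mul_left h2 hq.le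
      omega
    · intro h1
      have h2 : A.q * y < A.q * c := by omega
      exact lt_of_mul_lt_mul_left h2 hq.le
  have e2 : A.q * (u / A.q + k) + u % A.q = u + A.q * k := by linear_combination fe
  exact h.nov (A.ix k) (u / A.q) (u % A.q) k
    ⟨i0, i1, by omega, f1, ⟨-c, by linear_combination -fe - hc'⟩, A.ix_row k⟩ hne
    ⟨(bd _ _ (by omega) A.w).1 u0, (bd _ _ (by omega) A.w).2 u1, (bd _ _ e2 A.h).1 v0,
      (bd _ _ e2 A.h).2 v1⟩

/-- no overlap with the rectangle of class `p` -/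
theorem nov1 (h : NPH A T) {k u : ℤ} (hk : ¬ (A.p : ℤ) ∣ k) (hu : A.NN ∣ u - A.U k)
    (u0 : -(A.q * (A.w : ℤ)) < u - A.D) (u1 : u - A.D < A.q * A.w)
    (v0 : -(A.q * (A.h : ℤ)) < u - A.D + A.q * k) (v1 : u - A.D + A.q * k < A.q * A.h) :
    (A.p : ℤ) ∣ k + T.sig := by
  have hk' : ¬ (A.p : ℤ) ∣ -k := by rwa [dvd_neg]
  have hu' : A.NN ∣ (A.D - u) - A.U (-k) := by
    rw [U_ix] at hu ⊢
    rw [ix_neg hk]
    have := (dvd_neg).2 (dvd_add hu A.D_cong)
    rwa [show -(u - A.a * A.ix k + (A.a * A.p - A.D))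
      = A.D - u - A.a * (A.p - A.ix k) by ring] at this
  have := h.nov0 hk' hu' (by omega) (by omega)
    (by rw [mul_neg]; omega) (by rw [mul_neg]; omega)
  have := (dvd_neg).2 this
  rwa [show -(-k - T.sig) = k + T.sig by ring] at this

theorem U_sig (h : NPH A T) : A.NN ∣ A.U T.sig + A.W1 := by
  rw [U_ix, h.ix_sig]
  exact h.at_cong

theorem U_nsig (h : NPH A T) : A.NN ∣ A.U (-T.sig) - (A.D + A.W1) := by
  rw [U_ix, h.ix_nsig]
  have := dvd_sub A.D_cong h.at_cong
  rwa [show A.a * A.p - A.D - (A.a * T.t + A.W1) = A.a * (A.p - T.t) - (A.D + A.W1) by ring]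
    at this

/-- two coinciding walls which are active on the same level form a tie -/
theorem LR (h : NPH A T) {y c k j : ℤ} (a : A.LA y c k) (b : A.RA y c j) : j = k + T.sig := by
  obtain ⟨a0, a1, a2⟩ := a
  obtain ⟨b0, b1, b2⟩ := b
  have sz := h.sz
  rw [U_ix] at a2 b2
  have k0 := A.ix_nonneg k
  have k1 := A.ix_lt k
  have j0 := A.ix_nonneg j
  have j1 := A.ix_lt j
  have hpart : (A.p : ℤ) * A.q ∣ A.a * (A.ix k - A.ix j) - (A.q * A.w + A.sg) := by
    have := dvd_sub b2 a2
    unfold NN W1 at this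
    rwa [show c - (A.a * A.ix j + (A.q * A.w + A.sg)) - (c - A.a * A.ix k)
      = A.a * (A.ix k - A.ix j) - (A.q * A.w + A.sg) by ring] at this
  have hx0 := h.x0
  rcases T.partner hpart (by rw [abs_le]; constructor <;> omega) with h1 | h1
  · rw [h.ep] at h1
    have r1 := A.ix_row j
    have r2 := A.ix_row k
    have r3 := A.ix_row T.sig
    rw [h.ix_sig] at r3
    have h2 : (A.p : ℤ) ∣ j - k - T.sig := by
      obtain ⟨z1, hz1⟩ := r1
      obtain ⟨z2, hz2⟩ := r2
      obtain ⟨z3, hz3⟩ := r3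
      rw [h1] at hz1
      exact ⟨z2 + z3 - z1, by linear_combination hz2 + hz3 - hz1⟩
    have := Int.eq_zero_of_abs_lt_dvd h2 (by rw [abs_lt]; constructor <;> omega)
    omega
  · exfalso
    have hrow := T.sec_row (A.ix_row k) (A.ix_row j) h1
    rw [h.ep] at h1
    rcases h.sgl with h2 | ⟨h2, h3⟩
    · omega
    · rw [← hrow] at h2 h3
      rcases le_or_gt 0 (k - j + (A.w : ℤ)) with hc | hc
      · rw [Int.emod_eq_of_lt hc (by omega)] at h2
        omega
      · rw [← Int.add_emod_right, Int.emod_eq_of_lt (by omega) (by omega)] at h3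
        omega

end NPH

end TAp

end Pool.Agent.H78.Tie
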