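import Pool.Agent.H67.NP.MainD
import Pool.Agent.H67.NP.Ab
import Pool.Agent.H67.NP.DW

/-! # NoPass : Phi

alpha at x = p, v = D (f = ph', g = kp+1, R >= 0; v = D < N - q h by D_H'): ph' <= kp + 1.
beta at x = NN (g = kp+1 by gv_cong with 0; D + W1 < N by D_W'), v = D - 1 (f = ph', R <= 1): ph' >= kp.
-/

namespace Pool.Agent.H78.Tie

open Finset
open Pool.Agent.H98.Flat
open Pool.Agent.H67.Flat

set_option linter.dupNamespace false
set_option linter.unusedVariables false

namespace TAp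

variable {A : TAp}

namespace NPH

variable {T : A.Tie}

theorem phi (h : NPH A T) (hD : A.W1 < A.D) : A.ph' = A.kp ∨ A.ph' = A.kp + 1 := by
  have hp := A.p_pos'
  obtain ⟨s1, s2, s3, s4, s5, s6, s7, s8, s9⟩ := h.sz
  have w1 := A.W1_bd
  have dw := A.D_W'
  have dh := A.D_H'
  have hW1 : A.W1 = A.q * A.w + A.sg := rfl
  have hsg := A.hsg
  have hD0 := A.D_pos
  have y1 : -(A.w : ℤ) < A.y0 := by unfold y0; omega
  have y2 : A.y0 ≤ 0 := by unfold y0; omega
  have hqh : (0 : ℤ) ≤ A.q * A.h := by have := A.q_pos'; positivity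
  -- upper bound
  have a1 := h.alpha y1 y2 (x := A.p) (v := A.D) (dvd_refl _) hp (by have := A.D_ge; omega) le_rfl
    (by omega) (Or.inr (by omega))
  have g1 := h.g_in0 (x := A.p) (dvd_refl _) hp.le (by omega)
  have r1 := A.Rv_nonneg A.p A.D
  have e1 : A.fv A.y0 A.D = A.ph' := rfl
  -- lower bound
  have a2 := h.beta y1 y2 (x := A.NN) (v := A.D - 1) A.p_NN (by omega) le_rfl (by omega) (by omega)
    (Or.inl h.DW1)
  have g2 : A.gv A.y0 A.NN = A.gv A.y0 0 := gv_cong (by simp)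
  have g3 := h.g_in0 (x := 0) (dvd_zero _) le_rfl (by omega)
  have f2 := h.f_inD hD (v := A.D - 1) (by omega) (by omega)
  have r2 := h.Rv01 A.p_NN (A.D - 1)
  rw [g2, g3, f2] at a2
  rw [g1, e1] at a1
  omega

end NPH

end TAp

end Pool.Agent.H78.Tie
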