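import Pool.Agent.H67.NP.Phi
import Pool.Agent.H67.NP.DW

/-! # NoPass : Rng

Case I (ph' = kp): ranges of f and g.
rI1: f >= kp: beta at x = NN (g = kp+1, R<=1); f <= kp+1: Fb at x = D (g = ph' = kp, R>=0).
rI2: f <= kp: alpha at x = D (g = kp; W1 < D); f >= kp-1: Fb at x = NN (g = kp+1).
rI3: g <= kp+1: beta at v = D-1 (f = kp, R <= 1; D + W1 < x); g >= kp: Fb at v = 0 (f = kp+1).
al: the last event in (0,D): f 0 = kp+1, f (D-1) = kp (f_inD); take al maximal in (0,D) with f(al) <> f(al-1); then f = kp on [al,D);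
f(al-1) is kp or kp+1 by rI1 so kp+1: B event (f_cases).  al <= D - W1 by evD.
-/

namespace Pool.Agent.H78.Tie

open Finset
open Pool.Agent.H98.Flat
open Pool.Agent.H67.Flat

set_option linter.dupNamespace false
set_option linter.unusedVariables false

namespace TAp

variable {A : TAp}

namespace NPH

variable {T : A.Tie}

private theorem rng_g (h : NPH A T) : A.gv A.y0 A.NN = A.kp + 1 := by
  rw [gv_cong (z := 0) (by simp)]
  exact h.g_in0 (by simp) le_rfl (by have := A.W1_bd; have := A.q6; omega)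

private theorem rng_y (h : NPH A T) : -(A.w : ℤ) < A.y0 ∧ A.y0 ≤ 0 := by
  have := h.sz
  unfold y0
  constructor <;> omega

theorem rI1 (h : NPH A T) (hD : A.W1 < A.D) (hp : A.ph' = A.kp) {v : ℤ} (v0 : 0 ≤ v)
    (v1 : v < A.D) : A.kp ≤ A.fv A.y0 v ∧ A.fv A.y0 v ≤ A.kp + 1 := by
  obtain ⟨y1, y2⟩ := h.rng_y
  have hDN := h.DW1
  have hW := A.W1_bd
  have hq := A.q6
  have b := h.beta y1 y2 (x := A.NN) A.p_NN (by omega) le_rfl v0 v1 (Or.inl hDN)
  rw [h.rng_g] at b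
  have r := h.Rv01 (x := A.NN) A.p_NN v
  have f := (h.Fb (x := A.D) A.p_D A.y0 v).2
  rw [h.g_inD hD A.p_D le_rfl (by omega), hp] at f
  have r' := Rv_nonneg A A.D v
  constructor
  · rcases r with r | r <;> omega
  · omega

theorem rI2 (h : NPH A T) (hD : A.W1 < A.D) (hp : A.ph' = A.kp) {v : ℤ} (v0 : A.D ≤ v)
    (v1 : v < A.NN) : A.kp - 1 ≤ A.fv A.y0 v ∧ A.fv A.y0 v ≤ A.kp := by
  obtain ⟨y1, y2⟩ := h.rng_y
  have hDN := h.DW1
  have hW := A.W1_bd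
  have hq := A.q6
  have a := h.alpha y1 y2 (x := A.D) A.p_D A.D_pos le_rfl v0 v1 (Or.inl hD)
  rw [h.g_inD hD A.p_D le_rfl (by omega), hp] at a
  have r := h.Rv01 (x := A.NN) A.p_NN v
  have f := (h.Fb (x := A.NN) A.p_NN A.y0 v).1
  rw [h.rng_g] at f
  have r' := Rv_nonneg A A.D v
  constructor
  · rcases r with r | r <;> omega
  · omega

theorem rI3 (h : NPH A T) (hD : A.W1 < A.D) (hp : A.ph' = A.kp) {x : ℤ} (hx : (A.p : ℤ) ∣ x)
    (x0 : A.D + A.W1 < x) (x1 : x ≤ A.NN) : A.kp ≤ A.gv A.y0 x ∧ A.gv A.y0 x ≤ A.kp + 1 := by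
  obtain ⟨y1, y2⟩ := h.rng_y
  have hW := A.W1_bd
  have hq := A.q6
  have hD0 := A.D_pos
  have b := h.beta y1 y2 hx (by omega) x1 (v := A.D - 1) (by omega) (by omega) (Or.inl x0)
  rw [h.f_inD hD (v := A.D - 1) (by omega) (by omega), hp] at b
  have r := h.Rv01 hx (A.D - 1)
  have f := (h.Fb hx A.y0 0).2
  rw [h.f_zero] at f
  have r' := Rv_nonneg A x 0
  constructor
  · omega
  · rcases r with r | r <;> omega

theorem al_ex (h : NPH A T) (hD : A.W1 < A.D) (hp : A.ph' = A.kp) : ∃ al I, 0 < al ∧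
    al ≤ A.D - A.W1 ∧ A.fv A.y0 (al - 1) = A.kp + 1 ∧
    (∀ v, al ≤ v → v < A.D → A.fv A.y0 v = A.kp) ∧ A.y0 + A.h ≤ I ∧ I < A.y0 + A.h + A.w ∧
    A.NN ∣ al - (A.V I - A.q * A.h) := by
  have hW := A.W1_bd
  have hq := A.q6
  have hD0 := A.D_pos
  obtain ⟨m, ⟨m0, m1, m2⟩, mx⟩ := Int.exists_greatest_of_bdd
    (P := fun z => 0 ≤ z ∧ z < A.D ∧ A.fv A.y0 z ≠ A.kp) ⟨A.D, fun z hz => hz.2.1.le⟩
    ⟨0, le_rfl, hD0, by rw [h.f_zero]; omega⟩
  have hm : m < A.D - A.W1 := by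
    by_contra hc
    exact m2 (by rw [h.f_inD hD (by omega) m1.le, hp])
  have hall : ∀ v, m + 1 ≤ v → v < A.D → A.fv A.y0 v = A.kp := by
    intro v a b
    by_contra hc
    have := mx v ⟨by omega, b, hc⟩
    omega
  have e1 : A.fv A.y0 m = A.kp + 1 := by
    have := h.rI1 hD hp m0 m1
    omega
  have e2 := hall (m + 1) le_rfl (by omega)
  rcases f_cases A A.y0 (m + 1) with ⟨c, _⟩ | ⟨c, _⟩ | ⟨_, k, k0, k1, k2⟩
  · rw [add_sub_cancel_right] at c; omega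
  · rw [add_sub_cancel_right] at c; omega
  · exact ⟨m + 1, k, by omega, by omega, by rwa [add_sub_cancel_right], hall, k0, k1, k2⟩

end NPH

end TAp

end Pool.Agent.H78.Tie
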