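import Pool.Agent.H67.NP.LemH

/-! # NoPass : WallI

Case I, the down line.  v_x := vx x.  Data al, I from al_ex.
-/

namespace Pool.Agent.H78.Tie

open Finset
open Pool.Agent.H98.Flat
open Pool.Agent.H67.Flat

set_option linter.dupNamespace false
set_option linter.unusedVariables false

namespace TAp

variable {A : TAp}

namespace NPH

variable {T : A.Tie}

theorem WallI_k0 (A : TAp) : (A.sg = 1 ∧ A.k0 = 2) ∨ (A.sg = -1 ∧ A.k0 = 1) := by
  rcases A.hsg with h | h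
  · left
    refine ⟨h, ?_⟩
    unfold TAp.k0
    rw [if_pos h]
  · right
    refine ⟨h, ?_⟩
    unfold TAp.k0
    rw [if_neg (by rw [h]; norm_num)]

theorem WallI_DW (h : NPH A T) : A.D + A.W1 < A.NN := by
  obtain ⟨s1, s2, s3, s4, s5, s6, s7, s8, s9⟩ := h.sz
  have h1 := A.D_W'
  have hW : A.W1 = A.q * A.w + A.sg := rfl
  have hne : A.D + A.W1 ≠ A.NN := by
    intro hc
    have h2 := h.U_nsig
    rw [hc] at h2
    have h3 : A.NN ∣ A.U (-T.sig) - A.U 0 := by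
      rw [A.U_zero', sub_zero]
      have := dvd_add h2 (dvd_refl A.NN)
      rwa [sub_add_cancel] at this
    have h4 := UU h3
    rw [sub_zero, dvd_neg] at h4
    have := Int.le_of_dvd (by omega) h4
    omega
  rcases WallI_k0 A with ⟨e, _⟩ | ⟨e, _⟩ <;> rw [e] at hW <;> omega

theorem Dxi (h : NPH A T) (hD : A.W1 < A.D) (hp : A.ph' = A.kp) {al : ℤ} (al0 : 0 < al)
    (al1 : al < A.D) (hal : ∀ v, al ≤ v → v < A.D → A.fv A.y0 v = A.kp) :
    A.D ≤ A.q * -T.x - A.sg := by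
  obtain ⟨s1, s2, s3, s4, s5, s6, s7, s8, s9⟩ := h.sz
  have hW : A.W1 = A.q * A.w + A.sg := rfl
  have hWb := A.W1_bd
  have hDW := h.WallI_DW
  have hNp : (A.p : ℤ) ∣ A.NN := A.p_NN
  have hg : A.gv A.y0 A.NN = A.kp + 1 := by
    rw [gv_cong (z := 0) (by rw [sub_zero])]
    exact h.g_in0 (dvd_zero _) le_rfl (by omega)
  obtain ⟨m, hm1, hm2, hm3⟩ := h.lemH hD hp al0 al1 hal hNp hDW le_rfl hg
  have hUs := h.U_sig
  have hc1 : A.Cx T.sig A.NN := by
    refine Cx_of hNp (δ := A.W1) ?_ (by omega) le_rfl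
    exact dvd_sub (dvd_refl _) hUs
  have hsx : T.sig = A.w - T.x := rfl
  have hq := A.q_pos'
  have hc2 : A.Rw T.sig (A.vx A.NN) := by
    refine Rw_of (δ := A.q * (T.sig - 1) + (A.k0 - A.sg)) ?_ ?_ ?_
    · unfold vx y0
      rw [A.V_eq]
      obtain ⟨z, hz⟩ := hUs
      refine ⟨1 - z, ?_⟩
      rw [hW] at hz
      linear_combination -hz
    · have : 0 ≤ (A.q : ℤ) * (T.sig - 1) := mul_nonneg hq.le (by omega)
      rcases WallI_k0 A with ⟨e, e'⟩ | ⟨e, e'⟩ <;> rw [e, e'] <;> omega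
    · have : (A.q : ℤ) * (T.sig - 1) ≤ A.q * (A.h - 1) := mul_le_mul_of_nonneg_left (by omega) hq.le
      have e2 : (A.q : ℤ) * (A.h - 1) = A.q * A.h - A.q := by ring
      rcases WallI_k0 A with ⟨e, e'⟩ | ⟨e, e'⟩ <;> rw [e, e'] <;> omega
  have hu := h.uniq hNp hm1 hm2 hc1 hc2
  have hr : A.Rw T.sig (A.D - 1) :=
    Rw_congr hu (by rw [sub_self]; exact dvd_zero _) (hm3 (A.D - 1) (by omega) (by omega))
  obtain ⟨δ, d0, d1, hd⟩ := hr.off
  have hDH := A.D_H'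
  have hz : A.NN ∣ A.D - 1 - A.q * -T.x + A.sg + δ := by
    rw [A.V_eq] at hd
    obtain ⟨z, hz⟩ := hUs
    obtain ⟨z', hz'⟩ := hd
    refine ⟨z' + z, ?_⟩
    rw [hW] at hz
    rw [hsx] at hz hz'
    linear_combination hz' + hz
  have hxi : 0 < (A.q : ℤ) * -T.x := by
    have := h.x0
    exact mul_pos hq (by omega)
  by_contra hcon
  have hpos : 0 < A.D - 1 - A.q * -T.x + A.sg + δ := by omega
  have := Int.le_of_dvd hpos hz
  rcases WallI_k0 A with ⟨e, e'⟩ | ⟨e, e'⟩ <;> rw [e] at this <;> omega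

theorem wallI (h : NPH A T) (hD : A.W1 < A.D) (hp : A.ph' = A.kp) {al I : ℤ} (al0 : 0 < al)
    (al1 : al ≤ A.D - A.W1) (hal : ∀ v, al ≤ v → v < A.D → A.fv A.y0 v = A.kp)
    (I0 : A.y0 + A.h ≤ I) (I1 : I < A.y0 + A.h + A.w) (hI : A.NN ∣ al - (A.V I - A.q * A.h)) :
    ∃ k a, (∀ v, A.D ≤ v → v < A.NN → A.Rw k v ∨ A.fv A.y0 v = A.kp) ∧
      A.NN ∣ a - (A.V k - A.q * A.h) ∧ al + A.W1 - A.q * A.h ≤ a ∧ a ≤ A.D - A.W1 := by
  obtain ⟨s1, s2, s3, s4, s5, s6, s7, s8, s9⟩ := h.sz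
  have hW : A.W1 = A.q * A.w + A.sg := rfl
  have hWb := A.W1_bd
  have hq := A.q_pos'
  have hy : A.y0 = 1 - A.w := rfl
  have hpp : (0 : ℤ) < A.p := by omega
  have hDH := A.D_H'
  have hqh : (A.q : ℤ) * (A.w + 1) ≤ A.q * A.h := mul_le_mul_of_nonneg_left (by omega) hq.le
  have hqh2 : (A.q : ℤ) * (A.w + 1) = A.q * A.w + A.q := by ring
  have hqw1 : (A.q : ℤ) * A.y0 = A.q - A.q * A.w := by rw [hy]; ring
  have hqw2 : (A.q : ℤ) ≤ A.q * A.w := by nlinarith
  -- the column `x_I`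
  obtain ⟨r, r0, r1, hxp⟩ : ∃ r, 0 ≤ r ∧ r < (A.p : ℤ) ∧
      (A.p : ℤ) ∣ al + A.k0 - A.q * A.y0 + r := by
    refine ⟨(-(al + A.k0 - A.q * A.y0)) % A.p, Int.emod_nonneg _ hpp.ne', Int.emod_lt_of_pos _ hpp, ?_⟩
    have := Int.emod_add_mul_ediv (-(al + A.k0 - A.q * A.y0)) A.p
    refine ⟨-((-(al + A.k0 - A.q * A.y0)) / A.p), ?_⟩
    linear_combination this
  set xI := al + A.k0 - A.q * A.y0 + r with hxI
  have hvx : A.vx xI = al + r := by
    unfold vx
    rw [hxI]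
    ring
  have hk0 := WallI_k0 A
  have hCI : A.Cx I xI := by
    refine Cx_of hxp (δ := r + A.k0 + A.q * (I - A.y0 - A.h)) ?_ ?_ ?_
    · obtain ⟨z, hz⟩ := hI
      rw [A.V_eq] at hz
      refine ⟨z, ?_⟩
      rw [hxI]
      linear_combination hz
    · have : 0 ≤ (A.q : ℤ) * (I - A.y0 - A.h) := mul_nonneg hq.le (by omega)
      rcases hk0 with ⟨e, e'⟩ | ⟨e, e'⟩ <;> rw [e'] <;> omega
    · have : (A.q : ℤ) * (I - A.y0 - A.h) ≤ A.q * (A.w - 1) :=
        mul_le_mul_of_nonneg_left (by omega) hq.le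
      have e2 : (A.q : ℤ) * (A.w - 1) = A.q * A.w - A.q := by ring
      rcases hk0 with ⟨e, e'⟩ | ⟨e, e'⟩ <;> rw [hW, e', e] <;> omega
  have hRI : A.Rw I (A.vx xI) := by
    refine Rw_of (δ := A.q * A.h - r) ?_ (by omega) (by omega)
    rw [hvx]
    obtain ⟨z, hz⟩ := hI
    exact ⟨z, by linear_combination hz⟩
  have hfI : A.fv A.y0 (A.vx xI) = A.kp := by
    rw [hvx]
    exact hal _ (by omega) (by omega)
  have hgI : A.gv A.y0 xI = A.kp + 1 := by
    have h1 := A.gid' (y := A.y0) (x := xI) (θ := 0) le_rfl (by omega)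
    rw [sub_zero] at h1
    change A.gv A.y0 xI = A.Rv xI (A.vx xI) + A.fv A.y0 (A.vx xI) at h1
    have h2 := Rv_of hCI hRI
    have h3 := h.Rv01 hxp (A.vx xI)
    rw [h1, hfI]
    omega
  have hgD : A.gv A.y0 A.D = A.kp := by
    rw [h.g_inD hD A.p_D le_rfl (by omega), hp]
  have hxD : xI ≤ A.D := by
    rcases hk0 with ⟨e, e'⟩ | ⟨e, e'⟩ <;> rw [e] at hW <;> rw [e'] at hxI <;> omega
  have hxD' : xI ≠ A.D := by
    intro hc
    rw [hc, hgD] at hgI
    omega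
  have hx0 : 0 < xI := by
    rcases hk0 with ⟨e, e'⟩ | ⟨e, e'⟩ <;> rw [e'] at hxI <;> omega
  obtain ⟨c, hc, c0, c1, hgc, hgc', ⟨k, hk⟩, -⟩ :=
    first_drop hxp A.p_D hxD (by rw [hgD, hgI]; omega)
  have hcp : c + A.p ≤ A.D := by
    have h1 := dvd_sub A.p_D hc
    have := Int.le_of_dvd (by omega) h1
    omega
  obtain ⟨k1, k2, k3⟩ := hk
  -- `k` covers `(c, vx c)`
  have hvc : A.vx c = c - A.k0 + A.q * A.y0 := rfl
  set dl := A.q * (k - A.y0 - A.w) + (A.k0 - A.sg) with hdl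
  have hdl0 : 0 < dl ∧ A.k0 - A.sg ≤ dl := by
    have : 0 ≤ (A.q : ℤ) * (k - A.y0 - A.w) := mul_nonneg hq.le (by omega)
    rcases hk0 with ⟨e, e'⟩ | ⟨e, e'⟩ <;> rw [hdl, e, e'] <;> omega
  have hdl1 : dl ≤ A.q * A.h := by
    have : (A.q : ℤ) * (k - A.y0 - A.w) ≤ A.q * (A.h - 1) :=
      mul_le_mul_of_nonneg_left (by omega) hq.le
    have e2 : (A.q : ℤ) * (A.h - 1) = A.q * A.h - A.q := by ring
    rcases hk0 with ⟨e, e'⟩ | ⟨e, e'⟩ <;> rw [hdl, e, e'] <;> omega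
  have hda : A.NN ∣ A.vx c - (A.V k - dl) := by
    obtain ⟨z, hz⟩ := k3
    refine ⟨z, ?_⟩
    rw [A.V_eq, hvc, hdl]
    rw [hW] at hz
    linear_combination hz
  have hxc : A.vx xI ≤ A.vx c := by
    unfold vx
    omega
  refine ⟨k, A.vx c + dl - A.q * A.h, ?_, ?_, ?_, ?_⟩
  · intro v v0 v1
    have h1 := h.inD hD hc (by omega) c1 hgc' ⟨k1, k2, k3⟩ v0 v1
    rw [hgc', hgc, hgI] at h1
    rcases h1 with h1 | h1
    · exact Or.inl h1
    · right
      rw [h1]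
      ring
  · obtain ⟨z, hz⟩ := hda
    exact ⟨z, by linear_combination hz⟩
  · -- lower bound
    by_cases hal2 : al ≤ A.vx c + dl - A.q * A.h
    · rcases hk0 with ⟨e, e'⟩ | ⟨e, e'⟩ <;> rw [e] at hW <;> omega
    · by_cases hux : xI ≤ c - A.W1
      · have : A.vx xI + A.W1 ≤ A.vx c := by
          unfold vx
          omega
        rcases hk0 with ⟨e, e'⟩ | ⟨e, e'⟩ <;> rw [e, e'] at hdl0 <;> omega
      · exfalso
        have hCk : A.Cx k xI := by
          refine Cx_of hxp (δ := xI - (c - A.W1)) ?_ (by omega) (by omega)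
          obtain ⟨z, hz⟩ := k3
          exact ⟨z, by linear_combination hz⟩
        have hRk : A.Rw k (A.vx xI) := by
          refine Rw_of (δ := A.vx c + dl - A.vx xI) ?_ (by omega) (by omega)
          obtain ⟨z, hz⟩ := hda
          exact ⟨z, by linear_combination hz⟩
        have hu := h.uniq hxp hCk hRk hCI hRI
        have hV := A.V_cong hu
        have h1 : A.NN ∣ al - (A.vx c + dl - A.q * A.h) := by
          obtain ⟨z, hz⟩ := hV
          obtain ⟨z', hz'⟩ := hda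
          obtain ⟨z'', hz''⟩ := hI
          exact ⟨z'' - z' - z, by linear_combination hz'' - hz' - hz⟩
        have := Int.le_of_dvd (by omega) h1
        have := A.D_pos
        omega
  · -- upper bound
    by_cases hal2 : A.vx c + dl - A.q * A.h ≤ al
    · omega
    · have hlh : k < A.y0 + A.h := by
        by_contra hcon
        have h1 : A.NN ∣ (A.vx c + dl - A.q * A.h) - (A.V k - A.q * A.h) := by
          obtain ⟨z, hz⟩ := hda
          exact ⟨z, by linear_combination hz⟩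
        have h2 := f_B (y := A.y0) (k := k) (v := A.vx c + dl - A.q * A.h) (by omega) (by omega) h1
        have hvD : A.vx c < A.D := by
          rw [hvc]
          rcases hk0 with ⟨e, e'⟩ | ⟨e, e'⟩ <;> rw [e'] <;> omega
        rw [hal _ (by omega) (by omega), hal _ (by omega) (by omega)] at h2
        omega
      have : (A.q : ℤ) * (k - A.y0 - A.w) ≤ A.q * (A.h - 1 - A.w) :=
        mul_le_mul_of_nonneg_left (by omega) hq.le
      have e2 : (A.q : ℤ) * (A.h - 1 - A.w) = A.q * A.h - A.q - A.q * A.w := by ring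
      rcases hk0 with ⟨e, e'⟩ | ⟨e, e'⟩ <;> rw [e, e'] at hdl <;> rw [e] at hW <;>
        rw [e'] at hvc <;> omega

end NPH

end TAp

end Pool.Agent.H78.Tie
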